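import Pool.Agent.MP_9c82b4_lc.Force

namespace Pool.Agent.MP_9c82b4_lc

open Set Classical MeasureTheory

variable {A B : Set Θ} {p q r d : Pre} {S S' : Set X}

theorem Force.mono_set (h : Force A p S) (hS : S ⊆ S') : Force A p S' := by
  rw [force_def] at h ⊢
  obtain ⟨𝒟, h₁, h₂, h₃⟩ := h
  exact ⟨𝒟, h₁, h₂, fun s a b c => hS (h₃ s a b c)⟩

theorem force_of_forall (h : ∀ x, x ∈ S) : Force A p S :=
  force_def.2 ⟨∅, countable_empty, by simp, fun _ _ _ _ => h _⟩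

theorem force_all {ι : Sort*} [Countable ι] {Q : ι → X → Prop} (h : ∀ i, Force A p {x | Q i x}) :
    Force A p {x | ∀ i, Q i x} := by
  simp only [force_def] at h ⊢
  choose 𝒟 h₁ h₂ h₃ using h
  refine ⟨⋃ i, 𝒟 i, countable_iUnion h₁, fun D hD => ?_, fun s a b c i => ?_⟩
  · obtain ⟨i, hi⟩ := mem_iUnion.1 hD
    exact h₂ i D hi
  · exact h₃ i s a b fun D hD => c D (mem_iUnion.2 ⟨i, hD⟩)

theorem force_ball {ι : Type*} {I : Set ι} (hI : I.Countable) {Q : ι → X → Prop}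
    (h : ∀ i ∈ I, Force A p {x | Q i x}) : Force A p {x | ∀ i ∈ I, Q i x} :=
  have := hI.to_subtype
  (force_all (Q := fun (i : I) x => Q i x) fun i => h i i.2).mono_set fun _ hx i hi => hx ⟨i, hi⟩

theorem Force.inter (h : Force A p S) (h' : Force A p S') : Force A p (S ∩ S') :=
  (force_all (Q := fun (b : Bool) x => x ∈ cond b S S') (by rintro (_ | _); exacts [h', h])).mono_set
    fun _ hx => ⟨hx true, hx false⟩

theorem Force.and {S'' : Set X} (h : Force A p S) (h' : Force A p S')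
    (H : ∀ x ∈ S, x ∈ S' → x ∈ S'') : Force A p S'' :=
  (h.inter h').mono_set fun x hx => H x hx.1 hx.2

theorem Le.b (h : Le q p) : Sub0 q.b p.b := (le_def.1 h).1

theorem Le.T (h : Le q p) : p.T ⊆ q.T := (le_def.1 h).2.1

theorem Le.L (h : Le q p) {τ : Θ} (hτ : τ ∈ p.T) :
    Force (lo τ) (res (lo τ) q) {x | Rel p.T (p.L τ x) (q.L τ x)} := (le_def.1 h).2.2 τ hτ

theorem le_of_pw (h₁ : Sub0 q.b p.b) (h₂ : p.T ⊆ q.T)
    (h₃ : ∀ τ ∈ p.T, ∀ x, Rel p.T (p.L τ x) (q.L τ x)) : Le q p :=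
  le_def.2 ⟨h₁, h₂, fun τ hτ => force_of_forall (h₃ τ hτ)⟩

theorem Le.refl (p : Pre) : Le p p := le_of_pw (.refl _) subset_rfl fun _ _ _ => .refl _ _

theorem le_res (A : Set Θ) (p : Pre) : Le p (res A p) :=
  le_of_pw (sub_proj _ _) inter_subset_left fun _ _ _ => .refl _ _

theorem Le.res (h : Le q p) (hA : IsLowerSet A) : Le (res A q) (res A p) := by
  refine le_def.2 ⟨proj_mono A h.b, inter_subset_inter_left _ h.T, fun τ hτ => ?_⟩
  rw [res_res (lo_sub hA hτ.2)]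
  exact (h.L hτ.1).mono_set fun x hx => Rel.mono hx inter_subset_left

theorem Mem.fs (h : Mem A p) : FS A p.b := (mem_def.1 h).1

theorem Mem.pos (h : Mem A p) : pr p.b ≠ 0 := (mem_def.1 h).2.1

theorem Mem.T (h : Mem A p) : p.T ⊆ A := (mem_def.1 h).2.2.1

theorem Mem.sm (h : Mem A p) {τ : Θ} (hτ : τ ∈ p.T) (j : ℕ) :
    Sm τ (res (lo τ) p) fun x => {m | (p.L τ x).e m = j} := (mem_def.1 h).2.2.2 τ hτ j

theorem le_trans_aux (H : ∀ τ ∈ r.T, ∀ p q S, Le q p → Force (lo τ) p S → Force (lo τ) q S)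
    (h₁ : Le r q) (h₂ : Le q p) : Le r p :=
  le_def.2 ⟨h₁.b.trans h₂.b, h₂.T.trans h₁.T, fun τ hτ =>
    (H τ (h₁.T (h₂.T hτ)) _ _ _ (h₁.res (lo_lower τ)) (h₂.L hτ)).and (h₁.L (h₂.T hτ))
      fun _ a b => a.trans b h₂.T⟩

theorem force_mono_aux (H : ∀ τ ∈ A, ∀ p q S, Le q p → Force (lo τ) p S → Force (lo τ) q S)
    (h : Le q p) (hS : Force A p S) : Force A q S := by
  rw [force_def] at hS ⊢
  obtain ⟨𝒟, h₁, h₂, h₃⟩ := hS
  refine ⟨𝒟, h₁, h₂, fun s hs ⟨n, hn⟩ => h₃ s hs ⟨n, le_trans_aux (fun τ hτ => H τ ?_) hn h⟩⟩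
  exact ((chain_def.1 hs).1 n).T hτ

theorem force_mono_Iio (ν : Θ) : ∀ p q S, Le q p → Force (Iio ν) p S → Force (Iio ν) q S := by
  induction ν using WellFoundedLT.induction with
  | ind ν ih => exact fun p q S => force_mono_aux fun τ hτ => ih _ ((mu_le τ).trans_lt hτ)

theorem Le.trans (h₁ : Le r q) (h₂ : Le q p) : Le r p :=
  le_trans_aux (fun _ _ => force_mono_Iio _) h₁ h₂

theorem Force.mono (hS : Force A p S) (h : Le q p) : Force A q S :=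
  force_mono_aux (fun _ _ => force_mono_Iio _) h hS

theorem Le.res_le (h : Le q p) (hA : IsLowerSet A) (hp : Mem A p) : Le (Pool.Agent.MP_9c82b4_lc.res A q) p := by
  refine le_def.2 ⟨(proj_sub hp.fs).2 h.b, subset_inter h.T hp.T, fun τ hτ => ?_⟩
  rw [res_res (lo_sub hA (hp.T hτ))]
  exact h.L hτ

theorem Sm.mono {τ : Θ} {Z : X → Set ℕ} (h : Sm τ p Z) (hq : Le q p) : Sm τ q Z :=
  sm_def.2 fun d₁ h₁ h₂ => sm_def.1 h d₁ h₁ (h₂.trans hq)

theorem Mem.mono (h : Mem A p) (hAB : A ⊆ B) : Mem B p :=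
  mem_def.2 ⟨h.fs.mono hAB, h.pos, h.T.trans hAB, fun _ => h.sm⟩

theorem Mem.res (h : Mem B p) (hA : IsLowerSet A) : Mem A (res A p) := by
  refine mem_def.2 ⟨proj_fs _ _, (sub_proj A p.b).ne_zero h.pos, inter_subset_right,
    fun τ hτ j => ?_⟩
  rw [res_res (lo_sub hA hτ.2)]
  exact h.sm hτ.1 j

theorem Mem.lo (h : Mem B p) (τ : Θ) : Mem (lo τ) (Pool.Agent.MP_9c82b4_lc.res (lo τ) p) :=
  h.res (lo_lower τ)

/-- A condition whose partitions are taken from a weaker valid condition. -/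
theorem mem_of_le (h₁ : FS A q.b) (h₂ : pr q.b ≠ 0) (h₃ : q.T ⊆ A)
    (h₄ : ∀ τ ∈ q.T, ∃ p B, Mem B p ∧ Le q p ∧ τ ∈ p.T ∧ ∀ x, (q.L τ x).e = (p.L τ x).e) :
    Mem A q := by
  refine mem_def.2 ⟨h₁, h₂, h₃, fun τ hτ j => ?_⟩
  obtain ⟨p, B, a, b, c, e⟩ := h₄ τ hτ
  simp only [e]
  exact (a.sm c j).mono (b.res (lo_lower τ))

def shrink (p : Pre) (a : Set X) : Pre := ⟨p.b ∩ a, p.T, p.L, p.hT, p.hL⟩

@[simp] theorem shrink_b (p : Pre) (a : Set X) : (shrink p a).b = p.b ∩ a := rfl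

theorem shrink_le (p : Pre) (a : Set X) : Le (shrink p a) p :=
  le_of_pw (.of_sub inter_subset_left) subset_rfl fun _ _ _ => .refl _ _

theorem shrink_sub (p : Pre) (a : Set X) : Sub0 (shrink p a).b a := .of_sub inter_subset_right

theorem Le.shrink {a : Set X} (h : Le q p) (ha : Sub0 q.b a) : Le q (shrink p a) :=
  le_def.2 ⟨h.b.inter ha, h.T, fun _ hτ => h.L hτ⟩

theorem Mem.shrink (h : Mem A p) {a : Set X} (ha : FS A a) (h₀ : pr (p.b ∩ a) ≠ 0) :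
    Mem A (shrink p a) :=
  mem_of_le (h.fs.inter ha) h₀ h.T fun _ hτ => ⟨p, A, h, shrink_le p a, hτ, fun _ => rfl⟩

/-! ### Consistency and regularity -/

theorem Force.nonempty (h : Force A p S) (hp : Mem A p) : S.Nonempty := by
  obtain ⟨𝒟, h₁, h₂, h₃⟩ := force_def.1 h
  obtain ⟨D, hD⟩ := (h₁.insert univ).exists_eq_range (insert_nonempty _ _)
  have h₄ : ∀ n, ∀ q : {q // Mem A q}, ∃ q' : {q // Mem A q}, Le q'.1 q.1 ∧ ∃ d ∈ D n, Le q'.1 d := by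
    intro n q
    rcases (hD ▸ mem_range_self n : D n ∈ insert univ 𝒟) with e | e
    · exact ⟨q, .refl _, q, e ▸ mem_univ _, .refl _⟩
    · obtain ⟨q', a, b⟩ := dense_def.1 (h₂ _ e) q q.2
      exact ⟨⟨q', a⟩, b⟩
  choose f hf hf' using h₄
  let s : ℕ → {q // Mem A q} := fun n => Nat.rec ⟨p, hp⟩ f n
  refine ⟨_, h₃ (fun n => (s n).1) (chain_def.2 ⟨fun n => (s n).2, fun n m h => ?_⟩) ⟨0, .refl p⟩
    fun E hE => ?_⟩
  · induction m, h using Nat.le_induction with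
    | base => exact .refl _
    | succ m _ ih => exact (hf m (s m)).trans ih
  · obtain ⟨n, rfl⟩ : E ∈ range D := hD ▸ mem_insert_of_mem _ hE
    exact ⟨n + 1, hf' n (s n)⟩

theorem Force.meet (h : Force A p S) (h' : Force A p S') (hp : Mem A p) : ∃ x ∈ S, x ∈ S' :=
  (h.inter h').nonempty hp

theorem exists_functional {Q : Type*} [Preorder Q] {V : Type*} (E : V → Q → Prop)
    (dense : ∀ p, ∃ q ≤ p, ∃ v, E v q) :
    ∃ E' : V → Q → Prop, (∀ v q, E' v q → ∃ a, q ≤ a ∧ E v a) ∧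
      (∀ v p q, q ≤ p → E' v p → E' v q) ∧ (∀ p, ∃ q ≤ p, ∃ v, E' v q) ∧
      ∀ v v' q, E' v q → E' v' q → v = v' := by
  obtain ⟨M, hM⟩ := zorn_subset {M : Set Q | (∀ a ∈ M, ∃ v, E v a) ∧
      ∀ a ∈ M, ∀ a' ∈ M, ∀ r, r ≤ a → r ≤ a' → a = a'} (by
    intro c hc hch
    refine ⟨⋃₀ c, ⟨fun a ⟨M, hM, ha⟩ => (hc hM).1 a ha, ?_⟩, fun M hM => subset_sUnion_of_mem hM⟩
    rintro a ⟨M, hM, ha⟩ a' ⟨M', hM', ha'⟩
    rcases hch.total hM hM' with h | h
    exacts [(hc hM').2 a (h ha) a' ha', (hc hM).2 a ha a' (h ha')])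
  choose val hval using hM.prop.1
  refine ⟨fun v q => ∃ a, ∃ h : a ∈ M, q ≤ a ∧ v = val a h, ?_, ?_, fun p => ?_, ?_⟩
  · rintro _ q ⟨a, h, h₁, rfl⟩
    exact ⟨a, h₁, hval a h⟩
  · rintro v p q h ⟨a, h₁, h₂, h₃⟩
    exact ⟨a, h₁, h.trans h₂, h₃⟩
  · obtain ⟨q, hq, hv⟩ := dense p
    by_contra hn
    have h₁ : ∀ a ∈ M, ∀ r, r ≤ q → ¬ r ≤ a := fun a ha r h₁ h₂ =>
      hn ⟨r, h₁.trans hq, _, a, ha, h₂, rfl⟩
    refine h₁ q (hM.le_of_ge (y := insert q M) ⟨?_, ?_⟩ (subset_insert _ _) (mem_insert _ _)) q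
      le_rfl le_rfl
    · rintro a (rfl | ha)
      exacts [hv, hM.prop.1 a ha]
    · rintro a (rfl | ha) a' (rfl | ha') r h₂ h₃
      exacts [rfl, absurd h₃ (h₁ _ ha' r h₂), absurd h₂ (h₁ _ ha r h₃), hM.prop.2 a ha a' ha' r h₂ h₃]
  · rintro _ _ q ⟨a, h, h₁, rfl⟩ ⟨a', h', h₂, rfl⟩
    obtain rfl := hM.prop.2 a h a' h' q h₁ h₂
    rfl

/-- The conditions of level `A`. -/
def PA (A : Set Θ) : Type 1 := {p // Mem A p}

instance (A : Set Θ) : Preorder (PA A) where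
  le q p := Le q.1 p.1
  le_refl p := .refl _
  le_trans _ _ _ := Le.trans

theorem Chain.mem {s : ℕ → Pre} (h : Chain A s) (n : ℕ) : Mem A (s n) := (chain_def.1 h).1 n

theorem Chain.le {s : ℕ → Pre} (h : Chain A s) {n m : ℕ} (hn : n ≤ m) : Le (s m) (s n) :=
  (chain_def.1 h).2 n m hn

theorem Chain.both {s : ℕ → Pre} (h : Chain A s) {n m : ℕ} (h₁ : Le (s n) p) (h₂ : Le (s m) q) :
    Le (s (max n m)) p ∧ Le (s (max n m)) q :=
  ⟨(h.le (le_max_left _ _)).trans h₁, (h.le (le_max_right _ _)).trans h₂⟩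

theorem Force.reg (h : ∀ d, Mem A d → Le d p → ∃ d', Mem A d' ∧ Le d' d ∧ Force A d' S) :
    Force A p S := by
  have hu : Dense A univ := dense_def.2 fun q hq => ⟨q, hq, .refl _, q, mem_univ _, .refl _⟩
  obtain ⟨E, h₁, h₂, h₃, h₄⟩ := exists_functional (Q := PA A) (fun (v : ℕ → Set Pre) a =>
      (∀ i, Dense A (v i)) ∧ ∀ s, Chain A s → (∃ n, Le (s n) p) → (∃ n, Le (s n) a.1) →
        (∀ i, ∃ n, ∃ d ∈ v i, Le (s n) d) → pt A s ∈ S) (by
    intro q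
    by_cases hq : ∃ d, Mem A d ∧ Le d p ∧ Le d q.1
    · obtain ⟨d, a, b, c⟩ := hq
      obtain ⟨d', a', b', c'⟩ := h d a b
      obtain ⟨𝒟, h₁, h₂, h₃⟩ := force_def.1 c'
      obtain ⟨D, hD⟩ := (h₁.insert univ).exists_eq_range (insert_nonempty _ _)
      refine ⟨⟨d', a'⟩, b'.trans c, D, fun i => ?_, fun s hs _ e f => h₃ s hs e fun E hE => ?_⟩
      · rcases (hD ▸ mem_range_self i : D i ∈ insert univ 𝒟) with e | e
        exacts [e ▸ hu, h₂ _ e]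
      · obtain ⟨i, rfl⟩ : E ∈ range D := hD ▸ mem_insert_of_mem _ hE
        exact f i
    · refine ⟨q, le_rfl, fun _ => univ, fun _ => hu, fun s hs ⟨n, hn⟩ ⟨m, hm⟩ _ => ?_⟩
      exact absurd ⟨_, hs.mem _, hs.both hn hm⟩ hq)
  let D : ℕ → Set Pre := fun i => {d | ∃ hd : Mem A d, ∃ v, E v ⟨d, hd⟩ ∧ ∃ d' ∈ v i, Le d d'}
  refine force_def.2 ⟨range D, countable_range _, ?_, fun s hs hp H => ?_⟩
  · rintro _ ⟨i, rfl⟩
    refine dense_def.2 fun q hq => ?_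
    obtain ⟨q', a, v, b⟩ := h₃ ⟨q, hq⟩
    obtain ⟨-, -, c, -⟩ := h₁ v q' b
    obtain ⟨q'', e, f, g⟩ := dense_def.1 (c i) q'.1 q'.2
    exact ⟨q'', e, f.trans a, q'', ⟨e, v, h₂ v q' ⟨q'', e⟩ f b, g⟩, .refl _⟩
  · obtain ⟨n, d, ⟨hd, v, a, -⟩, b⟩ := H _ ⟨0, rfl⟩
    obtain ⟨c, e, -, f⟩ := h₁ v _ a
    refine f s hs hp ⟨n, b.trans e⟩ fun i => ?_
    obtain ⟨n', d', ⟨hd', v', a', d'', g⟩, b'⟩ := H _ ⟨i, rfl⟩
    have := hs.both b b'
    obtain rfl := h₄ v v' ⟨_, hs.mem (max n n')⟩ (h₂ _ _ _ this.1 a) (h₂ _ _ _ this.2 a')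
    exact ⟨n', d'', g.1, b'.trans g.2⟩

/-! ### The generic point -/

theorem W.mono {κ : Ξ} {v : ℕ} (h : W κ v p) (hq : Le q p) : W κ v q := by
  cases κ with
  | R ξ n => exact W_R.2 (hq.b.trans (W_R.1 h))
  | H τ β m =>
    obtain ⟨h₁, h₂, h₃, h₄⟩ := W_H.1 h
    refine W_H.2 ⟨hq.T h₁, hq.T h₂, h₃,
      (h₄.mono (hq.res (lo_lower τ))).and (hq.L h₁) fun x a b => ?_⟩
    exact ((b β h₂).1 m (a.symm ▸ h₃)).trans a
  | O ξ =>
    obtain ⟨h₁, c, h₂, h₃, h₄⟩ := W_O.1 h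
    exact W_O.2 ⟨h₁, c, h₂, h₃, hq.trans h₄⟩

theorem W.unique {κ : Ξ} {v v' : ℕ} (h : W κ v p) (h' : W κ v' p) (hp : Mem A p) : v = v' := by
  cases κ with
  | R ξ n =>
    by_contra hn
    refine hp.pos (sub0_empty.1 (((W_R.1 h).inter (W_R.1 h')).trans (.of_sub ?_)))
    exact fun x hx => hn (hx.1.symm.trans hx.2)
  | H τ β m =>
    obtain ⟨x, a, b⟩ := (W_H.1 h).2.2.2.meet (W_H.1 h').2.2.2 (hp.lo τ)
    exact a.symm.trans b
  | O ξ => exact (W_O.1 h).1.trans (W_O.1 h').1.symm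

theorem pt_eq {s : ℕ → Pre} (hs : Chain A s) {κ : Ξ} (hκ : κ.lev ∈ A) {v n : ℕ}
    (h : W κ v (s n)) : pt A s κ = v := by
  have : {v | ∃ n, W κ v (s n)} = {v} := by
    refine eq_singleton_iff_unique_mem.2 ⟨⟨n, h⟩, fun w ⟨m, hm⟩ => ?_⟩
    exact (hm.mono (hs.le (le_max_right n m))).unique (h.mono (hs.le (le_max_left _ _))) (hs.mem _)
  rw [pt_def, if_pos hκ, this, csInf_singleton]

theorem W.force {κ : Ξ} {v : ℕ} (h : W κ v p) (hκ : κ.lev ∈ A) : Force A p (cyl κ v) :=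
  force_def.2 ⟨∅, countable_empty, by simp, fun _ hs ⟨_, hn⟩ _ => pt_eq hs hκ (h.mono hn)⟩

theorem force_zero {κ : Ξ} (h : ∀ d, Mem A d → Le d p → ∀ v, ¬ W κ v d) : Force A p (cyl κ 0) := by
  refine force_def.2 ⟨∅, countable_empty, by simp, fun s hs ⟨n, hn⟩ _ => ?_⟩
  have : {v | ∃ n, W κ v (s n)} = ∅ := eq_empty_of_forall_notMem fun v ⟨m, hm⟩ =>
    h _ (hs.mem _) ((hs.le (le_max_left n m)).trans hn) v (hm.mono (hs.le (le_max_right _ _)))
  simp [cyl, pt_def, this]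

theorem decide_set (hS : MS A S) : ∀ p, Mem A p →
    ∃ d, Mem A d ∧ Le d p ∧ (Force A d S ∨ Force A d Sᶜ) := by
  induction S, hS using MeasurableSpace.generateFrom_induction with
  | hC S hS _ =>
    obtain ⟨κ, hκ, v, rfl⟩ := hS
    intro p hp
    obtain ⟨d, a, b, w, c⟩ : ∃ d, Mem A d ∧ Le d p ∧ ∃ w, Force A d (cyl κ w) := by
      by_cases h : ∀ d, Mem A d → Le d p → ∀ v, ¬ W κ v d
      · exact ⟨p, hp, .refl _, 0, force_zero h⟩
      · push Not at h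
        obtain ⟨d, a, b, w, c⟩ := h
        exact ⟨d, a, b, w, c.force hκ⟩
    refine ⟨d, a, b, ?_⟩
    by_cases e : w = v
    · exact Or.inl (e ▸ c)
    · exact Or.inr (c.mono_set fun x hx hx' => e (hx.symm.trans hx'))
  | empty => exact fun p hp => ⟨p, hp, .refl _, Or.inr (force_of_forall (by simp))⟩
  | compl S _ ih => simpa only [compl_compl, or_comm] using ih
  | iUnion f _ ih =>
    intro p hp
    by_cases h : ∃ d, Mem A d ∧ Le d p ∧ ∃ n, Force A d (f n)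
    · obtain ⟨d, a, b, n, c⟩ := h
      exact ⟨d, a, b, Or.inl (c.mono_set (subset_iUnion f n))⟩
    · refine ⟨p, hp, .refl _, Or.inr ((force_all (Q := fun n x => x ∉ f n) fun n => ?_).mono_set
        (by simp [subset_def]))⟩
      refine Force.reg fun d a b => ?_
      obtain ⟨d', a', b', c | c⟩ := ih n d a
      exacts [absurd ⟨d', a', b'.trans b, n, c⟩ h, ⟨d', a', b', c⟩]

theorem force_compl (hS : MS A S) (h : ∀ d, Mem A d → Le d p → ¬ Force A d S) : Force A p Sᶜ := by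
  refine Force.reg fun d a b => ?_
  obtain ⟨d', a', b', c | c⟩ := decide_set hS d a
  exacts [absurd c (h d' a' (b'.trans b)), ⟨d', a', b', c⟩]

theorem force_of_not (hS : MS A S) (h : ∀ d, Mem A d → Le d p → ¬ Force A d Sᶜ) : Force A p S :=
  compl_compl S ▸ force_compl hS.compl h

theorem decide_ex {ι : Type*} [Countable ι] {Q : ι → X → Prop} (hQ : ∀ i, MS A {x | Q i x})
    (h : Force A p {x | ∃ i, Q i x}) (hp : Mem A p) :
    ∃ d, Mem A d ∧ Le d p ∧ ∃ i, Force A d {x | Q i x} := by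
  by_contra hn
  obtain ⟨x, ⟨i, a⟩, b⟩ := h.meet (force_all (Q := fun i x => ¬ Q i x) fun i =>
    force_compl (hQ i) fun d a b c => hn ⟨d, a, b, i, c⟩) hp
  exact b i a

theorem decide_fun {Y : Type*} [Countable Y] [MeasurableSpace Y] [MeasurableSingletonClass Y]
    {f : X → Y} (hf : Measurable[gen (mK A)] f) (hp : Mem A p) :
    ∃ d, Mem A d ∧ Le d p ∧ ∃ v, Force A d {x | f x = v} :=
  decide_ex (fun v => hf (measurableSet_singleton v)) (force_of_forall fun _ => ⟨_, rfl⟩) hp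

theorem decide_fin {ι : Type*} {I : Set ι} (hI : I.Finite) {Φ : ι → Pre → Prop}
    (mono : ∀ i p q, Le q p → Φ i p → Φ i q)
    (h : ∀ i ∈ I, ∀ d, Mem A d → Le d p → ∃ d', Mem A d' ∧ Le d' d ∧ Φ i d') (hp : Mem A p) :
    ∃ d, Mem A d ∧ Le d p ∧ ∀ i ∈ I, Φ i d := by
  induction I, hI using Set.Finite.induction_on with
  | empty => exact ⟨p, hp, .refl _, by simp⟩
  | @insert j I _ _ ih =>
    obtain ⟨d, a, b, c⟩ := ih fun i hi => h i (mem_insert_of_mem _ hi)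
    obtain ⟨d', a', b', c'⟩ := h j (mem_insert _ _) d a b
    refine ⟨d', a', b'.trans b, ?_⟩
    rintro i (rfl | hi)
    exacts [c', mono _ _ _ b' (c i hi)]

/-! ### Merging and transfer -/

noncomputable def merge (d q : Pre) : Pre :=
  ⟨d.b ∩ q.b, d.T ∪ q.T, fun τ x => if τ ∈ d.T then
      mix d.T (d.L τ x) (adopt (q.L τ x) (d.L τ x).e ((d.L τ x).k τ)) else q.L τ x,
    d.hT.union q.hT, fun τ => LM.ite measurable_const
      ((d.hL τ).mix _ ((q.hL τ).adopt (d.hL τ).e ((d.hL τ).k τ))) (q.hL τ)⟩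

@[simp] theorem merge_b (d q : Pre) : (merge d q).b = d.b ∩ q.b := rfl

theorem merge_le_left (d q : Pre) : Le (merge d q) d := by
  refine le_of_pw (.of_sub inter_subset_left) subset_union_left fun τ hτ x β hβ => ?_
  simp only [merge, if_pos hτ, mix_g_mem _ _ hβ]
  exact .refl _

theorem merge_le_right (hd : d.T ⊆ A) (h : Le d (res A q)) : Le (merge d q) q := by
  refine le_def.2 ⟨.of_sub inter_subset_right, subset_union_right, fun τ hτ => ?_⟩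
  by_cases h₁ : τ ∈ d.T
  · refine ((h.L ⟨hτ, hd h₁⟩).mono ((merge_le_left d q).res (lo_lower τ))).mono_set
      fun x hx β hβ => ?_
    simp only [merge, if_pos h₁]
    by_cases h₂ : β ∈ d.T
    · rw [mix_g_mem _ _ h₂]
      exact hx β ⟨hβ, hd h₂⟩
    · rw [mix_g_not (l := d.L τ x) (l' := adopt _ _ _) h₂ rfl]
      exact ref_adopt (hx τ ⟨hτ, hd h₁⟩).ac β
  · refine force_of_forall fun x => ?_
    simp only [merge, if_neg h₁]
    exact Rel.refl _ _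

theorem mem_merge (hd : Mem A d) (hq : Mem B q) (hAB : A ⊆ B) (h : Le d (res A q)) :
    Mem B (merge d q) := by
  refine mem_of_le ((hd.fs.mono hAB).inter hq.fs) (inter_ne_zero hd.fs hd.pos h.b)
    (union_subset (hd.T.trans hAB) hq.T) fun τ hτ => ?_
  by_cases h₁ : τ ∈ d.T
  · exact ⟨d, A, hd, merge_le_left d q, h₁, fun x => by simp [merge, h₁, mix]⟩
  · exact ⟨q, B, hq, merge_le_right hd.T h, hτ.resolve_left h₁, fun x => by simp [merge, h₁]⟩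

theorem exists_merge (hd : Mem A d) (hq : Mem B q) (hAB : A ⊆ B) (h : Le d (res A q)) :
    ∃ r, Mem B r ∧ Le r d ∧ Le r q :=
  ⟨_, mem_merge hd hq hAB h, merge_le_left d q, merge_le_right hd.T h⟩

theorem fs_cyl {ξ : Θ} (h : ξ ∈ A) (n v : ℕ) : FS A (cyl (.R ξ n) v) :=
  gen_cyl (K := fK A) ⟨ξ, h, n, rfl⟩ v

theorem W_res (hA : IsLowerSet A) {κ : Ξ} (hκ : κ.lev ∈ A) {v : ℕ} : W κ v (res A p) ↔ W κ v p := by
  refine ⟨fun h => h.mono (le_res A p), fun h => ?_⟩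
  cases κ with
  | R ξ n => exact W_R.2 ((proj_sub (fs_cyl hκ n v)).2 (W_R.1 h))
  | H τ β m =>
    obtain ⟨h₁, h₂, h₃, h₄⟩ := W_H.1 h
    have h₅ : τ ∈ A := hA (le_max_left τ β) hκ
    refine W_H.2 ⟨⟨h₁, h₅⟩, ⟨h₂, hA (le_max_right τ β) hκ⟩, h₃, ?_⟩
    rw [res_res (lo_sub hA h₅)]
    exact h₄
  | O ξ =>
    obtain ⟨h₁, c, h₂, h₃, h₄⟩ := W_O.1 h
    exact W_O.2 ⟨h₁, c, h₂, h₃, h₄.res_le hA (h₃.mono fun x hx => hA hx.le hκ)⟩

theorem Force.up (h : Force A (res A p) S) (hA : IsLowerSet A) (hAB : A ⊆ B) (hS : MS A S) :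
    Force B p S := by
  obtain ⟨𝒟, h₁, h₂, h₃⟩ := force_def.1 h
  refine force_def.2 ⟨(fun D => {q | ∃ d ∈ D, Le (res A q) d}) '' 𝒟, h₁.image _, ?_,
    fun s hs ⟨n, hn⟩ H => ?_⟩
  · rintro _ ⟨D, hD, rfl⟩
    refine dense_def.2 fun q hq => ?_
    obtain ⟨q', a, b, d, c, e⟩ := dense_def.1 (h₂ D hD) _ (hq.res hA)
    obtain ⟨r, f, g, k⟩ := exists_merge a hq hAB b
    exact ⟨r, f, k, r, ⟨d, c, (g.res_le hA a).trans e⟩, .refl _⟩
  · refine (gen_inv hS fun κ hκ => ?_).1 (h₃ (fun n => res A (s n))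
      (chain_def.2 ⟨fun n => (hs.mem n).res hA, fun n m h => (hs.le h).res hA⟩) ⟨n, hn.res hA⟩
      fun D hD => ?_)
    · simp only [pt_def, if_pos (show κ.lev ∈ A from hκ), if_pos (hAB hκ), W_res hA hκ]
    · obtain ⟨n, q, ⟨d, a, b⟩, c⟩ := H _ ⟨D, hD, rfl⟩
      exact ⟨n, d, a, (c.res hA).trans b⟩

theorem Force.up' (h : Force A p S) (hA : IsLowerSet A) (hAB : A ⊆ B) (hS : MS A S)
    (hp : Mem A p) : Force B p S :=
  (h.mono ((Le.refl p).res_le hA hp)).up hA hAB hS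

theorem Force.down (h : Force B p S) (hA : IsLowerSet A) (hAB : A ⊆ B) (hS : MS A S)
    (hp : Mem B p) : Force A (res A p) S := by
  refine force_of_not hS fun d a b c => ?_
  obtain ⟨r, f, g, k⟩ := exists_merge a hp hAB b
  obtain ⟨x, h₁, h₂⟩ := (h.mono k).meet ((c.up' hA hAB hS.compl a).mono g) f
  exact h₂ h₁

/-! ### The random part -/

theorem exists_cyl {ξ : Θ} (hξ : ξ ∈ A) (n : ℕ) (hp : Mem A p) :
    ∃ w < bb n, ∃ d, Mem A d ∧ Le d p ∧ Sub0 d.b (cyl (.R ξ n) w) := by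
  obtain ⟨w, h₁, h₂⟩ := exists_piece (s := Iio (bb n)) (f := cyl (.R ξ n)) (to_countable _) hp.pos
    (by
      filter_upwards [ae_lt_wd (.R ξ n)] with x hx _
      exact mem_iUnion₂.2 ⟨_, hx, rfl⟩)
  exact ⟨w, h₁, _, hp.shrink (fs_cyl hξ n w) h₂, shrink_le _ _, shrink_sub _ _⟩

theorem force_b_aux {b : Set X} (hb : FS A b) :
    ∀ p, (Sub0 p.b b → Force A p b) ∧ (Sub0 p.b bᶜ → Force A p bᶜ) := by
  induction b, hb using MeasurableSpace.generateFrom_induction with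
  | hC S hS _ =>
    obtain ⟨κ, ⟨ξ, hξ, n, rfl⟩, v, rfl⟩ := hS
    refine fun p => ⟨fun h => (W_R.2 h).force hξ, fun h => Force.reg fun d a b => ?_⟩
    obtain ⟨w, -, d', a', b', c⟩ := exists_cyl hξ n a
    refine ⟨d', a', b', ((W_R.2 c).force hξ).mono_set fun x hx hx' => ?_⟩
    obtain rfl : w = v := hx.symm.trans hx'
    exact a'.pos (sub0_empty.1 ((c.inter ((b'.trans b).b.trans h)).trans (.of_sub (by simp))))
  | empty =>
    exact fun p => ⟨fun h => Force.reg fun d a b => absurd (sub0_empty.1 (b.b.trans h)) a.pos,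
      fun _ => force_of_forall (by simp)⟩
  | compl S _ ih => simpa only [compl_compl, and_comm] using ih
  | iUnion f hf ih =>
    refine fun p => ⟨fun h => Force.reg fun d a b => ?_, fun h => ?_⟩
    · obtain ⟨n, -, h₁⟩ := exists_piece (s := univ) (f := f) countable_univ a.pos
        (by simpa using b.b.trans h)
      exact ⟨_, a.shrink (hf n) h₁, shrink_le _ _,
        ((ih n _).1 (shrink_sub _ _)).mono_set (subset_iUnion f n)⟩
    · refine (force_all (Q := fun n x => x ∉ f n) fun n => (ih n p).2 ?_).mono_set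
        (by simp [subset_def])
      exact h.trans (.of_sub (compl_subset_compl.2 (subset_iUnion f n)))

theorem force_b {b : Set X} (hb : FS A b) (h : Sub0 p.b b) : Force A p b := (force_b_aux hb p).1 h

theorem Force.sub {b : Set X} (h : Force A p b) (hb : FS A b) (hp : Mem A p) : Sub0 p.b b := by
  by_contra hn
  rw [sub0_iff] at hn
  obtain ⟨x, h₁, h₂⟩ := (h.mono (shrink_le p bᶜ)).meet (force_b hb.compl (shrink_sub _ _))
    (hp.shrink hb.compl hn)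
  exact h₂ h₁

end Pool.Agent.MP_9c82b4_lc
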