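import Pool.Agent.MP_9c82b4_lc.Fuse

namespace Pool.Agent.MP_9c82b4_lc

open Set Classical MeasureTheory Filter
open scoped ENNReal

variable {A : Set Θ} {D : Set Pre} {p q d : Pre}

def Opt (A : Set Θ) (D : Set Pre) (ε : ℝ≥0∞) (q : Pre) (a : Set X) : Prop :=
  FS A a ∧ Cov A D q a ∧ ∀ t, Mem A t → Le t q → Cov A D t t.b → pr (t.b \ a) ≤ ε

theorem exists_opt (hA : IsLowerSet A) (hq : Mem A q) (hD : DB A D q) {ε : ℝ≥0∞} (hε : ε ≠ 0) :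
    ∃ q', Mem A q' ∧ Le q' q ∧ q'.b = q.b ∧ ∃ t, Mem A t ∧ Le t q ∧ Cov A D t t.b ∧
      Opt A D ε q' t.b := by
  obtain ⟨t, ⟨a, b, c⟩, e⟩ : ∃ t, (Mem A t ∧ Le t q ∧ Cov A D t t.b) ∧
      ∀ t', Mem A t' → Le t' q → Cov A D t' t'.b → pr t'.b ≤ pr t.b + ε := by
    by_contra hn
    push Not at hn
    have : ∀ k : ℕ, ∃ t, (Mem A t ∧ Le t q ∧ Cov A D t t.b) ∧ k * ε ≤ pr t.b := by
      intro k
      induction k with
      | zero =>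
        obtain ⟨d, a, b, c⟩ := hD q hq (.refl _)
        exact ⟨d, ⟨a, b, cov_of_le c (.refl _) _⟩, by simp⟩
      | succ k ih =>
        obtain ⟨t, a, b⟩ := ih
        obtain ⟨t', a', b', c', e⟩ := hn t a
        refine ⟨t', ⟨a', b', c'⟩, le_trans ?_ e.le⟩
        rw [Nat.cast_succ, add_mul, one_mul]
        gcongr
    obtain ⟨k, hk⟩ := ENNReal.exists_nat_mul_gt hε ENNReal.one_ne_top
    obtain ⟨t, -, h⟩ := this k
    exact (hk.trans_le h).not_ge prob_le_one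
  obtain ⟨q', a', b', c', e'⟩ := exists_lift hA hq a b
  have h₁ := c.lift a.fs e'
  refine ⟨q', a', b', c', t, a, b, c, a.fs, h₁, fun t' a₁ b₁ c₁ => ?_⟩
  obtain ⟨q'', a'', b'', c'', e''⟩ := exists_lift hA a' a₁ b₁
  have h₂ : Sub0 (t.b ∪ t'.b) (q''.b ∩ (t.b ∪ t'.b)) := by
    rw [c'']
    filter_upwards [b.b, b₁.b] with x f g h using ⟨h.elim (c' ▸ f) g, h⟩
  have h₃ := e (shrink q'' (t.b ∪ t'.b))
    (a''.shrink (a.fs.union a₁.fs) (((Sub0.of_sub subset_union_left).trans h₂).ne_zero a.pos))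
    ((shrink_le _ _).trans (b''.trans b'))
    (((h₁.mono b'' (.refl _)).union (c₁.lift a₁.fs e'')).mono (shrink_le _ _) (shrink_sub _ _))
  replace h₃ := h₂.le.trans h₃
  rw [← measure_add_sdiff a.fs.meas.nullMeasurableSet] at h₃
  exact (ENNReal.add_le_add_iff_left (measure_ne_top _ _)).1 h₃

theorem exists_eps {η : ℝ≥0∞} (h : η ≠ 0) :
    ∃ ε : ℕ → ℝ≥0∞, (∀ i, ε i ≠ 0) ∧ ∑' i, KK i * ε i < η := by
  obtain ⟨ε, h₁, h₂⟩ := ENNReal.exists_pos_sum_of_countable' h ℕ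
  refine ⟨fun i => ε i / KK i, fun i => by simp [(h₁ i).ne'], lt_of_le_of_lt ?_ h₂⟩
  exact ENNReal.tsum_le_tsum fun i => ENNReal.mul_div_le

theorem L1_step (hA : IsLowerSet A) (hL : ∀ τ ∈ A, L1 (lo τ)) : L1 A := by
  intro D p hp hD δ hδ
  by_contra hn
  push Not at hn
  obtain ⟨ε, hε, hs⟩ := exists_eps hδ
  obtain ⟨p', a₀, b₀, c₀, t₀, a₁, b₁, c₁, e₁⟩ := exists_opt hA hp hD (hε 0)
  have h₀ : δ < pr (p.b \ t₀.b) := lt_of_not_ge fun h => hn t₀ a₁ b₁ h c₁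
  obtain ⟨r, a, b, c, B, hB₁, hB₂, hB₃, hB₄⟩ := fuse hA hL a₀
    (fun i q => ∃ a, Opt A D (ε (i + 1)) q a)
    (fun i q q' _ h ⟨a, h₁, h₂, h₃⟩ => ⟨a, h₁, h₂.mono h (.refl _),
      fun t h₄ h₅ => h₃ t h₄ (h₅.trans h)⟩) (fun _ => 0) (fun i q h₁ h₂ => by
      obtain ⟨q', h₃, h₄, h₅, t, -, -, -, h₆⟩ := exists_opt hA h₁
        (fun d e f => hD d e (f.trans (h₂.trans b₀))) (hε (i + 1))
      exact ⟨q', h₃, h₄, by simp [h₅], _, h₆⟩) (by simpa using pos_iff_ne_zero.2 a₀.pos)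
  let B' : ℕ → Finset Pre := fun i => Nat.casesOn i {p'} B
  have h₁ : ∀ i, ∀ q ∈ B' i, ∃ a, Opt A D (ε i) q a ∧ (i = 0 → a = t₀.b) := by
    rintro (_ | i) q hq
    · obtain rfl := Finset.mem_singleton.1 hq
      exact ⟨_, e₁, fun _ => rfl⟩
    · obtain ⟨a, h⟩ := (hB₂ i q hq).2.2.1
      exact ⟨a, h, by simp⟩
  choose! s hs₁ hs₂ using h₁
  let W : ℕ → Set X := fun i => ⋃ q ∈ B' i, s i q
  have hW : FS A (⋃ i, W i) := MeasurableSet.iUnion fun i =>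
    Finset.measurableSet_biUnion _ fun q hq => (hs₁ i q hq).1
  have h₂ : ∀ i, pr ((r.b ∩ W (i + 1)) \ W i) ≤ KK i * ε i := by
    intro i
    have h₃ : ∀ q ∈ B i, pr ((r.b ∩ s (i + 1) q) \ W i) ≤ ε i := by
      intro q hq
      obtain ⟨q', h₄, h₅⟩ : ∃ q' ∈ B' i, Le q q' := by
        rcases i with _ | i
        exacts [⟨p', Finset.mem_singleton_self _, (hB₂ 0 q hq).2.1⟩, hB₃ i q hq]
      by_cases h₆ : pr (q.b ∩ s (i + 1) q) = 0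
      · refine (measure_mono_null ?_ h₆).trans_le zero_le
        exact fun x hx => ⟨(hB₂ i q hq).2.2.2 hx.1.1, hx.1.2⟩
      · refine le_trans (measure_mono ?_) ((hs₁ i q' h₄).2.2 (shrink q (s (i + 1) q))
          ((hB₂ i q hq).1.shrink (hs₁ (i + 1) q hq).1 h₆) ((shrink_le _ _).trans h₅)
          ((hs₁ (i + 1) q hq).2.1.mono (shrink_le _ _) (shrink_sub _ _)))
        exact fun x hx => ⟨⟨(hB₂ i q hq).2.2.2 hx.1.1, hx.1.2⟩,
          fun h => hx.2 (mem_biUnion h₄ h)⟩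
    calc pr ((r.b ∩ W (i + 1)) \ W i) ≤ pr (⋃ q ∈ B i, (r.b ∩ s (i + 1) q) \ W i) := by
          refine measure_mono fun x ⟨⟨h₄, h₅⟩, h₆⟩ => ?_
          obtain ⟨q, h₇, h₈⟩ := mem_iUnion₂.1 h₅
          exact mem_iUnion₂.2 ⟨q, h₇, ⟨h₄, h₈⟩, h₆⟩
      _ ≤ ∑ q ∈ B i, ε i := (measure_biUnion_finset_le _ _).trans (Finset.sum_le_sum h₃)
      _ ≤ KK i * ε i := by
          rw [Finset.sum_const, nsmul_eq_mul]
          gcongr
          exact hB₁ i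
  have h₃ : pr (r.b ∩ (⋃ i, W i)ᶜ) ≠ 0 := by
    intro e
    refine (hs.trans h₀).not_ge (le_trans (Sub0.le (b := ⋃ i, (r.b ∩ W (i + 1)) \ W i) ?_)
      ((measure_iUnion_le _).trans (ENNReal.tsum_le_tsum h₂)))
    rw [← sub0_compl, compl_compl] at e
    have h₄ : Sub0 p.b r.b := sub0_iff.2 (by simpa [c₀] using c)
    filter_upwards [e, h₄] with x f g hx
    by_contra h₅
    obtain ⟨i, hi⟩ := mem_iUnion.1 (f (g hx.1))
    induction i with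
    | zero =>
      obtain ⟨q, h₆, h₇⟩ := mem_iUnion₂.1 hi
      exact hx.2 (hs₂ 0 q h₆ rfl ▸ h₇)
    | succ i ih =>
      by_cases h₆ : x ∈ W i
      exacts [ih h₆, h₅ (mem_iUnion.2 ⟨i, ⟨g hx.1, hi⟩, h₆⟩)]
  obtain ⟨d, a₂, b₂, c₂⟩ := hD _ (a.shrink hW.compl h₃) ((shrink_le _ _).trans (b.trans b₀))
  have h₄ : ∀ i, pr d.b ≤ KK (i + 1) * ε (i + 1) := by
    intro i
    obtain ⟨q, h₅, d', h₆, h₇, h₈, h₉⟩ := hB₄ d a₂ (b₂.trans (shrink_le _ _)) i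
    refine h₉.trans (mul_le_mul' (Nat.cast_le.2 (KK_mono (Nat.le_succ i))) (le_trans (Sub0.le ?_)
      ((hs₁ (i + 1) q h₅).2.2 d' h₆ h₈ (cov_of_le c₂ h₇ _))))
    filter_upwards [(h₇.trans b₂).b] with x f hx
    exact ⟨hx, fun h => (f hx).2 (mem_iUnion.2 ⟨i + 1, mem_biUnion h₅ h⟩)⟩
  have h₅ := (ENNReal.tendsto_atTop_zero_of_tsum_ne_top hs.ne_top).comp (tendsto_add_atTop_nat 1)
  exact a₂.pos (le_antisymm (ge_of_tendsto' h₅ h₄) zero_le)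

theorem L1_Iio (ν : Θ) : L1 (Iio ν) := by
  induction ν using WellFoundedLT.induction with
  | ind ν ih => exact L1_step (isLowerSet_Iio ν) fun τ hτ => ih _ ((mu_le τ).trans_lt hτ)

theorem fuse_cov (hA : IsLowerSet A) (hp : Mem A p) (D : ℕ → Set Pre) (hD : ∀ i, DB A (D i) p)
    {η : ℝ≥0∞} (hη : η ≠ 0) :
    ∃ r, Mem A r ∧ Le r p ∧ pr (p.b \ r.b) < η ∧ ∃ B : ℕ → Finset Pre,
      (∀ i, (B i).card ≤ KK i) ∧ (∀ i, ∀ q ∈ B i, Cov A (D i) q q.b) ∧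
      ∀ d, Mem A d → Le d r → ∀ i, ∃ q ∈ B i, ∃ d', Mem A d' ∧ Le d' d ∧ Le d' q := by
  obtain ⟨δ, h₁, h₂⟩ := exists_eps (η := min η (pr p.b)) (by simp [hη, hp.pos])
  obtain ⟨r, a, b, c, B, hB₁, hB₂, -, hB₄⟩ := fuse hA (fun τ _ => L1_Iio _) hp
    (fun i q => Cov A (D i) q q.b) (fun i q q' _ h c => c.mono h h.b) δ
    (fun i q a b => L1_step hA (fun τ _ => L1_Iio _) _ q a
      (fun d e f => hD i d e (f.trans b)) _ (h₁ i)) (h₂.trans_le (min_le_right _ _))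
  refine ⟨r, a, b, c.trans_lt (h₂.trans_le (min_le_left _ _)), B, hB₁,
    fun i q hq => (hB₂ i q hq).2.2.1, fun d e f i => ?_⟩
  obtain ⟨q, h₃, d', h₄, h₅, h₆, -⟩ := hB₄ d e f i
  exact ⟨q, h₃, d', h₄, h₅, h₆⟩

/-- The forcing is proper and bounding. -/
theorem bounding (hA : IsLowerSet A) (hp : Mem A p) (D : ℕ → Set Pre) (hD : ∀ i, DB A (D i) p) :
    ∃ r, Mem A r ∧ Le r p ∧ ∀ i, ∃ V ⊆ D i, V.Finite ∧
      ∀ d, Mem A d → Le d r → ∃ d', Mem A d' ∧ Le d' d ∧ ∃ c ∈ V, Le d' c := by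
  obtain ⟨r, a, b, -, B, -, h₁, h₂⟩ := fuse_cov hA hp D hD one_ne_zero
  refine ⟨r, a, b, fun i => ?_⟩
  choose! l h₃ h₄ using h₁ i
  refine ⟨⋃ q ∈ B i, Prod.snd '' {z | z ∈ l q}, ?_,
    (B i).finite_toSet.biUnion fun q _ => (List.finite_toSet _).image _, fun d e f => ?_⟩
  · simp only [iUnion_subset_iff]
    rintro q hq _ ⟨z, hz, rfl⟩
    exact (h₃ q hq z hz).2.1
  · obtain ⟨q, hq, d', h₅, h₆, h₇⟩ := h₂ d e f i
    obtain ⟨z, hz, -, h₈⟩ := exists_piece_list (Q := fun _ => True) (l := l q) h₅.pos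
      (by simpa using h₇.b.trans (h₄ q hq))
    have h₉ := h₅.shrink (h₃ q hq z hz).1 h₈
    exact ⟨_, h₉, (shrink_le _ _).trans h₆, z.2, mem_biUnion hq ⟨z, hz, rfl⟩,
      (h₃ q hq z hz).2.2 _ h₉ ((shrink_le _ _).trans h₇) (shrink_sub _ _)⟩

/-! ### Avoiding slaloms -/

def Bad (κ : Ξ) (val : Pre → Finset ℕ) : List (Set X × Pre) → Set X
  | [] => ∅
  | z :: l => (z.1 ∩ {x | x κ ∈ (val z.2 : Set ℕ)}) ∪ (z.1ᶜ ∩ Bad κ val l)

theorem fs_bad {ζ : Θ} (hζ : ζ ∈ A) (n : ℕ) (val : Pre → Finset ℕ) {l : List (Set X × Pre)}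
    (h : ∀ z ∈ l, FS A z.1) : FS A (Bad (.R ζ n) val l) := by
  induction l with
  | nil => exact @MeasurableSet.empty _ (gen _)
  | cons z l ih =>
    have h₁ := h z List.mem_cons_self
    exact (h₁.inter (gen_eval (K := fK A) ⟨ζ, hζ, n, rfl⟩ MeasurableSet.of_discrete)).union
      (h₁.compl.inter (ih fun z hz => h z (List.mem_cons_of_mem _ hz)))

theorem bad_le {ζ : Θ} (n : ℕ) {val : Pre → Finset ℕ} {H : ℕ} {l : List (Set X × Pre)}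
    (h : ∀ z ∈ l, FS (Iio ζ) z.1 ∧ (val z.2).card ≤ H) :
    ∀ E, FS (Iio ζ) E → pr (E ∩ Bad (.R ζ n) val l) ≤ pr E * (H / bb n) := by
  induction l with
  | nil => simp [Bad]
  | cons z l ih =>
    intro E hE
    obtain ⟨h₁, h₂⟩ := h z List.mem_cons_self
    have h₃ := ih (fun z hz => h z (List.mem_cons_of_mem _ hz)) _ (hE.inter h₁.compl)
    have h₄ : pr (E ∩ z.1 ∩ {x | x (.R ζ n) ∈ (val z.2 : Set ℕ)}) ≤ pr (E ∩ z.1) * (H / bb n) := by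
      rw [pr_indep (K := fK (Iio ζ)) (by simp [fK]) (hE.inter h₁)]
      gcongr
      refine (nu_le _ _).trans ?_
      gcongr
      exact le_rfl
    rw [Bad, inter_union_distrib_left, ← inter_assoc, ← inter_assoc,
      ← measure_inter_add_sdiff E h₁.meas, add_mul]
    exact (measure_union_le _ _).trans (add_le_add h₄ h₃)

theorem not_bad {κ : Ξ} {val : Pre → Finset ℕ} {l : List (Set X × Pre)} {x : X}
    (h₁ : ∃ z ∈ l, x ∈ z.1) (h₂ : x ∉ Bad κ val l) : ∃ z ∈ l, x κ ∉ val z.2 ∧ x ∈ z.1 := by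
  induction l with
  | nil => simp at h₁
  | cons z l ih =>
    by_cases h : x ∈ z.1
    · exact ⟨z, List.mem_cons_self, fun h' => h₂ (Or.inl ⟨h, h'⟩), h⟩
    · obtain ⟨z', a, b⟩ := ih (by simpa [h] using h₁) fun h' => h₂ (Or.inr ⟨h, h'⟩)
      exact ⟨z', List.mem_cons_of_mem _ a, b⟩

theorem avoid (hA : IsLowerSet A) {ζ : Θ} (hζ : ζ ∈ A) (hd : Mem A d)
    (E : ℕ → Finset ℕ → Pre → Prop)
    (hE : ∀ n q, Mem (Iio ζ) q → Le q (res (Iio ζ) d) →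
      ∃ c, Mem (Iio ζ) c ∧ Le c q ∧ ∃ v, v.card ≤ (n + 1) ^ 2 ∧ E n v c) :
    ∃ r, Mem A r ∧ Le r d ∧ ∃ n₁, ∀ n, n₁ ≤ n → ∀ d', Mem univ d' → Le d' r →
      ∃ d'', Mem univ d'' ∧ Le d'' d' ∧ ∃ w < bb n, Sub0 d''.b (cyl (.R ζ n) w) ∧
        ∃ v c, E n v c ∧ Le d'' c ∧ w ∉ v := by
  have hI := isLowerSet_Iio ζ
  have hsub : Iio ζ ⊆ A := fun x hx => hA hx.le hζ
  obtain ⟨r, a, b, c, B, h₁, h₂, h₃⟩ := fuse_cov hI (hd.res hI)
    (fun n => {c | ∃ v : Finset ℕ, v.card ≤ (n + 1) ^ 2 ∧ E n v c}) hE (pos_iff_ne_zero.2 hd.pos).ne'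
  choose! l h₄ h₅ using h₂
  have h₆ : ∀ n c, ∃ v : Finset ℕ, (∃ v : Finset ℕ, v.card ≤ (n + 1) ^ 2 ∧ E n v c) →
      v.card ≤ (n + 1) ^ 2 ∧ E n v c := fun n c => by
    by_cases h : ∃ v : Finset ℕ, v.card ≤ (n + 1) ^ 2 ∧ E n v c
    exacts [⟨h.choose, fun _ => h.choose_spec⟩, ⟨∅, fun h' => absurd h' h⟩]
  choose val hval using h₆
  let Z : ℕ → Set X := fun n => ⋃ q ∈ B n, Bad (.R ζ n) (val n) (l n q)
  have hZ : ∀ n, pr (Z n) ≤ 2⁻¹ ^ n := by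
    intro n
    have h₇ : ∀ q ∈ B n, pr (Bad (.R ζ n) (val n) (l n q)) ≤ ((n + 1) ^ 2 : ℕ) / bb n := by
      intro q hq
      simpa using bad_le n (fun z hz => ⟨(h₄ n q hq z hz).1, (hval n _ (h₄ n q hq z hz).2.1).1⟩)
        univ (FS.univ _)
    refine (measure_biUnion_finset_le _ _).trans ((Finset.sum_le_sum h₇).trans ?_)
    rw [Finset.sum_const, nsmul_eq_mul, ← mul_div_assoc]
    refine ENNReal.div_le_of_le_mul ?_
    calc ((B n).card : ℝ≥0∞) * ((n + 1) ^ 2 : ℕ) ≤ KK n * ((n + 1) ^ 2 : ℕ) := by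
          gcongr; exact h₁ n
      _ = KK n * ((n + 1) ^ 2 : ℕ) * (2⁻¹ * 2) ^ n := by
          rw [ENNReal.inv_mul_cancel (by simp) (by simp), one_pow, mul_one]
      _ = 2⁻¹ ^ n * bb n := by
          simp only [bb, Nat.cast_mul, Nat.cast_pow, Nat.cast_ofNat, mul_pow]
          ring
  have hm := mem_merge a hd hsub b
  obtain ⟨n₁, hn⟩ := ((ENNReal.tendsto_sum_nat_add (fun n => (2⁻¹ : ℝ≥0∞) ^ n)
    (by simp [ENNReal.tsum_geometric])).eventually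
      (gt_mem_nhds (pos_iff_ne_zero.2 hm.pos))).exists
  have hfs : FS A (⋃ k, Z (k + n₁)) := MeasurableSet.iUnion fun k =>
    Finset.measurableSet_biUnion _ fun q hq => fs_bad hζ _ _ fun z hz => (h₄ _ q hq z hz).1.mono hsub
  refine ⟨shrink (merge r d) (⋃ k, Z (k + n₁))ᶜ, hm.shrink hfs.compl fun e => ?_,
    (shrink_le _ _).trans (merge_le_right a.T b), n₁, fun n h₇ d' a₁ b₁ => ?_⟩
  · rw [← sub0_compl, compl_compl] at e
    exact hn.not_ge (e.le.trans ((measure_iUnion_le _).trans (ENNReal.tsum_le_tsum fun k => hZ _)))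
  · obtain ⟨q, hq, d₁, a₂, b₂, c₂⟩ := h₃ _ (a₁.res hI)
      ((b₁.trans ((shrink_le _ _).trans (merge_le_left _ _))).res_le hI a) n
    obtain ⟨d₂, a₃, b₃, c₃⟩ := exists_merge a₂ a₁ (subset_univ _) b₂
    obtain ⟨w, hw, d₃, a₄, b₄, c₄⟩ := exists_cyl (mem_univ ζ) n a₃
    obtain ⟨z, hz, k₁, k₂⟩ := exists_piece_list (Q := fun z => w ∉ val n z.2) (l := l n q) a₄.pos (by
      filter_upwards [c₄, (b₄.trans (b₃.trans c₂)).b.trans (h₅ n q hq),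
        (b₄.trans (c₃.trans b₁)).b] with x f₁ f₂ f₃ hx
      rw [← show x (.R ζ n) = w from f₁ hx]
      refine not_bad (f₂ hx) fun h => (f₃ hx).2 (mem_iUnion.2 ⟨n - n₁, ?_⟩)
      rw [Nat.sub_add_cancel h₇]
      exact mem_biUnion hq h)
    obtain ⟨k₃, k₄, k₅⟩ := h₄ n q hq z hz
    have k₆ := a₄.shrink (k₃.mono (subset_univ _)) k₂
    refine ⟨_, k₆, (shrink_le _ _).trans (b₄.trans c₃), w, hw, (shrink_le _ _).b.trans c₄,
      val n z.2, z.2, (hval n _ k₄).2, (le_res (Iio ζ) _).trans (k₅ _ (k₆.res hI)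
        ((((shrink_le _ _).trans (b₄.trans b₃)).res_le hI a₂).trans c₂)
        ((proj_sub k₃).2 (shrink_sub _ _))), k₁⟩

end Pool.Agent.MP_9c82b4_lc
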