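import Pool.Agent.MP_c6cf52_lc.Defs

namespace Pool.Agent.MP_9c82b4_lc

open Pool.Agent.MP_c6cf52_lc

universe u

variable {M : Type u} (E : M → M → Prop)

/-- `a ⊆ b`. -/
def Sub (a b : M) : Prop := ∀ x, E x a → E x b

/-- `a` contains the empty set and is closed under successor. -/
def IsInd (a : M) : Prop :=
  (∃ e, E e a ∧ ∀ y, ¬ E y e) ∧ ∀ x, E x a → ∃ s, E s a ∧ ∀ y, E y s ↔ E y x ∨ y = x

/-- `w` is the least inductive set. -/
def IsOmega (w : M) : Prop := IsInd E w ∧ ∀ a, IsInd E a → Sub E w a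

/-- `a` injects into a natural number. -/
def IsFin (w a : M) : Prop := ∃ n f, E n w ∧ IsInj E f a n

/-- `p` is a nonprincipal ultrafilter on `w`. -/
def IsUltra (w p : M) : Prop :=
  (∀ a, E a p → Sub E a w ∧ ∃ n, E n a) ∧
  (∀ a b, E a p → Sub E a b → Sub E b w → E b p) ∧
  (∀ a b c, E a p → E b p → (∀ n, E n c ↔ E n a ∧ E n b) → E c p) ∧
  (∀ a b, Sub E a w → (∀ n, E n b ↔ E n w ∧ ¬ E n a) → E a p ∨ E b p) ∧
  ∀ n, E n w → ∃ a, E a p ∧ ¬ E n a

/-- `p` is Tukey top: there is a family of members of `p` indexed by the power set of `w` such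
that the intersection of any infinite subfamily is not in `p`. -/
def IsTop (w p : M) : Prop :=
  ∃ W a, (∀ x, E x W ↔ Sub E x w) ∧ IsFun E a W p ∧
    ∀ I, Sub E I W → ¬ IsFin E w I →
      ∀ y, (∀ n, E n y ↔ E n w ∧ ∀ x b, E x I → App E a x b → E n b) → ¬ E y p

/-- `(Q, r)` is a nonempty countable dense linear order without endpoints. -/
def IsRat (w Q r : M) : Prop :=
  (∃ h, IsInj E h Q w) ∧ (∃ s, E s Q) ∧ (∀ s, E s Q → ¬ App E r s s) ∧
  (∀ s t u, E s Q → E t Q → E u Q → App E r s t → App E r t u → App E r s u) ∧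
  (∀ s t, E s Q → E t Q → App E r s t ∨ s = t ∨ App E r t s) ∧
  (∀ s t, E s Q → E t Q → App E r s t → ∃ u, E u Q ∧ App E r s u ∧ App E r u t) ∧
  ∀ s, E s Q → (∃ t, E t Q ∧ App E r s t) ∧ ∃ t, E t Q ∧ App E r t s

/-- The image of `A` under `f` is nowhere dense in `(Q, r)`. -/
def NwdIm (Q r f A : M) : Prop :=
  ∀ s t, E s Q → E t Q → App E r s t → ∃ s' t', E s' Q ∧ E t' Q ∧
    App E r s s' ∧ App E r s' t' ∧ App E r t' t ∧
      ∀ n y, E n A → App E f n y → ¬ (App E r s' y ∧ App E r y t')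

/-- Every function from `w` to the rationals has nowhere dense image on a member of `p`. -/
def IsNwd (w p : M) : Prop :=
  ∀ Q r, IsRat E w Q r → ∀ f, IsFun E f w Q → ∃ A, E A p ∧ NwdIm E Q r f A

end Pool.Agent.MP_9c82b4_lc
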