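import Pool.Agent.MP_9c82b4_lc.Read

namespace Pool.Agent.MP_9c82b4_lc

open Set Classical MeasureTheory

noncomputable def resP (ν : Θ) (p : P) : P :=
  ⟨res (Iio ν) p.1, (p.2.res (isLowerSet_Iio ν)).mono (subset_univ _)⟩

def In (ν : Θ) (p : P) : Prop := Mem (Iio ν) p.1

variable {ν ζ : Θ} {p q c d : P}

theorem in_resP (ν : Θ) (p : P) : In ν (resP ν p) := p.2.res (isLowerSet_Iio ν)

theorem le_resP (ν : Θ) (p : P) : p ≤ resP ν p := le_res _ _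

theorem In.resP_le (h : In ν c) (hp : p ≤ c) : resP ν p ≤ c := Le.res_le hp (isLowerSet_Iio ν) h

theorem In.merge (h : In ν d) (hq : d ≤ resP ν q) : ∃ r ≤ d, r ≤ q :=
  let ⟨r, a, b, c⟩ := exists_merge h q.2 (subset_univ _) hq
  ⟨⟨r, a⟩, b, c⟩

theorem Frc.resP {S : Set X} (h : Frc p S) (hS : MS (Iio ν) S) : Frc (resP ν p) S :=
  (Force.down h (isLowerSet_Iio ν) (subset_univ _) hS p.2).up' (isLowerSet_Iio ν) (subset_univ _)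
    hS (in_resP ν p)

theorem fin_dense {Q : Type*} [Preorder Q] {ι : Type*} {I : Set ι} (hI : I.Finite)
    {Φ : ι → Q → Prop} (mono : ∀ i p q, q ≤ p → Φ i p → Φ i q) {p : Q}
    (h : ∀ i ∈ I, ∀ d ≤ p, ∃ d' ≤ d, Φ i d') : ∃ d ≤ p, ∀ i ∈ I, Φ i d := by
  induction I, hI using Set.Finite.induction_on with
  | empty => exact ⟨p, le_rfl, by simp⟩
  | @insert j I _ _ ih =>
    obtain ⟨d, b, c⟩ := ih fun i hi => h i (mem_insert_of_mem _ hi)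
    obtain ⟨d', b', c'⟩ := h j (mem_insert _ _) d b
    refine ⟨d', b'.trans b, ?_⟩
    rintro i (rfl | hi)
    exacts [c', mono _ _ _ b' (c i hi)]

theorem Frc.decide_fun {f : X → ℕ} (hf : Measurable[gen (mK univ)] f) (p : P) :
    ∃ d ≤ p, ∃ v, Frc d {x | f x = v} :=
  let ⟨d, a, b, c⟩ := Pool.Agent.MP_9c82b4_lc.decide_fun hf p.2
  ⟨⟨d, a⟩, b, c⟩

theorem exists_functional_at {V : Type*} [Nonempty V] (d : P) (E : V → P → Prop)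
    (mono : ∀ v p q, q ≤ p → E v p → E v q) (hres : ∀ v p, E v p → E v (resP ζ p))
    (dense : ∀ p ≤ d, ∃ q ≤ p, ∃ v, E v q) :
    ∃ E' : V → P → Prop, (∀ v, ∀ q ≤ d, E' v q → E v q) ∧
      (∀ v p q, q ≤ p → E' v p → E' v q) ∧ (∀ p, ∃ q ≤ p, ∃ v, E' v q) ∧
      (∀ v v' q, E' v q → E' v' q → v = v') ∧ ∀ v p, E' v p → E' v (resP ζ p) := by
  let ι : PA (Iio ζ) → P := fun a => ⟨a.1, a.2.mono (subset_univ _)⟩
  let π : P → PA (Iio ζ) := fun p => ⟨res (Iio ζ) p.1, in_resP ζ p⟩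
  obtain ⟨E', h₁, h₂, h₃, h₄⟩ := exists_functional (Q := PA (Iio ζ))
    (fun v a => (∃ e ≤ ι a, e ≤ d) → E v (ι a)) (fun a => by
      by_cases h : ∃ e ≤ ι a, e ≤ d
      · obtain ⟨e, h₁, h₂⟩ := h
        obtain ⟨q, h₃, v, h₄⟩ := dense e h₂
        exact ⟨π q, In.resP_le (c := ι a) a.2 (h₃.trans h₁), v, fun _ => hres v q h₄⟩
      · exact ⟨a, le_rfl, Classical.arbitrary V, fun h' => absurd h' h⟩)
  refine ⟨fun v p => E' v (π p), fun v q hq h => ?_,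
    fun v p q h => h₂ v _ _ (Le.res h (isLowerSet_Iio ζ)), fun p => ?_,
    fun v v' q => h₄ v v' _, fun v p h => ?_⟩
  · obtain ⟨a, h₅, h₆⟩ := h₁ v _ h
    have : q ≤ ι a := (le_resP ζ q).trans h₅
    exact mono v _ _ this (h₆ ⟨q, this, hq⟩)
  · obtain ⟨a, h₅, v, h₆⟩ := h₃ (π p)
    obtain ⟨r, h₇, h₈⟩ := In.merge (d := ι a) a.2 h₅
    exact ⟨r, h₈, v, h₂ v _ _ (In.resP_le (c := ι a) a.2 h₇) h₆⟩
  · exact h₂ v _ _ (In.resP_le (in_resP ζ p) (le_refl (resP ζ p))) h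

theorem avoid' {A : Set Θ} (hA : IsLowerSet A) (hζ : ζ ∈ A) (hd : Mem A d.1)
    (E : ℕ → Finset ℕ → P → Prop) (hres : ∀ n v p, E n v p → E n v (resP ζ p))
    (hE : ∀ n, ∀ q ≤ resP ζ d, ∃ c ≤ q, ∃ v, v.card ≤ (n + 1) ^ 2 ∧ E n v c) :
    ∃ r ≤ d, Mem A r.1 ∧ ∃ n₁, ∀ n, n₁ ≤ n → ∀ d' ≤ r, ∃ d'' ≤ d', ∃ w < bb n,
      Frc d'' (cyl (.R ζ n) w) ∧ ∃ v c, E n v c ∧ d'' ≤ c ∧ w ∉ v := by
  obtain ⟨r, a, b, n₁, h⟩ := avoid hA hζ hd (fun n v c => ∃ h : Mem univ c, E n v ⟨c, h⟩)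
    (fun n q h₁ h₂ => by
      obtain ⟨c, h₃, v, h₄, h₅⟩ := hE n ⟨q, h₁.mono (subset_univ _)⟩ h₂
      exact ⟨_, in_resP ζ c, In.resP_le (c := ⟨q, h₁.mono (subset_univ _)⟩) h₁ h₃, v, h₄, _,
        hres n v c h₅⟩)
  refine ⟨⟨r, a.mono (subset_univ _)⟩, b, a, n₁, fun n hn d' h₁ => ?_⟩
  obtain ⟨d'', h₂, h₃, w, h₄, h₅, v, c, ⟨h₆, h₇⟩, h₈⟩ := h n hn d'.1 d'.2 h₁
  exact ⟨⟨d'', h₂⟩, h₃, w, h₄, (W_R.2 h₅).force (mem_univ _), v, ⟨c, h₆⟩, h₇, h₈⟩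

abbrev Pr : Type 1 := P × (X → Set ℕ)

def Lev (ν : Θ) : Set Pr := {z | In ν z.1 ∧ z.2 ∈ Meas (Iio ν)}

def Fip (G : Set Pr) : Prop := ∀ s ⊆ G, s.Finite → ∀ d : P, (∀ z ∈ s, d ≤ z.1) →
  ∀ n, ∃ d' ≤ d, ∃ m, n ≤ m ∧ Frc d' {x | ∀ z ∈ s, m ∈ z.2 x}

def MaxF (ν : Θ) (G : Set Pr) : Prop := Maximal (fun G => G ⊆ Lev ν ∧ Fip G) G

def cpl (F : X → Set ℕ) : X → Set ℕ := fun x => (F x)ᶜ

theorem cpl_meas {A : Set Θ} {F : X → Set ℕ} (h : F ∈ Meas A) : cpl F ∈ Meas A :=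
  fun m => (h m).compl

theorem Lev.mono (h : ν ≤ ζ) : Lev ν ⊆ Lev ζ := fun _ hz =>
  ⟨Mem.mono hz.1 (Iio_subset_Iio h), Meas.mono (Iio_subset_Iio h) hz.2⟩

variable {G : Set Pr} {F F' : X → Set ℕ}

theorem Fip.two (h : Fip G) {c' : P} (h₁ : (c, F) ∈ G) (h₂ : (c', F') ∈ G) (h₃ : d ≤ c)
    (h₄ : d ≤ c') : ∃ x m, m ∈ F x ∧ m ∈ F' x := by
  obtain ⟨e, -, m, -, h₅⟩ := h {(c, F), (c', F')} (by simp [insert_subset_iff, h₁, h₂])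
    (toFinite _) d (by simp [h₃, h₄]) 0
  obtain ⟨x, hx, -⟩ := h₅.meet h₅
  exact ⟨x, m, by simpa using hx⟩

theorem MaxF.not_mem (h : MaxF ν G) (h₁ : (c, F) ∈ Lev ν) (h₂ : (c, F) ∉ G) :
    ∃ s ⊆ G, s.Finite ∧ ∃ d ≤ c, (∀ z ∈ s, d ≤ z.1) ∧ ∃ n, ∀ e ≤ d, ∀ m, n ≤ m →
      ¬ Frc e {x | m ∈ F x ∧ ∀ z ∈ s, m ∈ z.2 x} := by
  by_contra hn
  push Not at hn
  refine h₂ (h.le_of_ge (y := insert (c, F) G) ⟨insert_subset h₁ h.prop.1, ?_⟩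
    (subset_insert _ _) (mem_insert _ _))
  intro s hs hf d hd n
  by_cases h₃ : (c, F) ∈ s
  · obtain ⟨e, a, m, b, f⟩ := hn (s \ {(c, F)}) (by simpa using hs) hf.sdiff d (hd _ h₃)
      (fun z hz => hd z hz.1) n
    refine ⟨e, a, m, b, Force.mono_set f fun x hx z hz => ?_⟩
    by_cases h₄ : z = (c, F)
    exacts [h₄ ▸ hx.1, hx.2 z ⟨hz, h₄⟩]
  · exact h.prop.2 s ((subset_insert_iff_of_notMem h₃).1 hs) hf d hd n

theorem MaxF.dec (h : MaxF ν G) (hF : F ∈ Meas (Iio ν)) (p : P) :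
    ∃ d ≤ p, ∃ c, d ≤ c ∧ ((c, F) ∈ G ∨ (c, cpl F) ∈ G) := by
  by_cases h₁ : (resP ν p, F) ∈ G
  · exact ⟨p, le_rfl, _, le_resP ν p, Or.inl h₁⟩
  obtain ⟨s, a, b, d, c, e, n, f⟩ := h.not_mem ⟨in_resP ν p, hF⟩ h₁
  by_cases h₂ : (resP ν d, cpl F) ∈ G
  · obtain ⟨r, h₃, h₄⟩ := (in_resP ν d).merge ((in_resP ν p).resP_le c)
    exact ⟨r, h₄, _, h₃, Or.inr h₂⟩
  exfalso
  obtain ⟨s', a', b', d', c', e', n', f'⟩ := h.not_mem ⟨in_resP ν d, cpl_meas hF⟩ h₂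
  obtain ⟨r, h₃, m, h₄, h₅⟩ := h.prop.2 (s ∪ s') (union_subset a a') (b.union b') d' (by
    rintro z (hz | hz)
    exacts [c'.trans ((h.prop.1 (a hz)).1.resP_le (e z hz)), e' z hz]) (max n n')
  obtain ⟨r', h₆, h₇ | h₇⟩ := Frc.decide ((hF m).mono (subset_univ _)) r
  · obtain ⟨t, h₈, h₉⟩ := (in_resP ν r').merge ((in_resP ν d).resP_le (h₆.trans (h₃.trans c')))
    refine f t h₉ m (le_of_max_le_left h₄) (Frc.mono (Frc.resP (Force.and h₇ (h₅.mono h₆)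
      fun x k₁ k₂ => And.intro k₁ fun z hz => k₂ z (Or.inl hz)) ?_) h₈)
    exact meas_set (meas_and (meas_of_set (hF m))
      (meas_ball b.countable fun z hz => meas_of_set ((h.prop.1 (a hz)).2 m)))
  · exact f' r' (h₆.trans h₃) m (le_of_max_le_right h₄) (Force.and h₇ (h₅.mono h₆)
      fun x k₁ k₂ => ⟨k₁, fun z hz => k₂ z (Or.inr hz)⟩)

def Arr (A : Set Θ) (ψ : ℕ → ℕ → X → ℕ) : Prop := ∀ n m, Measurable[gen (mK A)] (ψ n m)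

def npc (ψ : ℕ → ℕ → X → ℕ) (n w : ℕ) : X → Set ℕ := fun x => {m | ψ n m x ≠ w}

def Av (ζ : Θ) (ψ : ℕ → ℕ → X → ℕ) (n₀ : ℕ) : X → Set ℕ :=
  fun x => {m | ∀ n, n₀ ≤ n → ψ n m x ≠ x (.R ζ n)}

def New (ζ : Θ) (G : Set Pr) : Set Pr := {z | In (Order.succ ζ) z.1 ∧ ∃ ψ, Arr (Iio ζ) ψ ∧ ∃ n₀,
  z.2 = Av ζ ψ n₀ ∧ ∀ n, n₀ ≤ n → ∀ d ≤ z.1, ∃ d' ≤ d, ∃ w < bb n, Frc d' (cyl (.R ζ n) w) ∧
    ∃ c, (c, npc ψ n w) ∈ G ∧ d' ≤ c}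

theorem Arr.npc {A ψ} (h : Arr A ψ) (n w : ℕ) : npc ψ n w ∈ Meas A := fun m =>
  meas_set (meas_not (meas_eq (h n m) measurable_const))

theorem new_sub (ζ : Θ) (G : Set Pr) : New ζ G ⊆ Lev (Order.succ ζ) := by
  rintro ⟨c, F⟩ ⟨h₁, ψ, h₂, n₀, rfl, -⟩
  refine ⟨h₁, fun m => meas_set (meas_all fun n => meas_imp measurable_const (meas_not (meas_eq
    ((h₂ n m).mono (gen_mono (mK_mono (Iio_subset_Iio (Order.le_succ ζ)))) le_rfl)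
    (gen_eval (κ := .R ζ n) (Order.lt_succ ζ)))))⟩

theorem MaxF.dec_fin (h : MaxF ν G) {ι : Type*} {I : Set ι} (hI : I.Finite)
    {F : ι → X → Set ℕ} (hF : ∀ i ∈ I, F i ∈ Meas (Iio ν)) (p : P) :
    ∃ d ≤ p, ∀ i ∈ I, ∃ c, d ≤ c ∧ ((c, F i) ∈ G ∨ (c, cpl (F i)) ∈ G) :=
  fin_dense hI (fun _ _ _ h ⟨c, a, b⟩ => ⟨c, h.trans a, b⟩) fun i hi d _ => h.dec (hF i hi) d

theorem MaxF.new_dense (h : MaxF ζ G) {ψ : ℕ → ℕ → X → ℕ} (hψ : Arr (Iio ζ) ψ) (p : P) :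
    ∃ d ≤ p, ∃ c n₀, d ≤ c ∧ (c, Av ζ ψ n₀) ∈ New ζ G := by
  obtain ⟨r, a, b, n₁, c⟩ := avoid' (isLowerSet_Iio _) (Order.lt_succ ζ)
    (in_resP (Order.succ ζ) p)
    (fun n v c => ∀ w < bb n, w ∉ v → ∃ c', (c', npc ψ n w) ∈ G ∧ c ≤ c')
    (fun n v c H w h₁ h₂ => (H w h₁ h₂).imp fun c' h' => ⟨h'.1, (h.prop.1 h'.1).1.resP_le h'.2⟩)
    (fun n q _ => by
      obtain ⟨d, h₁, h₂⟩ := h.dec_fin (finite_Iio (bb n)) (fun w _ => hψ.npc n w) q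
      refine ⟨d, h₁, (Finset.range (bb n)).filter fun w => ∃ c, d ≤ c ∧ (c, cpl (npc ψ n w)) ∈ G,
        le_trans (Finset.card_le_one.2 fun w hw w' hw' => ?_) (Nat.one_le_pow _ _ (by omega)),
        fun w h₃ h₄ => ?_⟩
      · obtain ⟨c, h₃, h₄⟩ := (Finset.mem_filter.1 hw).2
        obtain ⟨c', h₅, h₆⟩ := (Finset.mem_filter.1 hw').2
        obtain ⟨x, m, h₇, h₈⟩ := h.prop.2.two h₄ h₆ h₃ h₅
        exact (not_not.1 h₇).symm.trans (not_not.1 h₈)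
      · obtain ⟨c, h₅, h₆ | h₆⟩ := h₂ w h₃
        exacts [⟨c, h₆, h₅⟩, absurd (Finset.mem_filter.2 ⟨Finset.mem_range.2 h₃, c, h₅, h₆⟩) h₄])
  obtain ⟨d, h₁, h₂⟩ := In.merge b a
  refine ⟨d, h₂, r, n₁, h₁, b, ψ, hψ, n₁, rfl, fun n hn e he => ?_⟩
  obtain ⟨e', h₃, w, h₄, h₅, v, c', h₆, h₇, h₈⟩ := c n hn e he
  obtain ⟨c'', h₉, k⟩ := h₆ w h₄ h₈
  exact ⟨e', h₃, w, h₄, h₅, c'', h₉, h₇.trans k⟩

theorem MaxF.fip_new (h : MaxF ζ G) : Fip (G ∪ New ζ G) := by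
  intro s hs hf d hd n₀
  have h₁ : ∀ z ∈ s \ G, z ∈ New ζ G := fun z hz => (hs hz.1).resolve_left hz.2
  choose! ψ hψ N hN hN' using fun z hz => (h₁ z hz).2
  have up : ∀ {f : X → ℕ}, Measurable[gen (mK (Iio ζ))] f → Measurable[gen (mK univ)] f :=
    fun h => h.mono (gen_mono (mK_mono (subset_univ _))) le_rfl
  let J := (hf.sdiff (t := G)).toFinset
  have hJ : ∀ z, z ∈ J ↔ z ∈ s \ G := fun z => Finite.mem_toFinset _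
  have h₂ := fun k => exists_functional_at (ζ := ζ) (resP ζ d) (fun m c => n₀ ≤ m ∧
    Frc c {x | ∀ z ∈ s ∩ G, m ∈ z.2 x} ∧ ∀ z ∈ s \ G, ∀ n < k, ∀ w < bb n,
      Frc c {x | ψ z n m x ≠ w} ∨ ∃ c', c ≤ c' ∧ (c', cpl (npc (ψ z) n w)) ∈ G)
    (fun m p q a ⟨b, c, e⟩ => ⟨b, c.mono a, fun z hz n hn w hw =>
      (e z hz n hn w hw).imp (·.mono a) fun ⟨c', f, g⟩ => ⟨c', a.trans f, g⟩⟩)
    (fun m p ⟨b, c, e⟩ => ⟨b, c.resP (meas_set (meas_ball (hf.inter_of_left _).countable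
      fun z hz => meas_of_set ((h.prop.1 hz.2).2 m))), fun z hz n hn w hw =>
      (e z hz n hn w hw).imp (·.resP ((hψ z hz).npc n w m))
        fun ⟨c', f, g⟩ => ⟨c', (h.prop.1 g).1.resP_le f, g⟩⟩)
    (fun p hp => by
      have hI : {i : Pr × ℕ × ℕ | i.1 ∈ s \ G ∧ i.2.1 < k ∧ i.2.2 < bb i.2.1}.Finite :=
        (hf.sdiff.prod ((finite_Iio k).biUnion fun n _ =>
          (finite_singleton n).prod (finite_Iio (bb n)))).subset fun i hi =>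
            ⟨hi.1, mem_biUnion hi.2.1 ⟨rfl, hi.2.2⟩⟩
      obtain ⟨q, a, b⟩ := h.dec_fin hI (F := fun i => npc (ψ i.1) i.2.1 i.2.2)
        (fun i hi => (hψ _ hi.1).npc _ _) p
      choose! c hc hc' using b
      obtain ⟨q', e, m, f, g⟩ := h.prop.2 (s ∩ G ∪ ((fun i => (c i, npc (ψ i.1) i.2.1 i.2.2)) ''
        {i : Pr × ℕ × ℕ | i.1 ∈ s \ G ∧ i.2.1 < k ∧ i.2.2 < bb i.2.1}) ∩ G)
        (union_subset inter_subset_right inter_subset_right)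
        ((hf.inter_of_left _).union ((hI.image _).inter_of_left _)) q (by
          rintro z (hz | ⟨⟨i, hi, rfl⟩, -⟩)
          exacts [a.trans (hp.trans ((h.prop.1 hz.2).1.resP_le (hd z hz.1))), hc i hi]) n₀
      refine ⟨q', e.trans a, m, f, Force.mono_set g fun x hx z hz => hx z (Or.inl hz),
        fun z hz n hn w hw => (hc' (z, n, w) ⟨hz, hn, hw⟩).imp (fun k₁ => ?_)
          fun k₁ => ⟨_, e.trans (hc (z, n, w) ⟨hz, hn, hw⟩), k₁⟩⟩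
      exact Force.mono_set g fun x hx => hx _ (Or.inr ⟨⟨(z, n, w), ⟨hz, hn, hw⟩, rfl⟩, k₁⟩))
  choose E e₁ e₂ e₃ e₄ e₅ using h₂
  obtain ⟨r, a, -, n₁, b⟩ := avoid' (ζ := ζ) isLowerSet_univ (mem_univ _) d.2
    (fun n v c => J.card ≤ n → ∀ k ≤ n, ∃ m, E k m c ∧ ∀ z ∈ J, ∃ w ∈ v, Frc c {x | ψ z n m x = w})
    (fun n v c H h₃ k hk => (H h₃ k hk).imp fun m hm => ⟨e₅ k m c hm.1, fun z hz =>
      (hm.2 z hz).imp fun w hw => ⟨hw.1, hw.2.resP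
        (meas_set (meas_eq (hψ z ((hJ z).1 hz) n m) measurable_const))⟩⟩)
    (fun n q _ => by
      by_cases h₃ : J.card ≤ n
      · obtain ⟨c, h₄, h₅⟩ := fin_dense (finite_Iic n) (p := q)
          (Φ := fun k c => ∃ m, E k m c ∧ ∀ z ∈ J, ∃ w, Frc c {x | ψ z n m x = w})
          (fun k p q h ⟨m, a, b⟩ => ⟨m, e₂ k m p q h a, fun z hz => (b z hz).imp
            fun w hw => hw.mono h⟩) (fun k _ e _ => by
            obtain ⟨e', k₁, m, k₂⟩ := e₃ k e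
            obtain ⟨e'', k₃, k₄⟩ := fin_dense J.finite_toSet (p := e')
              (Φ := fun z c => ∃ w, Frc c {x | ψ z n m x = w})
              (fun z p q h ⟨w, hw⟩ => ⟨w, hw.mono h⟩)
              fun z hz t _ => Frc.decide_fun (up (hψ z ((hJ z).1 hz) n m)) t
            exact ⟨e'', k₃.trans k₁, m, e₂ k m _ _ k₃ k₂, k₄⟩)
        choose! m h₆ h₇ using h₅
        choose! w h₇ using h₇
        refine ⟨c, h₄, (Finset.range (n + 1) ×ˢ J).image fun i => w i.1 i.2,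
          Finset.card_image_le.trans ?_, fun _ k hk => ⟨m k, h₆ k hk, fun z hz =>
            ⟨w k z, Finset.mem_image_of_mem _ (a := (k, z)) (by simp [hz, hk]), h₇ k hk z hz⟩⟩⟩
        rw [Finset.card_product, Finset.card_range, sq]
        gcongr
        omega
      · exact ⟨q, le_rfl, ∅, by simp, fun h => absurd h h₃⟩)
  obtain ⟨t, h₃, m, h₄⟩ := e₃ (max n₁ J.card) r
  obtain ⟨h₅, h₆, h₇⟩ := e₁ _ m t (h₃.trans (a.trans (le_resP ζ d))) h₄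
  refine ⟨t, h₃.trans a, m, h₅, force_ball hf.countable fun z hz => ?_⟩
  by_cases h₈ : z ∈ G
  · exact Force.mono_set h₆ fun x hx => hx z ⟨hz, h₈⟩
  rw [hN z ⟨hz, h₈⟩]
  refine force_all fun n => force_all fun hn => Frc.reg fun e he => ?_
  rcases lt_or_ge n (max n₁ J.card) with k | k
  · obtain ⟨e', k₁, w, k₂, k₃, c, k₄, k₅⟩ := hN' z ⟨hz, h₈⟩ n hn e
      (he.trans (h₃.trans (a.trans (hd z hz))))
    rcases h₇ z ⟨hz, h₈⟩ n k w k₂ with k₆ | ⟨c', k₆, k₇⟩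
    · exact ⟨e', k₁, Force.and k₃ (k₆.mono (k₁.trans he)) fun x f g f' => g (f'.trans f)⟩
    · obtain ⟨x, m, f, g⟩ := h.prop.2.two k₄ k₇ k₅ (k₁.trans (he.trans k₆))
      exact absurd f g
  · obtain ⟨e', k₁, w, -, k₃, v, c, k₄, k₅, k₆⟩ := b n (le_of_max_le_left k) e (he.trans h₃)
    obtain ⟨m', k₇, k₈⟩ := k₄ (le_of_max_le_right k) _ k
    obtain rfl := e₄ _ m m' e' (e₂ _ _ _ _ (k₁.trans he) h₄) (e₂ _ _ _ _ k₅ k₇)
    obtain ⟨w', k₉, f⟩ := k₈ z ((hJ z).2 ⟨hz, h₈⟩)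
    exact ⟨e', k₁, Force.and k₃ (f.mono k₅) fun x f g f' => k₆ ((g.symm.trans (f'.trans f)) ▸ k₉)⟩

theorem fip_iUnion {ι : Type*} {G : ι → Set Pr} (dir : ∀ i j, ∃ k, G i ⊆ G k ∧ G j ⊆ G k)
    (h : ∀ i, Fip (G i)) : Fip (⋃ i, G i) := by
  intro s hs hf
  have : s = ∅ ∨ ∃ i, s ⊆ G i := by
    induction s, hf using Set.Finite.induction_on with
    | empty => exact Or.inl rfl
    | @insert z s _ _ ih =>
      obtain ⟨i, hi⟩ := mem_iUnion.1 (hs (mem_insert _ _))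
      rcases ih ((subset_insert _ _).trans hs) with rfl | ⟨j, hj⟩
      · exact Or.inr ⟨i, by simpa using hi⟩
      · obtain ⟨k, a, b⟩ := dir i j
        exact Or.inr ⟨k, insert_subset (a hi) (hj.trans b)⟩
  rcases this with rfl | ⟨i, hi⟩
  exacts [fun d _ n => ⟨d, le_rfl, n, le_rfl, force_of_forall (by simp)⟩, h i s hi hf]

noncomputable def GG : Θ → Set Pr := (wellFounded_lt (α := Θ)).fix fun ζ ih =>
  Classical.epsilon fun G => MaxF ζ G ∧ ∀ ξ (h : ξ < ζ), ih ξ h ∪ New ξ (ih ξ h) ⊆ G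

theorem GG_spec (ζ : Θ) : MaxF ζ (GG ζ) ∧ ∀ ξ < ζ, GG ξ ∪ New ξ (GG ξ) ⊆ GG ζ := by
  induction ζ using WellFoundedLT.induction with
  | ind ζ ih =>
    have e : GG ζ = Classical.epsilon fun G => MaxF ζ G ∧ ∀ ξ < ζ, GG ξ ∪ New ξ (GG ξ) ⊆ G := by
      rw [GG, WellFounded.fix_eq]
    rw [e]
    refine Classical.epsilon_spec (p := fun G => MaxF ζ G ∧ ∀ ξ < ζ, GG ξ ∪ New ξ (GG ξ) ⊆ G) ?_
    obtain ⟨G, h₁, h₂⟩ := zorn_subset_nonempty {G | G ⊆ Lev ζ ∧ Fip G} (fun c hc hch _ =>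
      ⟨⋃₀ c, ⟨sUnion_subset fun G hG => (hc hG).1, by
        rw [sUnion_eq_iUnion]
        refine fip_iUnion (fun i j => ?_) fun i => (hc i.2).2
        rcases hch.total i.2 j.2 with h | h
        exacts [⟨j, h, subset_rfl⟩, ⟨i, subset_rfl, h⟩]⟩, fun G hG => subset_sUnion_of_mem hG⟩)
      (⋃ ξ : Iio ζ, GG ξ ∪ New ξ (GG ξ)) ⟨iUnion_subset fun ξ => union_subset
        ((ih ξ ξ.2).1.prop.1.trans (Lev.mono ξ.2.le))
        ((new_sub _ _).trans (Lev.mono (Order.succ_le_of_lt ξ.2))),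
        fip_iUnion (fun i j => by
          rcases lt_trichotomy i.1 j.1 with h | h | h
          · exact ⟨j, ((ih j j.2).2 i h).trans subset_union_left, subset_rfl⟩
          · exact ⟨j, h ▸ subset_rfl, subset_rfl⟩
          · exact ⟨i, subset_rfl, ((ih i i.2).2 j h).trans subset_union_left⟩)
          fun ξ => (ih ξ ξ.2).1.fip_new⟩
    exact ⟨G, h₂, fun ξ h => (subset_iUnion (fun ξ : Iio ζ => GG ξ ∪ New ξ (GG ξ)) ⟨ξ, h⟩).trans h₁⟩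

theorem exists_filter : ∃ G : Set Pr, (∀ z ∈ G, z.2 ∈ Meas univ) ∧ Fip G ∧
    (∀ F ∈ Meas univ, ∀ p, ∃ d ≤ p, ∃ c, d ≤ c ∧ ((c, F) ∈ G ∨ (c, cpl F) ∈ G)) ∧
    ∀ ψ, Arr univ ψ → ∃ ζ, ∀ p, ∃ d ≤ p, ∃ c n₀, d ≤ c ∧ (c, Av ζ ψ n₀) ∈ G := by
  refine ⟨⋃ ζ, GG ζ, fun z hz => ?_, fip_iUnion (fun i j => ?_) fun ζ => (GG_spec ζ).1.prop.2,
    fun F hF p => ?_, fun ψ hψ => ?_⟩
  · obtain ⟨ζ, h⟩ := mem_iUnion.1 hz
    exact Meas.mono (subset_univ _) ((GG_spec ζ).1.prop.1 h).2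
  · exact ⟨Order.succ (max i j), subset_union_left.trans ((GG_spec _).2 i
      (Order.lt_succ_of_le (le_max_left _ _))), subset_union_left.trans ((GG_spec _).2 j
      (Order.lt_succ_of_le (le_max_right _ _)))⟩
  · obtain ⟨ν, h⟩ := meas_level hF
    obtain ⟨d, a, c, b, e⟩ := (GG_spec ν).1.dec h p
    exact ⟨d, a, c, b, e.imp (mem_iUnion_of_mem ν) (mem_iUnion_of_mem ν)⟩
  · choose ν hν using fun z : ℕ × ℕ =>
      meas_level (F := fun x => {v | ψ z.1 z.2 x = v}) fun v => hψ _ _ (measurableSet_singleton v)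
    obtain ⟨ζ, hζ⟩ := exists_ub_ct (countable_range ν)
    refine ⟨ζ, fun p => ?_⟩
    obtain ⟨d, a, c, n₀, b, e⟩ := (GG_spec ζ).1.new_dense (ψ := ψ) (fun n m =>
      @measurable_to_countable' ℕ X _ _ (gen _) _ fun v =>
        (hν (n, m) v).mono (Iio_subset_Iio (hζ ⟨(n, m), rfl⟩).le)) p
    exact ⟨d, a, c, n₀, b, mem_iUnion_of_mem _ ((GG_spec _).2 ζ (Order.lt_succ ζ) (Or.inr e))⟩

end Pool.Agent.MP_9c82b4_lc
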