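import Pool.Agent.MP_9c82b4_lc.Loc

namespace Pool.Agent.MP_9c82b4_lc

open Set Classical MeasureTheory

/-- Measurable names of sets of natural numbers. -/
def Meas (A : Set Θ) : Set (X → Set ℕ) := {F | ∀ m, MS A {x | m ∈ F x}}

theorem Meas.mono {A B : Set Θ} (h : A ⊆ B) : Meas A ⊆ Meas B := fun _ hF m => (hF m).mono h

instance small_meas (ν : Θ) : Small.{0} (Meas (Iio ν)) :=
  small_subset (show Meas (Iio ν) ⊆ Inv ν (Set ℕ) from
    fun _ hF _ _ e => Set.ext fun m => gen_inv (hF m) e)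

def NS (ν : Θ) : Set ((X → Set ℕ) → Θ) :=
  {φ | ∀ F, (F ∈ Meas (Iio ν) → φ F < ν) ∧ (F ∉ Meas (Iio ν) → φ F = 0)}

theorem small_NS (ν : Θ) : Small.{0} (NS ν) := by
  refine small_of_injective (f := fun (φ : NS ν) (F : Meas (Iio ν)) =>
    (⟨φ.1 F, (φ.2 F).1 F.2⟩ : Iio ν)) fun φ ψ e => ?_
  ext F
  by_cases h : F ∈ Meas (Iio ν)
  · exact congrArg Subtype.val (congrFun e ⟨F, h⟩)
  · rw [(φ.2 F).2 h, (ψ.2 F).2 h]

noncomputable def nb : Θ → Θ × ((X → Set ℕ) → Θ) := (exists_book NS small_NS).choose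

noncomputable def mu (τ : Θ) : Θ := min (nb τ).1 τ

noncomputable def xi (τ : Θ) : (X → Set ℕ) → Θ := (nb τ).2

theorem mu_le (τ : Θ) : mu τ ≤ τ := min_le_right _ _

theorem exists_node {ν : Θ} {φ : (X → Set ℕ) → Θ} (h : ∀ F ∈ Meas (Iio ν), φ F < ν) :
    ∃ τ, mu τ = ν ∧ ∀ F ∈ Meas (Iio ν), xi τ F = φ F := by
  obtain ⟨τ, h₁, h₂⟩ := (exists_book NS small_NS).choose_spec ν
    (fun F => if F ∈ Meas (Iio ν) then φ F else 0)
    (fun F => ⟨fun hF => by simpa [hF] using h F hF, fun hF => by simp [hF]⟩)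
  change nb τ = _ at h₂
  exact ⟨τ, by simp [mu, h₂, h₁], fun F hF => by simp [xi, h₂, hF]⟩

/-- The level on which node `τ` depends. -/
abbrev lo (τ : Θ) : Set Θ := Iio (mu τ)

theorem lo_sub {A : Set Θ} (hA : IsLowerSet A) {τ : Θ} (h : τ ∈ A) : lo τ ⊆ A :=
  fun _ hx => hA (hx.le.trans (mu_le τ)) h

theorem lo_lower (τ : Θ) : IsLowerSet (lo τ) := isLowerSet_Iio _

theorem not_mem_lo (τ : Θ) : τ ∉ lo τ := (mu_le τ).not_gt

noncomputable def bit (τ : Θ) (F : X → Set ℕ) (x : X) : Bool :=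
  decide (xi τ F < mu τ ∧ x (.O (xi τ F)) = 1)

def sel (τ : Θ) (F : X → Set ℕ) (x : X) : Set ℕ := {m | m ∈ F x ↔ bit τ F x = true}

theorem meas_bit (τ : Θ) (F : X → Set ℕ) : Measurable[gen (mK (lo τ))] (bit τ F) := by
  refine meas_decide ?_
  by_cases h : xi τ F < mu τ
  · exact meas_and measurable_const (meas_eq (gen_eval (κ := .O (xi τ F)) h) measurable_const)
  · simp [h]

/-- Preconditions. -/
@[ext] structure Pre : Type 1 where
  b : Set X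
  T : Set Θ
  L : Θ → X → Loc
  hT : T.Countable
  hL : ∀ τ, LM (gen (mK (lo τ))) (L τ)

noncomputable def res (A : Set Θ) (p : Pre) : Pre :=
  ⟨proj A p.b, p.T ∩ A, p.L, p.hT.mono inter_subset_left, p.hL⟩

@[simp] theorem res_b (A : Set Θ) (p : Pre) : (res A p).b = proj A p.b := rfl
@[simp] theorem res_T (A : Set Θ) (p : Pre) : (res A p).T = p.T ∩ A := rfl
@[simp] theorem res_L (A : Set Θ) (p : Pre) : (res A p).L = p.L := rfl

theorem res_res {A B : Set Θ} (h : A ⊆ B) (p : Pre) : res A (res B p) = res A p :=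
  Pre.ext (proj_proj h _) (by simp [inter_assoc, inter_eq_right.2 h]) rfl

noncomputable def nrm (ν : Θ) (p : Pre) : Pre :=
  ⟨p.b, p.T, fun τ x => if τ < ν then mix (Iio ν) (p.L τ x) triv else triv, p.hT,
    fun τ => LM.ite measurable_const ((p.hL τ).mix _ (.const _)) (.const _)⟩

def Nrm (ν : Θ) : Set Pre := range fun p : {p : Pre // FS (Iio ν) p.b ∧ p.T ⊆ Iio ν} => nrm ν p

theorem small_of_factor {A B C : Type*} [Small.{0} C] (f : A → B) (g : A → C)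
    (h : ∀ a a', g a = g a' → f a = f a') : Small.{0} (range f) :=
  small_of_injective (f := fun y : range f => g y.2.choose) fun y y' e =>
    Subtype.ext (y.2.choose_spec.symm.trans ((h _ _ e).trans y'.2.choose_spec))

instance small_Nrm (ν : Θ) : Small.{0} (Nrm ν) := by
  let Y := (ℕ → ℕ) × (Iio ν → (ℕ → Bool) × ℕ)
  refine small_of_factor (C := Inv ν Prop × Set (Iio ν) × (Iio ν → Inv ν Y)) _
    (fun p => (⟨fun x => x ∈ p.1.b, fun x y e => propext (gen_inv p.2.1.ms e)⟩, Subtype.val ⁻¹' p.1.T,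
      fun τ => ⟨fun x => ((p.1.L τ x).e, fun β => ((p.1.L τ x).c β, (p.1.L τ x).k β)),
        fun x y e => ?_⟩)) fun p q e => ?_
  · have h := (p.1.hL τ).mono (gen_mono (mK_mono (lo_sub (isLowerSet_Iio ν) τ.2)))
    refine Prod.ext (funext fun m => inv_of_meas (h.e m) x y e) (funext fun β => ?_)
    exact Prod.ext (funext fun m => inv_of_meas (h.c β m) x y e) (inv_of_meas (h.k β) x y e)
  · simp only [Prod.mk.injEq, Subtype.mk.injEq] at e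
    obtain ⟨h₁, h₂, h₃⟩ := e
    refine Pre.ext (Set.ext fun x => iff_of_eq (congrFun h₁ x)) (Set.ext fun τ => ⟨fun h => ?_,
      fun h => ?_⟩) ?_
    · exact (Set.ext_iff.1 h₂ ⟨τ, p.2.2 h⟩).1 h
    · exact (Set.ext_iff.1 h₂ ⟨τ, q.2.2 h⟩).2 h
    · funext τ x
      simp only [nrm]
      split_ifs with h
      · have h₄ := congrFun (congrArg Subtype.val (congrFun h₃ ⟨τ, h⟩)) x
        simp only [Y, Prod.mk.injEq] at h₄
        simp only [mix, h₄.1, Loc.mk.injEq, true_and]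
        constructor <;> funext β <;> split_ifs with h'
        · exact congrArg Prod.fst (congrFun h₄.2 ⟨β, h'⟩)
        · rfl
        · exact congrArg Prod.snd (congrFun h₄.2 ⟨β, h'⟩)
        · rfl
      · rfl

theorem small_YS (ν : Θ) : Small.{0} {Y : Set Pre | Y ⊆ Nrm ν} :=
  inferInstanceAs (Small.{0} (powerset (Nrm ν)))

noncomputable def Yes (ξ : Θ) : Set Pre := ((exists_book _ small_YS).choose ξ).2

theorem exists_yes {ν : Θ} {Y : Set Pre} (h : Y ⊆ Nrm ν) : ∃ ξ, ν ≤ ξ ∧ Yes ξ = Y := by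
  obtain ⟨ξ, h₁, h₂⟩ := (exists_book _ small_YS).choose_spec ν Y h
  exact ⟨ξ, h₁, congrArg Prod.snd h₂⟩

/-! ### The recursive definition -/

abbrev Dat : Type 1 := (Pre → Prop) × (Pre → Set X → Prop)

section Rec

variable (Φ : Θ → Dat)

def LeD (q p : Pre) : Prop :=
  Sub0 q.b p.b ∧ p.T ⊆ q.T ∧
    ∀ τ ∈ p.T, (Φ (mu τ)).2 (res (lo τ) q) {x | Rel p.T (p.L τ x) (q.L τ x)}

def MemL (ν : Θ) (d : Pre) : Prop := (Φ ν).1 d ∧ d.T ⊆ Iio ν

def SmD (τ : Θ) (d : Pre) (S : X → Set ℕ) : Prop :=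
  ∀ d₁, MemL Φ (mu τ) d₁ → LeD Φ d₁ d → ∃ d₂, MemL Φ (mu τ) d₂ ∧ LeD Φ d₂ d₁ ∧
    ∃ 𝓛 : Set (X → Set ℕ), 𝓛.Finite ∧ 𝓛 ⊆ Meas (lo τ) ∧
      (Φ (mu τ)).2 d₂ {x | (S x ∩ ⋂ F ∈ 𝓛, sel τ F x).Finite}

def MemD (A : Set Θ) (p : Pre) : Prop :=
  FS A p.b ∧ pr p.b ≠ 0 ∧ p.T ⊆ A ∧
    ∀ τ ∈ p.T, ∀ j, SmD Φ τ (res (lo τ) p) fun x => {m | (p.L τ x).e m = j}

def WD : Ξ → ℕ → Pre → Prop
  | .R ξ n, v, p => Sub0 p.b (cyl (.R ξ n) v)
  | .H τ β m, v, p => τ ∈ p.T ∧ β ∈ p.T ∧ v ≤ 1 ∧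
      (Φ (mu τ)).2 (res (lo τ) p) {x | (p.L τ x).g β m = v}
  | .O ξ, v, p => v = 1 ∧ ∃ c ∈ Yes ξ, MemL Φ ξ c ∧ LeD Φ p c

noncomputable def ptD (A : Set Θ) (s : ℕ → Pre) : X := fun κ =>
  if κ.lev ∈ A then sInf {v | ∃ n, WD Φ κ v (s n)} else 0

def DenseD (A : Set Θ) (D : Set Pre) : Prop :=
  ∀ q, MemD Φ A q → ∃ q', MemD Φ A q' ∧ LeD Φ q' q ∧ ∃ d ∈ D, LeD Φ q' d

def ChainD (A : Set Θ) (s : ℕ → Pre) : Prop :=
  (∀ n, MemD Φ A (s n)) ∧ ∀ n m, n ≤ m → LeD Φ (s m) (s n)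

def ForceD (A : Set Θ) (p : Pre) (S : Set X) : Prop :=
  ∃ 𝒟 : Set (Set Pre), 𝒟.Countable ∧ (∀ D ∈ 𝒟, DenseD Φ A D) ∧
    ∀ s, ChainD Φ A s → (∃ n, LeD Φ (s n) p) → (∀ D ∈ 𝒟, ∃ n, ∃ d ∈ D, LeD Φ (s n) d) →
      ptD Φ A s ∈ S

variable {Φ} {Φ' : Θ → Dat} {ν : Θ} (h : ∀ α < ν, Φ α = Φ' α)
include h

theorem LeD_congr {q : Pre} (hq : q.T ⊆ Iio ν) (p : Pre) : LeD Φ q p ↔ LeD Φ' q p :=
  and_congr_right fun _ => and_congr_right fun h₁ => forall₂_congr fun τ hτ => by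
    rw [h _ ((mu_le τ).trans_lt (hq (h₁ hτ)))]

theorem MemL_congr {α : Θ} (hα : α < ν) (d : Pre) : MemL Φ α d ↔ MemL Φ' α d := by
  unfold MemL
  rw [h α hα]

theorem SmD_congr {τ : Θ} (hτ : τ < ν) (d : Pre) (S : X → Set ℕ) :
    SmD Φ τ d S ↔ SmD Φ' τ d S := by
  have h₁ : mu τ < ν := (mu_le τ).trans_lt hτ
  have h₂ : ∀ {d}, MemL Φ' (mu τ) d → d.T ⊆ Iio ν := fun hd => hd.2.trans (Iio_subset_Iio h₁.le)
  unfold SmD
  simp only [MemL_congr h h₁, h _ h₁]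
  refine forall₂_congr fun d₁ hd₁ => imp_congr (LeD_congr h (h₂ hd₁) _) ?_
  exact exists_congr fun d₂ => and_congr_right fun hd₂ => by rw [LeD_congr h (h₂ hd₂)]

theorem MemD_congr (p : Pre) : MemD Φ (Iio ν) p ↔ MemD Φ' (Iio ν) p :=
  and_congr_right fun _ => and_congr_right fun _ => and_congr_right fun h₁ =>
    forall₂_congr fun _ hτ => forall_congr' fun _ => SmD_congr h (h₁ hτ) _ _

theorem WD_congr {κ : Ξ} (hκ : κ.lev < ν) (v : ℕ) {p : Pre} (hp : p.T ⊆ Iio ν) :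
    WD Φ κ v p ↔ WD Φ' κ v p := by
  cases κ with
  | R ξ n => rfl
  | H τ β m =>
    simp only [WD]
    rw [h _ ((mu_le τ).trans_lt ((le_max_left τ β).trans_lt hκ))]
  | O ξ => simp only [WD, MemL_congr h (α := ξ) hκ, LeD_congr h hp]

theorem ForceD_congr (p : Pre) (S : Set X) : ForceD Φ (Iio ν) p S ↔ ForceD Φ' (Iio ν) p S := by
  refine exists_congr fun 𝒟 => and_congr_right fun _ => and_congr ?_ ?_
  · refine forall₂_congr fun D _ => forall_congr' fun q => imp_congr (MemD_congr h q) ?_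
    refine exists_congr fun q' => ?_
    rw [MemD_congr h]
    exact and_congr_right fun hq => by simp only [LeD_congr h hq.2.2.1]
  · refine forall_congr' fun s => ?_
    have h₁ : ChainD Φ (Iio ν) s ↔ ChainD Φ' (Iio ν) s := by
      unfold ChainD
      simp only [MemD_congr h]
      exact and_congr_right fun hs => by simp only [fun n => LeD_congr h (hs n).2.2.1]
    rw [h₁]
    refine forall_congr' fun hs => ?_
    have h₂ : ptD Φ (Iio ν) s = ptD Φ' (Iio ν) s := by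
      funext κ
      unfold ptD
      split_ifs with hκ
      · simp only [fun v n => WD_congr h hκ v (hs.1 n).2.2.1]
      · rfl
    simp only [fun n => LeD_congr h (hs.1 n).2.2.1, h₂]

end Rec

noncomputable def Phi : Θ → Dat := (wellFounded_lt (α := Θ)).fix fun ν ih =>
  (MemD (fun α => if h : α < ν then ih α h else default) (Iio ν),
    ForceD (fun α => if h : α < ν then ih α h else default) (Iio ν))

def Le : Pre → Pre → Prop := LeD Phi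
def Mem : Set Θ → Pre → Prop := MemD Phi
def Force : Set Θ → Pre → Set X → Prop := ForceD Phi
def Sm : Θ → Pre → (X → Set ℕ) → Prop := SmD Phi
def W : Ξ → ℕ → Pre → Prop := WD Phi
noncomputable def pt : Set Θ → (ℕ → Pre) → X := ptD Phi
def Dense : Set Θ → Set Pre → Prop := DenseD Phi
def Chain : Set Θ → (ℕ → Pre) → Prop := ChainD Phi

theorem Phi_eq (ν : Θ) : Phi ν = (Mem (Iio ν), Force (Iio ν)) := by
  rw [Phi, WellFounded.fix_eq]
  have h : ∀ α < ν, (fun α => if _ : α < ν then Phi α else default) α = Phi α :=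
    fun α hα => dif_pos hα
  exact Prod.ext (funext fun p => propext (MemD_congr h p))
    (funext₂ fun p S => propext (ForceD_congr h p S))

theorem le_def {q p : Pre} : Le q p ↔ Sub0 q.b p.b ∧ p.T ⊆ q.T ∧
    ∀ τ ∈ p.T, Force (lo τ) (res (lo τ) q) {x | Rel p.T (p.L τ x) (q.L τ x)} := by
  simp only [Le, LeD, Phi_eq]

theorem memL_iff {ν : Θ} {d : Pre} : MemL Phi ν d ↔ Mem (Iio ν) d := by
  simp only [MemL, Phi_eq]
  exact and_iff_left_of_imp fun h => h.2.2.1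

theorem sm_def {τ : Θ} {d : Pre} {S : X → Set ℕ} : Sm τ d S ↔
    ∀ d₁, Mem (lo τ) d₁ → Le d₁ d → ∃ d₂, Mem (lo τ) d₂ ∧ Le d₂ d₁ ∧
      ∃ 𝓛 : Set (X → Set ℕ), 𝓛.Finite ∧ 𝓛 ⊆ Meas (lo τ) ∧
        Force (lo τ) d₂ {x | (S x ∩ ⋂ F ∈ 𝓛, sel τ F x).Finite} := by
  simp only [Sm, SmD, memL_iff, Phi_eq, Le]

theorem mem_def {A : Set Θ} {p : Pre} : Mem A p ↔ FS A p.b ∧ pr p.b ≠ 0 ∧ p.T ⊆ A ∧
    ∀ τ ∈ p.T, ∀ j, Sm τ (res (lo τ) p) fun x => {m | (p.L τ x).e m = j} := Iff.rfl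

theorem W_R {ξ : Θ} {n v : ℕ} {p : Pre} : W (.R ξ n) v p ↔ Sub0 p.b (cyl (.R ξ n) v) := Iff.rfl

theorem W_H {τ β : Θ} {m v : ℕ} {p : Pre} : W (.H τ β m) v p ↔ τ ∈ p.T ∧ β ∈ p.T ∧ v ≤ 1 ∧
    Force (lo τ) (res (lo τ) p) {x | (p.L τ x).g β m = v} := by
  simp only [W, WD, Phi_eq]

theorem W_O {ξ : Θ} {v : ℕ} {p : Pre} :
    W (.O ξ) v p ↔ v = 1 ∧ ∃ c ∈ Yes ξ, Mem (Iio ξ) c ∧ Le p c := by
  simp only [W, WD, memL_iff, Le]

theorem pt_def (A : Set Θ) (s : ℕ → Pre) (κ : Ξ) :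
    pt A s κ = if κ.lev ∈ A then sInf {v | ∃ n, W κ v (s n)} else 0 := rfl

theorem dense_def {A : Set Θ} {D : Set Pre} :
    Dense A D ↔ ∀ q, Mem A q → ∃ q', Mem A q' ∧ Le q' q ∧ ∃ d ∈ D, Le q' d := Iff.rfl

theorem chain_def {A : Set Θ} {s : ℕ → Pre} :
    Chain A s ↔ (∀ n, Mem A (s n)) ∧ ∀ n m, n ≤ m → Le (s m) (s n) := Iff.rfl

theorem force_def {A : Set Θ} {p : Pre} {S : Set X} : Force A p S ↔
    ∃ 𝒟 : Set (Set Pre), 𝒟.Countable ∧ (∀ D ∈ 𝒟, Dense A D) ∧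
      ∀ s, Chain A s → (∃ n, Le (s n) p) → (∀ D ∈ 𝒟, ∃ n, ∃ d ∈ D, Le (s n) d) → pt A s ∈ S := Iff.rfl

attribute [irreducible] Le Mem Force Sm W pt Dense Chain

end Pool.Agent.MP_9c82b4_lc
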