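import Pool.Agent.MP_9c82b4_lc.Limit

namespace Pool.Agent.MP_9c82b4_lc

open Set Classical MeasureTheory
open scoped ENNReal

variable {A : Set Θ} {D : Set Pre} {p q d : Pre}

/-- Below `q`, the set `D` is entered on finitely many pieces of the random part covering `a`. -/
def Cov (A : Set Θ) (D : Set Pre) (q : Pre) (a : Set X) : Prop :=
  ∃ l : List (Set X × Pre), (∀ z ∈ l, FS A z.1 ∧ z.2 ∈ D ∧
    ∀ d, Mem A d → Le d q → Sub0 d.b z.1 → Le d z.2) ∧ Sub0 a {x | ∃ z ∈ l, x ∈ z.1}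

theorem Cov.mono {a a' : Set X} {q' : Pre} (h : Cov A D q a) (hq : Le q' q) (ha : Sub0 a' a) :
    Cov A D q' a' :=
  let ⟨l, h₁, h₂⟩ := h
  ⟨l, fun z hz => ⟨(h₁ z hz).1, (h₁ z hz).2.1, fun d a b => (h₁ z hz).2.2 d a (b.trans hq)⟩,
    ha.trans h₂⟩

theorem Cov.union {a a' : Set X} (h : Cov A D q a) (h' : Cov A D q a') : Cov A D q (a ∪ a') := by
  obtain ⟨l, h₁, h₂⟩ := h
  obtain ⟨l', h₁', h₂'⟩ := h'
  refine ⟨l ++ l', fun z hz => (List.mem_append.1 hz).elim (h₁ z) (h₁' z), ?_⟩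
  filter_upwards [h₂, h₂'] with x a b
  rintro (h | h)
  · obtain ⟨z, c, e⟩ := a h
    exact ⟨z, List.mem_append_left _ c, e⟩
  · obtain ⟨z, c, e⟩ := b h
    exact ⟨z, List.mem_append_right _ c, e⟩

theorem cov_of_le {c : Pre} (hc : c ∈ D) (h : Le q c) (a : Set X) : Cov A D q a :=
  ⟨[(univ, c)], by simpa using ⟨hc, fun d _ b _ => b.trans h⟩, .of_sub (by simp)⟩

theorem Cov.lift {t : Pre} (h : Cov A D t t.b) (ht : FS A t.b)
    (hq : ∀ d, Mem A d → Le d q → Sub0 d.b t.b → Le d t) : Cov A D q t.b := by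
  obtain ⟨l, h₁, h₂⟩ := h
  refine ⟨l.map fun z => (z.1 ∩ t.b, z.2), ?_, ?_⟩
  · simp only [List.mem_map]
    rintro _ ⟨z, hz, rfl⟩
    exact ⟨(h₁ z hz).1.inter ht, (h₁ z hz).2.1, fun d a b c => (h₁ z hz).2.2 d a
      (hq d a b (c.trans (.of_sub inter_subset_right))) (c.trans (.of_sub inter_subset_left))⟩
  · filter_upwards [h₂] with x a hx
    obtain ⟨z, b, c⟩ := a hx
    exact ⟨_, List.mem_map_of_mem b, c, hx⟩

theorem exists_piece_list {V : Type*} {l : List (Set X × V)} {Q : Set X × V → Prop} {a : Set X}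
    (ha : pr a ≠ 0) (h : Sub0 a {x | ∃ z ∈ l, Q z ∧ x ∈ z.1}) :
    ∃ z ∈ l, Q z ∧ pr (a ∩ z.1) ≠ 0 := by
  obtain ⟨z, h₁, h₂⟩ := exists_piece (s := {z | z ∈ l ∧ Q z}) (f := fun z => z.1)
    ((List.finite_toSet l).subset fun z hz => hz.1).countable ha
    (h.trans (.of_sub fun x ⟨z, a, b, c⟩ => mem_iUnion₂.2 ⟨z, ⟨a, b⟩, c⟩))
  exact ⟨z, h₁.1, h₁.2, h₂⟩

theorem fs_list {V : Type*} {l : List (Set X × V)} (Q : Set X × V → Prop)
    (h : ∀ z ∈ l, FS A z.1) : FS A {x | ∃ z ∈ l, Q z ∧ x ∈ z.1} := by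
  have : {x | ∃ z ∈ l, Q z ∧ x ∈ z.1} = ⋃ z ∈ {z | z ∈ l ∧ Q z}, z.1 := by
    ext x; simp [and_assoc]
  rw [this]
  exact ((List.finite_toSet l).subset fun z hz => hz.1).measurableSet_biUnion fun z hz => h z hz.1

/-- Density below a condition. -/
def DB (A : Set Θ) (D : Set Pre) (p : Pre) : Prop :=
  ∀ q, Mem A q → Le q p → ∃ d, Mem A d ∧ Le d q ∧ d ∈ D

def L1 (A : Set Θ) : Prop := ∀ D p, Mem A p → DB A D p → ∀ δ : ℝ≥0∞, δ ≠ 0 →
  ∃ t, Mem A t ∧ Le t p ∧ pr (p.b \ t.b) ≤ δ ∧ Cov A D t t.b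

theorem decide_bit_big (hA : IsLowerSet A) {τ : Θ} (hτ : τ ∈ A) (hL : L1 (lo τ)) (hd : Mem A d)
    {g : X → Bool} (hg : Measurable[gen (mK (lo τ))] g) :
    ∃ d', Mem A d' ∧ Le d' d ∧ pr d.b ≤ 4 * pr d'.b ∧ ∃ v, Force A d' {x | g x = v} := by
  obtain ⟨t, a, b, c, l, h₁, h₂⟩ := hL {c | ∃ v, Force (lo τ) c {x | g x = v}} _ (hd.lo τ)
    (fun q hq _ => decide_fun hg hq) (pr d.b / 2) (by simp [hd.pos])
  let s : Bool → Set X := fun v => {x | ∃ z ∈ l, Force (lo τ) z.2 {x | g x = v} ∧ x ∈ z.1}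
  have h₃ : pr d.b ≤ pr d.b / 2 + (pr (t.b ∩ s true ∩ d.b) + pr (t.b ∩ s false ∩ d.b)) := by
    refine le_trans (Sub0.le (b := (proj (lo τ) d.b \ t.b) ∪
      ((t.b ∩ s true ∩ d.b) ∪ (t.b ∩ s false ∩ d.b))) ?_)
      ((measure_union_le _ _).trans (add_le_add c (measure_union_le _ _)))
    filter_upwards [sub_proj (lo τ) d.b, h₂] with x e f hx
    by_cases h : x ∈ t.b
    · obtain ⟨z, k, k'⟩ := f h
      obtain ⟨_ | _, hv⟩ := (h₁ z k).2.1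
      exacts [Or.inr (Or.inr ⟨⟨h, z, k, hv, k'⟩, hx⟩), Or.inr (Or.inl ⟨⟨h, z, k, hv, k'⟩, hx⟩)]
    · exact Or.inl ⟨e hx, h⟩
  obtain ⟨v, hv⟩ : ∃ v, pr d.b ≤ 4 * pr (t.b ∩ s v ∩ d.b) := by
    have h₄ : pr d.b / 2 ≠ ⊤ := ENNReal.div_ne_top (measure_ne_top _ _) (by simp)
    nth_rw 1 [← ENNReal.add_halves (pr d.b)] at h₃
    replace h₃ := (ENNReal.add_le_add_iff_left h₄).1 h₃
    have h₅ : ∀ y : ℝ≥0∞, pr d.b / 2 ≤ y + y → pr d.b ≤ 4 * y := fun y h => by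
      rw [← ENNReal.add_halves (pr d.b)]
      refine (add_le_add h h).trans_eq ?_
      ring
    rcases le_total (pr (t.b ∩ s true ∩ d.b)) (pr (t.b ∩ s false ∩ d.b)) with h | h
    exacts [⟨false, h₅ _ (h₃.trans (by gcongr))⟩, ⟨true, h₅ _ (h₃.trans (by gcongr))⟩]
  have h₆ : pr (t.b ∩ s v ∩ d.b) ≠ 0 := fun e => hd.pos (by simpa [e] using hv)
  have h₇ : Mem (lo τ) (shrink t (s v)) := a.shrink (fs_list _ fun z hz => (h₁ z hz).1)
    ((Sub0.of_sub inter_subset_left).ne_zero h₆)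
  have h₈ := (shrink_le t (s v)).trans b
  refine ⟨merge (shrink t (s v)) d, mem_merge h₇ hd (lo_sub hA hτ) h₈, merge_le_right h₇.T h₈, hv,
    v, (Force.up' (Force.reg fun d' e f => ?_) (lo_lower τ) (lo_sub hA hτ)
      (meas_set (meas_beq hg v)) h₇).mono (merge_le_left _ _)⟩
  obtain ⟨z, k₁, k₂, k₃⟩ := exists_piece_list e.pos (f.b.trans (shrink_sub _ _))
  have k₄ := e.shrink (h₁ z k₁).1 k₃
  exact ⟨_, k₄, shrink_le _ _, k₂.mono ((h₁ z k₁).2.2 _ k₄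
    ((shrink_le _ _).trans (f.trans (shrink_le _ _))) (shrink_sub _ _))⟩

theorem decide_bits_big (hA : IsLowerSet A) (hL : ∀ τ ∈ A, L1 (lo τ)) (hd : Mem A d) {ι : Type*}
    (I : Finset ι) (lv : ι → Θ) {g : ι → X → Bool}
    (hg : ∀ i ∈ I, lv i ∈ A ∧ Measurable[gen (mK (lo (lv i)))] (g i)) :
    ∃ d', Mem A d' ∧ Le d' d ∧ pr d.b ≤ 4 ^ I.card * pr d'.b ∧
      ∃ v : ι → Bool, Force A d' {x | ∀ i ∈ I, g i x = v i} := by
  induction I using Finset.induction_on with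
  | empty => exact ⟨d, hd, .refl _, by simp, fun _ => true, force_of_forall (by simp)⟩
  | insert i I hi ih =>
    obtain ⟨d₁, a, b, c, v, e⟩ := ih fun j hj => hg j (Finset.mem_insert_of_mem hj)
    have h := hg i (Finset.mem_insert_self _ _)
    obtain ⟨d₂, a', b', c', w, e'⟩ := decide_bit_big hA h.1 (hL _ h.1) a h.2
    refine ⟨d₂, a', b'.trans b, ?_, Function.update v i w, (e.mono b').and e' fun x f g j hj => ?_⟩
    · rw [Finset.card_insert_of_notMem hi, pow_succ, mul_assoc]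
      exact c.trans (by gcongr)
    · rcases Finset.mem_insert.1 hj with rfl | hj
      · simpa using g
      · rw [Function.update_of_ne (ne_of_mem_of_not_mem hj hi)]
        exact f j hj

theorem exists_br (hA : IsLowerSet A) (hL : ∀ τ ∈ A, L1 (lo τ)) (hd : Mem A d) (h : Le d p)
    {F : Finset Θ} (hF : ↑F ⊆ p.T) (n : ℕ) :
    ∃ σ d', Mem A d' ∧ Le d' d ∧ Le d' (br p F n σ) ∧
      pr d.b ≤ 4 ^ (F.card * (F.card * (n + 1))) * pr d'.b := by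
  let d₂ := setrows d (fun τ x _ => bnd (p.L τ x).e (d.L τ x).e n) (fun _ _ _ => false)
    fun τ _ => meas_bnd (p.hL τ).e (d.hL τ).e measurable_const
  let g : Θ × Θ × ℕ → X → Bool := fun z x =>
    decide (∃ m, (p.L z.1 x).e m = z.2.2 ∧ (d₂.L z.1 x).g z.2.1 m = 1)
  have hg : ∀ z, Measurable[gen (mK (lo z.1))] (g z) := fun z => meas_decide (meas_ex fun m =>
    meas_and (meas_eq ((p.hL _).e m) measurable_const) (meas_eq ((d₂.hL _).g _ m) measurable_const))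
  obtain ⟨d₃, a, b, c, v, e⟩ := decide_bits_big hA hL (d := d₂) (hd.setrows _ _ _)
    (F ×ˢ F ×ˢ Finset.range (n + 1)) Prod.fst (g := g)
    fun z hz => ⟨hd.T (h.T (hF (Finset.mem_product.1 hz).1)), hg z⟩
  have b' : Le d₃ d := b.trans (setrows_le _ _ _ _)
  refine ⟨fun τ β j => v (τ, β, j), d₃, a, b',
    le_def.2 ⟨(b'.trans h).b, (b'.trans h).T, fun τ hτ => ?_⟩, by simpa [d₂, setrows] using c⟩
  by_cases h₁ : τ ∈ F
  · have h₂ : Force (lo τ) (res (lo τ) d₃)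
        {x | ∀ β ∈ (F : Set Θ), ∀ j, j ≤ n → g (τ, β, j) x = v (τ, β, j)} :=
      Force.down (e.mono_set fun x hx β hβ j hj => hx _ (by simpa [h₁, Nat.lt_succ_iff, hj]))
        (lo_lower τ) (lo_sub hA (hd.T (h.T hτ))) (meas_set (meas_ball F.countable_toSet fun β _ =>
          meas_all fun j => meas_imp measurable_const (meas_beq (hg (τ, β, j)) _))) a
    refine (h₂.inter ((h.L hτ).mono (b'.res (lo_lower τ)))).and (b.L (h.T hτ))
      fun x ⟨f₁, f₂⟩ f₃ β hβ => Ref.trans ?_ (f₃ β (h.T hβ))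
    have h₃ : Ref ((p.L τ x).g β) ((d₂.L τ x).g β) := (f₂ β hβ).trans
      (ref_setr (d.L τ x) (fun _ => bnd (p.L τ x).e (d.L τ x).e n) (fun _ _ => false) β)
    simp only [br, if_pos h₁]
    refine ref_setr_of h₃ fun m k₁ k₂ => ?_
    split_ifs at k₂ with k₃
    · have k₄ : (d₂.L τ x).g β m ≤ 1 :=
        g_le_one.2 ((le_bnd (f₂ τ hτ).ac k₂).trans (le_max_right _ _))
      rw [← f₁ β k₃ _ k₂]
      rcases Nat.le_one_iff_eq_zero_or_eq_one.1 k₄ with k₅ | k₅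
      · have : ¬ ∃ m', (p.L τ x).e m' = (p.L τ x).e m ∧ (d₂.L τ x).g β m' = 1 := by
          rintro ⟨m', k₆, k₇⟩
          have := h₃.cls k₁ k₆.symm
          omega
        simp only [g, k₅, this, decide_false, Bool.toNat_false]
      · have : ∃ m', (p.L τ x).e m' = (p.L τ x).e m ∧ (d₂.L τ x).g β m' = 1 := ⟨m, rfl, k₅⟩
        simp only [g, k₅, this, decide_true, Bool.toNat_true]
    · omega
  · simpa [br, h₁] using (b'.trans h).L hτ

theorem exists_round (hA : IsLowerSet A) {R : Sys} {F : Finset Θ} {n : ℕ} (hR : Good A R F n)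
    (hp : ∀ f, Le (R.ver f) p) {Ψ : Pre → Prop} (mono : ∀ q q', Mem A q' → Le q' q → Ψ q → Ψ q')
    {δ : ℝ≥0∞} (step : ∀ q, Mem A q → Le q p → ∃ t, Mem A t ∧ Le t q ∧ pr (q.b \ t.b) ≤ δ ∧ Ψ t)
    (U : Finset ((Θ → Bool) × (Θ → Θ → ℕ → Bool))) :
    ∃ R', Good A R' F n ∧ Step F n R R' ∧ pr (R.b \ R'.b) ≤ U.card * δ ∧
      ∀ u ∈ U, Ψ (br (R'.ver u.1) F n u.2) := by
  induction U using Finset.induction_on with
  | empty => exact ⟨R, hR, .refl _ _ _, by simp, by simp⟩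
  | insert u U hu ih =>
    obtain ⟨R₁, a₁, b₁, c₁, e₁⟩ := ih
    obtain ⟨t, a, b, c, e⟩ := step (br (R₁.ver u.1) F n u.2) ((a₁.mem _).br _ _ _)
      ((br_le _ _ _ _).trans ((b₁.le_ver _).trans (hp _)))
    obtain ⟨R₂, a₂, b₂, c₂, e₂⟩ := exists_update a₁ hA b a
    obtain ⟨R₃, a₃, b₃, c₃⟩ := exists_shrink a₂ a.fs
      (((c₂ ▸ b.b : Sub0 t.b R₂.b).inter (.refl _)).ne_zero a.pos)
    refine ⟨R₃, a₃, b₁.trans (b₂.trans b₃), ?_, fun w hw => ?_⟩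
    · rw [Finset.card_insert_of_notMem hu, Nat.cast_succ, add_mul, one_mul, c₃, c₂]
      refine le_trans (measure_mono ?_) ((measure_union_le _ _).trans (add_le_add c₁ c))
      intro x hx
      by_cases h : x ∈ R₁.b
      exacts [Or.inr ⟨h, fun h' => hx.2 ⟨h, h'⟩⟩, Or.inl ⟨hx.1, h⟩]
    · have h := (a₃.mem w.1).br F n w.2
      rcases Finset.mem_insert.1 hw with rfl | hw
      · refine mono _ _ h (e₂ _ h (b₃.br_le a₂ subset_rfl le_rfl (fun _ _ => rfl)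
          fun _ _ _ _ _ _ => rfl) (.of_sub ?_)) e
        exact (c₃ ▸ inter_subset_right : R₃.b ⊆ t.b)
      · exact mono _ _ h ((b₂.trans b₃).br_le a₁ subset_rfl le_rfl (fun _ _ => rfl)
          fun _ _ _ _ _ _ => rfl) (e₁ w hw)

theorem exists_U (F : Finset Θ) (n : ℕ) : ∃ U : Finset ((Θ → Bool) × (Θ → Θ → ℕ → Bool)),
    U.card ≤ 4 ^ F.card * 4 ^ (F.card * (F.card * (n + 1))) ∧
      ∀ (f : Θ → Bool) (σ : Θ → Θ → ℕ → Bool), ∃ u ∈ U, (∀ τ ∈ F, u.1 τ = f τ) ∧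
        ∀ τ ∈ F, ∀ β ∈ F, ∀ j ≤ n, σ τ β j = u.2 τ β j := by
  let I := F ×ˢ F ×ˢ Finset.range (n + 1)
  refine ⟨(F.powerset ×ˢ I.powerset).image fun S =>
    (fun τ => decide (τ ∈ S.1), fun τ β j => decide ((τ, β, j) ∈ S.2)),
    Finset.card_image_le.trans ?_, fun f σ => ⟨_, Finset.mem_image_of_mem _
      (a := (F.filter fun τ => f τ = true, I.filter fun z => σ z.1 z.2.1 z.2.2 = true))
      (by simp), fun τ hτ => by simp [hτ], fun τ hτ β hβ j hj => ?_⟩⟩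
  · simp only [Finset.card_product, Finset.card_powerset, I, Finset.card_range]
    gcongr <;> norm_num
  · simp [I, hτ, hβ, hj]

theorem le_KK {c k : ℕ} (h : c ≤ k + 1) : 4 ^ c * 4 ^ (c * (c * (k + 2 + 1))) ≤ KK k := by
  rw [← pow_add]
  refine Nat.pow_le_pow_right (by norm_num) ?_
  calc c + c * (c * (k + 2 + 1)) ≤ (k + 1) + (k + 1) * ((k + 1) * (k + 2 + 1)) := by gcongr
    _ ≤ (k + 3) ^ 3 := by nlinarith [Nat.zero_le (k ^ 2), Nat.zero_le k]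

theorem fuse (hA : IsLowerSet A) (hL : ∀ τ ∈ A, L1 (lo τ)) (hp : Mem A p) (Ψ : ℕ → Pre → Prop)
    (mono : ∀ i q q', Mem A q' → Le q' q → Ψ i q → Ψ i q') (δ : ℕ → ℝ≥0∞)
    (step : ∀ i q, Mem A q → Le q p → ∃ t, Mem A t ∧ Le t q ∧ pr (q.b \ t.b) ≤ δ i ∧ Ψ i t)
    (hδ : ∑' i, KK i * δ i < pr p.b) :
    ∃ r, Mem A r ∧ Le r p ∧ pr (p.b \ r.b) ≤ ∑' i, KK i * δ i ∧ ∃ B : ℕ → Finset Pre,
      (∀ i, (B i).card ≤ KK i) ∧ (∀ i, ∀ q ∈ B i, Mem A q ∧ Le q p ∧ Ψ i q ∧ r.b ⊆ q.b) ∧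
      (∀ i, ∀ q ∈ B (i + 1), ∃ q' ∈ B i, Le q q') ∧ ∀ d, Mem A d → Le d r → ∀ i, ∃ q ∈ B i,
        ∃ d', Mem A d' ∧ Le d' d ∧ Le d' q ∧ pr d.b ≤ KK i * pr d'.b := by
  choose U hU₁ hU₂ using exists_U
  obtain ⟨R, F, h₀, hF₀, hI, hR, hF, hT⟩ := book Sys.T Sys.hT
    (fun k R F => Good A R F (k + 1) ∧ (∀ f, Le (R.ver f) p) ∧ F.card ≤ k ∧
      ∀ τ ∈ F, ∀ f x, ∀ m < k, (R.L f τ x).e m ≤ k + 1)
    (fun k R F R' F' => Step F (k + 1) R R' ∧ pr (R.b \ R'.b) ≤ KK k * δ k ∧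
      ∀ u ∈ U F' (k + 2), Ψ k (br (R'.ver u.1) F' (k + 2) u.2)) (by
      rintro k R F F' ⟨h₁, h₂, -, -⟩ h₃ h₄ h₅
      obtain ⟨R₁, a₁, b₁, c₁, e₁⟩ := exists_squash h₁ h₃ h₄ (k + 1)
      obtain ⟨R₂, a₂, b₂, c₂, e₂⟩ := exists_round hA a₁ (fun f => (b₁.le_ver f).trans (h₂ f))
        (mono k) (step k) (U F' (k + 2))
      have b := b₁.trans (b₂.mono h₃ (Nat.le_succ _))
      refine ⟨R₂, ⟨b, ?_, e₂⟩, ⟨a₂, fun f => (b.le_ver f).trans (h₂ f), h₅, fun τ hτ f x m hm => ?_⟩,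
        b.T⟩
      · rw [← c₁]
        refine c₂.trans ?_
        gcongr
        exact (hU₁ _ _).trans (le_KK h₅)
      · have := e₁ τ hτ f x m hm
        rw [b₂.keep τ hτ f x m (by omega)]
        omega)
    (constSys p) ⟨good_const hp _, fun _ => .refl _, by simp, by simp⟩
  have hb : pr (p.b \ ⋂ i, (R i).b) ≤ ∑' i, KK i * δ i := by
    refine le_trans (measure_mono (t := ⋃ i, (R i).b \ (R (i + 1)).b) ?_)
      ((measure_iUnion_le _).trans (ENNReal.tsum_le_tsum fun i => (hR i).2.1))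
    rintro x ⟨h₁, h₂⟩
    by_contra h₃
    refine h₂ (mem_iInter.2 fun i => ?_)
    induction i with
    | zero => rw [h₀]; exact h₁
    | succ i ih =>
      by_contra h₄
      exact h₃ (mem_iUnion.2 ⟨i, ih, h₄⟩)
  obtain ⟨r, a, b, ch, mch, key⟩ := exists_limit R F (fun i => (hI i).1) (fun i => (hR i).1) hF hT
    (fun i => (hI i).2.2.2) (fun e => by
      refine (hδ.trans_le ?_).not_ge hb
      exact (measure_le_inter_add_sdiff pr p.b (⋂ i, (R i).b)).trans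
        (by rw [measure_mono_null inter_subset_right e, zero_add]))
  have key' : ∀ i f d, Mem A d → Le d r → Force A d {x | ∀ τ ∈ F i, ch τ x = f τ} →
      Le d ((R i).ver f) := fun i f d h₁ h₂ h₃ =>
    (key i f A d hA h₁ (h₂.trans (le_res _ _)) (h₃.mono_set fun x hx τ h _ => hx τ h)).trans
      ((Le.refl _).res_le hA ((hI i).1.mem f))
  refine ⟨r, a, (key' 0 (fun _ => true) r a (.refl _) (force_of_forall (by simp [hF₀]))).trans
    ((hI 0).2.1 _), b ▸ hb, fun i => (U (F (i + 1)) (i + 2)).image fun u =>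
      br ((R (i + 1)).ver u.1) (F (i + 1)) (i + 2) u.2, fun i => Finset.card_image_le.trans
      ((hU₁ _ _).trans (le_KK (hI _).2.2.1)), fun i q hq => ?_, fun i q hq => ?_,
    fun d h₁ h₂ i => ?_⟩
  · obtain ⟨u, hu, rfl⟩ := Finset.mem_image.1 hq
    exact ⟨((hI _).1.mem _).br _ _ _, (br_le _ _ _ _).trans ((hI _).2.1 _), (hR i).2.2 u hu,
      b ▸ iInter_subset (fun i => (R i).b) (i + 1)⟩
  · obtain ⟨u, -, rfl⟩ := Finset.mem_image.1 hq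
    obtain ⟨u', h₁, h₂, h₃⟩ := hU₂ (F (i + 1)) (i + 2) u.1 u.2
    exact ⟨_, Finset.mem_image_of_mem _ h₁,
      (hR (i + 1)).1.br_le (hI _).1 (hF (Nat.le_succ _)) (Nat.le_succ _) h₂ h₃⟩
  · obtain ⟨d₁, a₁, b₁, c₁, f, e₁⟩ := decide_bits_big hA hL h₁ (F (i + 1)) id (g := ch)
      fun τ hτ => ⟨((hI _).1.mem fun _ => true).T ((hI _).1.sub hτ), mch τ⟩
    obtain ⟨σ, d₂, a₂, b₂, c₂, e₂⟩ := exists_br hA hL a₁ (key' _ f d₁ a₁ (b₁.trans h₂) e₁)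
      (hI (i + 1)).1.sub (i + 2)
    obtain ⟨u, h₃, h₄, h₅⟩ := hU₂ (F (i + 1)) (i + 2) f σ
    refine ⟨_, Finset.mem_image_of_mem _ h₃, d₂, a₂, b₂.trans b₁,
      c₂.trans ((Step.refl _ _ _).br_le (hI _).1 subset_rfl le_rfl h₄ h₅), c₁.trans ?_⟩
    refine (mul_le_mul_right e₂ _).trans ?_
    rw [← mul_assoc]
    gcongr
    exact_mod_cast le_KK (hI (i + 1)).2.2.1

end Pool.Agent.MP_9c82b4_lc
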