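import Pool.Agent.MP_9c82b4_lc.Sys

namespace Pool.Agent.MP_9c82b4_lc

open Set Classical MeasureTheory

variable {A : Set Θ}

theorem decide_bits {ι : Type*} {p : Pre} (hp : Mem A p) (I : Finset ι) {g : ι → X → Bool}
    (hg : ∀ i ∈ I, Measurable[gen (mK A)] (g i)) :
    ∃ d, Mem A d ∧ Le d p ∧ ∃ f : ι → Bool, Force A d {x | ∀ i ∈ I, g i x = f i} := by
  obtain ⟨d, a, b, c⟩ := decide_fin I.finite_toSet (Φ := fun i d => ∃ v, Force A d {x | g i x = v})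
    (fun i p q h ⟨v, hv⟩ => ⟨v, hv.mono h⟩) (fun i hi d hd _ => decide_fun (hg i hi) hd) hp
  choose! f hf using c
  exact ⟨d, a, b, f, force_ball I.countable_toSet hf⟩

theorem exists_limit (R : ℕ → Sys) (F : ℕ → Finset Θ)
    (hG : ∀ i, Good A (R i) (F i) (i + 1)) (hS : ∀ i, Step (F i) (i + 1) (R i) (R (i + 1)))
    (hF : Monotone F) (hT : ∀ i, ∀ τ ∈ (R i).T, ∃ j, τ ∈ F j)
    (hst : ∀ i, ∀ τ ∈ F i, ∀ f x, ∀ m < i, ((R i).L f τ x).e m ≤ i + 1)
    (h₀ : pr (⋂ i, (R i).b) ≠ 0) :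
    ∃ r, Mem A r ∧ r.b = ⋂ i, (R i).b ∧ ∃ ch : Θ → X → Bool,
      (∀ τ, Measurable[gen (mK (lo τ))] (ch τ)) ∧ ∀ i f B d, IsLowerSet B → Mem B d →
        Le d (res B r) → Force B d {x | ∀ τ ∈ F i, τ ∈ B → ch τ x = f τ} →
          Le d (res B ((R i).ver f)) := by
  have hSS : ∀ i j, i ≤ j → Step (F i) (i + 1) (R i) (R j) := by
    intro i j h
    induction j, h using Nat.le_induction with
    | base => exact .refl _ _ _
    | succ j h ih => exact ih.trans ((hS j).mono (hF h) (by omega))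
  let Lim : (Θ → Bool) → Θ → X → Loc := fun f τ x => limL fun j => (R j).L f τ x
  let ch : Θ → X → Bool := (wellFounded_lt (α := Θ)).fix fun τ ih => bit τ fun x =>
    {m | (Lim (fun τ' => if h : τ' < τ then ih τ' h x else false) τ x).e m = 0}
  let φ : Θ → X → Θ → Bool := fun τ x τ' => if τ' < τ then ch τ' x else false
  let Z : Θ → X → Set ℕ := fun τ x => {m | (Lim (φ τ x) τ x).e m = 0}
  have hch : ∀ τ, ch τ = bit τ (Z τ) := fun τ => by
    simp only [ch]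
    rw [WellFounded.fix_eq]
    rfl
  have mch : ∀ τ, Measurable[gen (mK (lo τ))] (ch τ) := fun τ => hch τ ▸ meas_bit τ _
  have mch' : ∀ τ τ', τ' < mu τ ∨ τ' = τ → Measurable[gen (mK (lo τ))] (ch τ') := by
    rintro τ τ' (h | rfl)
    exacts [(mch τ').mono (gen_mono (mK_mono (lo_sub (lo_lower τ) h))) le_rfl, mch _]
  have mL : ∀ τ (ψ : X → Θ → Bool), (∀ τ', τ' < mu τ ∨ τ' = τ →
      Measurable[gen (mK (lo τ))] fun x => ψ x τ') → LM (gen (mK (lo τ))) fun x => Lim (ψ x) τ x := by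
    refine fun τ ψ h => LM.limL fun j => LM.sel ((F j).filter fun τ' => τ' < mu τ ∨ τ' = τ)
      (Φ := fun f => (R j).L f τ) (fun f => (R j).hL f τ) (fun f f' e => (hG j).dep τ f f' ?_ ?_)
      fun τ' h' => h τ' (Finset.mem_filter.1 h').2
    · exact fun τ' a b => e τ' (Finset.mem_filter.2 ⟨a, Or.inl b⟩)
    · exact fun a => e τ (Finset.mem_filter.2 ⟨a, Or.inr rfl⟩)
  have hZ : ∀ τ, Z τ ∈ Meas (lo τ) := fun τ m => meas_set (meas_eq ((mL τ (φ τ) fun τ' h =>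
    meas_ite measurable_const (mch' τ τ' h) measurable_const).e m) measurable_const)
  have he : ∀ i, ∀ τ ∈ F i, ∀ f x m, ∃ j, i ≤ j ∧ ∀ j', j ≤ j' →
      ((R j').L f τ x).e m = (Lim f τ x).e m := by
    intro i τ hτ f x m
    have h₁ : τ ∈ F (max i (m + 1)) := hF (le_max_left _ _) hτ
    have h₂ := fun j' h => (hSS _ j' h).keep τ h₁ f x m (hst _ τ h₁ f x m (by omega))
    exact ⟨_, le_max_left _ _, fun j' h => (h₂ j' h).trans (lim_eq h₂).symm⟩
  have hrel : ∀ i f, ∀ τ ∈ (R i).T, ∀ x, Rel (R i).T ((R i).L f τ x) (Lim f τ x) := by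
    intro i f τ hτ x β hβ
    obtain ⟨j₁, h₁⟩ := hT i τ hτ
    obtain ⟨j₂, h₂⟩ := hT i β hβ
    refine ref_limL (l := fun j => (R j).L f τ x) (fun j j' a b =>
      (hSS j j' b).rel f τ ((hSS i j a).T hτ) x β ((hSS i j a).T hβ)) (fun m => ?_)
      ⟨max j₁ j₂, _, fun j' h => (hSS _ j' h).k τ (hF (le_max_left _ _) h₁) β
        (hF (le_max_right _ _) h₂) f x⟩
    obtain ⟨j, -, h⟩ := he j₁ τ h₁ f x m
    exact ⟨j, _, h⟩
  let r : Pre := ⟨⋂ i, (R i).b, ⋃ i, (R i).T, fun τ x => Lim (fun τ' => ch τ' x) τ x,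
    countable_iUnion fun i => (R i).hT, fun τ => mL τ _ (mch' τ)⟩
  have key : ∀ i f B d, IsLowerSet B → Mem B d → Le d (res B r) →
      Force B d {x | ∀ τ ∈ F i, τ ∈ B → ch τ x = f τ} → Le d (res B ((R i).ver f)) := by
    intro i f B d hB hd h₁ h₂
    have hsub : (res B ((R i).ver f)).T ⊆ (res B r).T :=
      inter_subset_inter_left _ (subset_iUnion (fun i => (R i).T) i)
    refine le_def.2 ⟨h₁.b.trans (proj_mono _ (.of_sub (iInter_subset _ i))), hsub.trans h₁.T,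
      fun τ hτ => ?_⟩
    have h₃ : Force (lo τ) (res (lo τ) d)
        {x | ∀ τ' ∈ ((F i).filter fun τ' => τ' < mu τ ∨ τ' = τ : Set Θ), ch τ' x = f τ'} := by
      refine Force.down (h₂.mono_set fun x hx τ' h => hx τ' (Finset.mem_filter.1 h).1 ?_)
        (lo_lower τ) (lo_sub hB hτ.2) (meas_set (meas_ball (Finset.countable_toSet _) fun τ' h =>
          meas_beq (mch' τ τ' (Finset.mem_filter.1 h).2) _)) hd
      rcases (Finset.mem_filter.1 h).2 with h | rfl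
      exacts [lo_sub hB hτ.2 h, hτ.2]
    refine h₃.and (h₁.L (hsub hτ)) fun x a b => Rel.trans ?_ b hsub
    have := (hG i).dep τ (fun τ' => ch τ' x) f
      (fun τ' c e => a τ' (Finset.mem_filter.2 ⟨c, Or.inl e⟩))
      fun c => a τ (Finset.mem_filter.2 ⟨c, Or.inr rfl⟩)
    simp only [res_L, Sys.ver, ← this]
    exact (hrel i _ τ hτ.1 x).mono inter_subset_left
  refine ⟨r, mem_def.2 ⟨MeasurableSet.iInter fun i => ((hG i).mem fun _ => false).fs, h₀,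
    iUnion_subset fun i => ((hG i).mem fun _ => false).T, fun τ hτ j => Sm.reg fun d₁ a₁ b₁ => ?_⟩,
    rfl, ch, mch, key⟩
  obtain ⟨i₀, hτ⟩ := mem_iUnion.1 hτ
  obtain ⟨i₁, hτ⟩ := hT i₀ τ hτ
  let i := max i₁ j
  replace hτ : τ ∈ F i := hF (le_max_left _ _) hτ
  obtain ⟨d, a, b, f, c⟩ := decide_bits a₁ ((F i).filter fun τ' => τ' < mu τ ∨ τ' = τ) (g := ch)
    fun τ' h => mch' τ τ' (Finset.mem_filter.1 h).2
  have h₁ := (((hG i).mem f).sm ((hG i).sub hτ) j).mono (key i f _ d (lo_lower τ) a (b.trans b₁)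
    (c.mono_set fun x hx τ' h h' => hx τ' (Finset.mem_filter.2 ⟨h, Or.inl h'⟩)))
  refine ⟨d, a, b, h₁.of_sel (hZ τ) (c.mono_set fun x hx m ⟨h₂, h₃⟩ => ?_)⟩
  have := (hG i).dep τ (fun τ' => ch τ' x) f
    (fun τ' c e => hx τ' (Finset.mem_filter.2 ⟨c, Or.inl e⟩))
    fun c => hx τ (Finset.mem_filter.2 ⟨c, Or.inr rfl⟩)
  simp only [Sys.ver, mem_ofPred_eq, ← this]
  obtain ⟨j₁, h₄, h₅⟩ := he i τ hτ (fun τ' => ch τ' x) x m
  replace h₂ : (Lim (fun τ' => ch τ' x) τ x).e m = j := h₂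
  rcases Nat.eq_zero_or_pos j with rfl | hj
  · have h₆ : ∀ τ' < mu τ, ch τ' x = φ τ x τ' := fun τ' h => (if_pos (h.trans_le (mu_le τ))).symm
    have h₇ : φ τ x τ = false := if_neg (lt_irrefl τ)
    replace h₃ : (Lim (φ τ x) τ x).e m = 0 ↔ ch τ x = true := by rw [hch]; exact h₃
    cases h₈ : ch τ x
    · have : ∀ j, (R j).L (fun τ' => ch τ' x) τ = (R j).L (φ τ x) τ := fun j =>
        (hG j).dep τ _ _ (fun τ' _ h => h₆ τ' h) fun _ => h₈.trans h₇.symm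
      simp only [Lim, this] at h₂
      exact absurd (h₃.1 h₂) (by simp [h₈])
    · obtain ⟨j₂, -, h₉⟩ := he i τ hτ (φ τ x) x m
      refine (hSS i (max j₁ j₂) (by omega)).pair τ hτ _ (φ τ x) h₆ (by simp [h₇, h₈]) x m
        ((h₅ _ (le_max_left _ _)).trans h₂) ((h₉ _ (le_max_right _ _)).trans (h₃.2 h₈))
  · have h₆ := (hSS i j₁ h₄).keep τ hτ (fun τ' => ch τ' x) x m
    have h₇ := (hSS i j₁ h₄).nog τ hτ (fun τ' => ch τ' x) x m
    have h₈ := h₅ j₁ le_rfl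
    have : j ≤ i := le_max_right _ _
    omega

theorem book {S T : Type*} (tasks : S → Set T) (hc : ∀ s, (tasks s).Countable)
    (Inv : ℕ → S → Finset T → Prop) (R : ℕ → S → Finset T → S → Finset T → Prop)
    (step : ∀ k s F F', Inv k s F → F ⊆ F' → ↑F' ⊆ tasks s → F'.card ≤ k + 1 →
      ∃ s', R k s F s' F' ∧ Inv (k + 1) s' F' ∧ tasks s ⊆ tasks s') (s₀ : S) (h₀ : Inv 0 s₀ ∅) :
    ∃ (s : ℕ → S) (F : ℕ → Finset T), s 0 = s₀ ∧ F 0 = ∅ ∧ (∀ k, Inv k (s k) (F k)) ∧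
      (∀ k, R k (s k) (F k) (s (k + 1)) (F (k + 1))) ∧ Monotone F ∧
      ∀ k, ∀ t ∈ tasks (s k), ∃ m, t ∈ F m := by
  have he : ∀ s, ∃ e : ℕ → Finset T, (∀ n, ↑(e n) ⊆ tasks s ∧ (e n).card ≤ 1) ∧
      ∀ t ∈ tasks s, ∃ n, t ∈ e n := by
    intro s
    rcases (tasks s).eq_empty_or_nonempty with h | h
    · exact ⟨fun _ => ∅, by simp, by simp [h]⟩
    · obtain ⟨f, hf⟩ := (hc s).exists_eq_range h
      exact ⟨fun n => {f n}, by simp [hf], by simp [hf]⟩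
  choose e he₁ he₂ using he
  let H : ℕ → Type _ := fun k => {z : (ℕ → S) × Finset T // Inv k (z.1 k) z.2 ∧
    (∀ a ≤ k, tasks (z.1 a) ⊆ tasks (z.1 k)) ∧ ↑z.2 ⊆ tasks (z.1 k) ∧ z.2.card ≤ k}
  have hs : ∀ k (z : H k), ∃ z' : H (k + 1), (∀ a ≤ k, z'.1.1 a = z.1.1 a) ∧
      z'.1.2 = z.1.2 ∪ e (z.1.1 k.unpair.1) k.unpair.2 ∧
      R k (z.1.1 k) z.1.2 (z'.1.1 (k + 1)) z'.1.2 := by
    rintro k ⟨⟨s, F⟩, h₁, h₂, h₃, h₄⟩
    have h₅ : ↑(F ∪ e (s k.unpair.1) k.unpair.2) ⊆ tasks (s k) := by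
      rw [Finset.coe_union]
      exact union_subset h₃ ((he₁ _ _).1.trans (h₂ _ (Nat.unpair_left_le k)))
    have h₆ : (F ∪ e (s k.unpair.1) k.unpair.2).card ≤ k + 1 :=
      (Finset.card_union_le _ _).trans (add_le_add h₄ (he₁ _ _).2)
    obtain ⟨s', a, b, c⟩ := step k (s k) F _ h₁ Finset.subset_union_left h₅ h₆
    refine ⟨⟨(Function.update s (k + 1) s', _), by simpa using b, fun a ha => ?_,
      by simpa using h₅.trans c, h₆⟩, fun a ha => Function.update_of_ne (by omega) _ _, rfl,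
      by simpa using a⟩
    rcases Nat.le_succ_iff.1 ha with h | rfl
    · simpa [Function.update_of_ne (show a ≠ k + 1 by omega)] using (h₂ a h).trans c
    · exact subset_rfl
  choose nx h₁ h₂ h₃ using hs
  let z : ∀ k, H k := fun k => Nat.rec ⟨(fun _ => s₀, ∅), h₀, by simp, by simp, by simp⟩ nx k
  have hz : ∀ k, z (k + 1) = nx k (z k) := fun _ => rfl
  have h₄ : ∀ a k, a ≤ k → (z k).1.1 a = (z a).1.1 a := by
    intro a k h
    induction k, h using Nat.le_induction with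
    | base => rfl
    | succ k h ih => rw [hz, h₁ k _ a h, ih]
  refine ⟨fun k => (z k).1.1 k, fun k => (z k).1.2, rfl, rfl, fun k => (z k).2.1,
    fun k => h₃ k (z k), monotone_nat_of_le_succ fun k => ?_, fun k t ht => ?_⟩
  · rw [hz, h₂]
    exact Finset.subset_union_left
  · obtain ⟨n, hn⟩ := he₂ _ t ht
    refine ⟨Nat.pair k n + 1, ?_⟩
    simp only [hz, h₂, Nat.unpair_pair, h₄ k _ (Nat.left_le_pair k n)]
    exact Finset.mem_union_right _ hn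

end Pool.Agent.MP_9c82b4_lc
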