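import Pool.Agent.MP_9c82b4_lc.Meas

namespace Pool.Agent.MP_9c82b4_lc

open Set Classical

/-- The data of a condition at one node: a partition and, for each row, fixed values. -/
structure Loc : Type 1 where
  e : ℕ → ℕ
  c : Θ → ℕ → Bool
  k : Θ → ℕ

/-- The code of a row. -/
def Loc.g (l : Loc) (β : Θ) (m : ℕ) : ℕ :=
  if l.e m ≤ l.k β then (l.c β m).toNat else l.e m + 1

def Ref (γ γ' : ℕ → ℕ) : Prop :=
  (∀ m, γ m ≤ 1 → γ' m = γ m) ∧ ∀ m m', γ m = γ m' → γ' m = γ' m'

def Rel (T : Set Θ) (l l' : Loc) : Prop := ∀ β ∈ T, Ref (l.g β) (l'.g β)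

theorem Ref.refl (γ : ℕ → ℕ) : Ref γ γ := ⟨fun _ _ => rfl, fun _ _ h => h⟩

theorem Ref.trans {a b c : ℕ → ℕ} (h₁ : Ref a b) (h₂ : Ref b c) : Ref a c :=
  ⟨fun m h => (h₂.1 m ((h₁.1 m h).symm ▸ h)).trans (h₁.1 m h),
    fun m m' h => h₂.2 m m' (h₁.2 m m' h)⟩

theorem Rel.refl (T : Set Θ) (l : Loc) : Rel T l l := fun _ _ => Ref.refl _

theorem Rel.trans {T T' : Set Θ} {a b c : Loc} (h₁ : Rel T a b) (h₂ : Rel T' b c) (h : T ⊆ T') :
    Rel T a c := fun β hβ => (h₁ β hβ).trans (h₂ β (h hβ))

theorem Rel.mono {T T' : Set Θ} {a b : Loc} (h₁ : Rel T' a b) (h : T ⊆ T') : Rel T a b :=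
  fun β hβ => h₁ β (h hβ)

theorem g_of_le {l : Loc} {β : Θ} {m : ℕ} (h : l.e m ≤ l.k β) : l.g β m = (l.c β m).toNat :=
  if_pos h

theorem g_of_lt {l : Loc} {β : Θ} {m : ℕ} (h : l.k β < l.e m) : l.g β m = l.e m + 1 :=
  if_neg h.not_ge

theorem g_le_one {l : Loc} {β : Θ} {m : ℕ} : l.g β m ≤ 1 ↔ l.e m ≤ l.k β := by
  rcases le_or_gt (l.e m) (l.k β) with h | h
  · simp [g_of_le h, h, Bool.toNat_le]
  · rw [g_of_lt h]; omega

theorem g_eq {l : Loc} {β : Θ} {m m' : ℕ} (h : l.k β < l.e m) :
    l.g β m = l.g β m' ↔ l.e m = l.e m' := by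
  rw [g_of_lt h]
  rcases le_or_gt (l.e m') (l.k β) with h' | h'
  · have := g_le_one.2 h'
    omega
  · rw [g_of_lt h']; omega

theorem ref_of {l : Loc} {β : Θ} {γ : ℕ → ℕ} (h₁ : ∀ m, l.e m ≤ l.k β → γ m = (l.c β m).toNat)
    (h₂ : ∀ m m', l.k β < l.e m → l.e m = l.e m' → γ m = γ m') : Ref (l.g β) γ := by
  have h₃ : ∀ m, l.g β m ≤ 1 → γ m = l.g β m := fun m h => by
    rw [h₁ m (g_le_one.1 h), g_of_le (g_le_one.1 h)]
  refine ⟨h₃, fun m m' h => ?_⟩
  rcases le_or_gt (l.e m) (l.k β) with h' | h'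
  · have := g_le_one.2 h'
    rw [h₃ m this, h₃ m' (h ▸ this), h]
  · exact h₂ m m' h' ((g_eq h').1 h)

theorem Ref.fix {l : Loc} {β : Θ} {γ : ℕ → ℕ} (h : Ref (l.g β) γ) {m : ℕ} (hm : l.e m ≤ l.k β) :
    γ m = (l.c β m).toNat := by
  rw [h.1 m (g_le_one.2 hm), g_of_le hm]

theorem Ref.cls {l : Loc} {β : Θ} {γ : ℕ → ℕ} (h : Ref (l.g β) γ) {m m' : ℕ} (hm : l.k β < l.e m)
    (e : l.e m = l.e m') : γ m = γ m' := h.2 m m' ((g_eq hm).2 e)

theorem Ref.le {l l' : Loc} {β : Θ} (h : Ref (l.g β) (l'.g β)) {m : ℕ} (hm : l.e m ≤ l.k β) :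
    l'.e m ≤ l'.k β := g_le_one.1 (h.fix hm ▸ Bool.toNat_le _)

/-- Almost coarsening. -/
def AC (e e' : ℕ → ℕ) (K : ℕ) : Prop :=
  ∀ m m', e m = e m' → e' m = e' m' ∨ (e' m ≤ K ∧ e' m' ≤ K)

theorem AC.mono {e e' : ℕ → ℕ} {K K' : ℕ} (h : AC e e' K) (hK : K ≤ K') : AC e e' K' :=
  fun m m' e => (h m m' e).imp id fun h => ⟨h.1.trans hK, h.2.trans hK⟩

theorem Ref.ac {l l' : Loc} {β : Θ} (h : Ref (l.g β) (l'.g β)) : AC l.e l'.e (l'.k β) := by
  intro m m' e
  rcases le_or_gt (l.e m) (l.k β) with h₁ | h₁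
  · exact Or.inr ⟨h.le h₁, h.le (e ▸ h₁)⟩
  · have h₂ := h.cls h₁ e
    rcases le_or_gt (l'.e m) (l'.k β) with h₃ | h₃
    · exact Or.inr ⟨h₃, g_le_one.1 (h₂ ▸ g_le_one.2 h₃)⟩
    · exact Or.inl ((g_eq h₃).1 h₂)

noncomputable def bnd (e e' : ℕ → ℕ) (k : ℕ) : ℕ := sInf {K | ∀ m, e m ≤ k → e' m ≤ K}

theorem le_bnd {e e' : ℕ → ℕ} {K : ℕ} (h : AC e e' K) {k m : ℕ} (hm : e m ≤ k) :
    e' m ≤ bnd e e' k := by
  have h₁ : ∀ j, ∃ B, ∀ m, e m = j → e' m ≤ B := by
    intro j
    by_cases h₂ : ∃ m, e m = j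
    · obtain ⟨m₀, rfl⟩ := h₂
      refine ⟨max K (e' m₀), fun m e => ?_⟩
      rcases h m m₀ e with h | h <;> omega
    · exact ⟨0, fun m e => absurd ⟨m, e⟩ h₂⟩
  choose B hB using h₁
  have h₃ : {K | ∀ m, e m ≤ k → e' m ≤ K}.Nonempty :=
    ⟨(Finset.range (k + 1)).sup B, fun m hm => (hB _ m rfl).trans
      (Finset.le_sup (f := B) (Finset.mem_range.2 (Nat.lt_succ_of_le hm)))⟩
  exact Nat.sInf_mem h₃ m hm

/-- Change the partition and the stems. -/
def retile (l : Loc) (e' : ℕ → ℕ) (k' : Θ → ℕ) : Loc :=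
  ⟨e', fun β m => if l.e m ≤ l.k β then l.c β m else false, k'⟩

theorem ref_retile {l : Loc} {e' : ℕ → ℕ} {k' : Θ → ℕ} {β : Θ}
    (h₁ : ∀ m, l.e m ≤ l.k β → e' m ≤ k' β)
    (h₂ : ∀ m m', l.k β < l.e m → l.e m = l.e m' → e' m = e' m' ∨ (e' m ≤ k' β ∧ e' m' ≤ k' β)) :
    Ref (l.g β) ((retile l e' k').g β) := by
  refine ref_of (fun m hm => ?_) fun m m' hm e => ?_
  · rw [g_of_le (l := retile l e' k') (h₁ m hm)]
    simp [retile, hm]
  · have hm' : l.k β < l.e m' := e ▸ hm
    have := h₂ m m' hm e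
    simp only [Loc.g, retile, if_neg hm.not_ge, if_neg hm'.not_ge]
    split_ifs <;> omega

noncomputable def adopt (l : Loc) (e' : ℕ → ℕ) (K : ℕ) : Loc :=
  retile l e' fun β => max K (bnd l.e e' (l.k β))

theorem ref_adopt {l : Loc} {e' : ℕ → ℕ} {K : ℕ} (h : AC l.e e' K) (β : Θ) :
    Ref (l.g β) ((adopt l e' K).g β) :=
  ref_retile (fun _ hm => (le_bnd h hm).trans (le_max_right _ _))
    fun m m' _ e => h.mono (le_max_left _ _) m m' e

/-- Extend the stems. -/
def setr (l : Loc) (k' : Θ → ℕ) (val : Θ → ℕ → Bool) : Loc :=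
  ⟨l.e, fun β m => if l.e m ≤ l.k β then l.c β m else val β (l.e m), fun β => max (l.k β) (k' β)⟩

theorem setr_g (l : Loc) (k' : Θ → ℕ) (val : Θ → ℕ → Bool) (β : Θ) (m : ℕ) :
    (setr l k' val).g β m = if l.e m ≤ l.k β then (l.c β m).toNat else
      if l.e m ≤ k' β then (val β (l.e m)).toNat else l.e m + 1 := by
  simp only [Loc.g, setr, le_max_iff]
  split_ifs <;> tauto

theorem ref_setr (l : Loc) (k' : Θ → ℕ) (val : Θ → ℕ → Bool) (β : Θ) :
    Ref (l.g β) ((setr l k' val).g β) := by
  refine ref_of (fun m hm => by rw [setr_g, if_pos hm]) fun m m' hm e => ?_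
  rw [setr_g, setr_g, ← e, if_neg hm.not_ge, if_neg hm.not_ge]

theorem setr_g_of_le {l : Loc} {k' : Θ → ℕ} (val : Θ → ℕ → Bool) {β : Θ} (h : k' β ≤ l.k β) :
    (setr l k' val).g β = l.g β := by
  funext m
  rw [setr_g, Loc.g]
  split_ifs <;> first | rfl | omega

theorem ref_setr_of {l : Loc} {k' : Θ → ℕ} {val : Θ → ℕ → Bool} {β : Θ} {γ : ℕ → ℕ}
    (h₁ : Ref (l.g β) γ)
    (h₂ : ∀ m, l.k β < l.e m → l.e m ≤ k' β → γ m = (val β (l.e m)).toNat) :
    Ref ((setr l k' val).g β) γ := by
  refine ref_of (fun m hm => ?_) fun m m' hm e => h₁.cls ((le_max_left _ _).trans_lt hm) e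
  rcases le_or_gt (l.e m) (l.k β) with h | h
  · simp [setr, h, h₁.fix h]
  · have : l.e m ≤ k' β := (le_max_iff.1 hm).resolve_left h.not_ge
    simp [setr, h.not_ge, h₂ m h this]

noncomputable def mix (T : Set Θ) (l l' : Loc) : Loc :=
  ⟨l.e, fun β => if β ∈ T then l.c β else l'.c β, fun β => if β ∈ T then l.k β else l'.k β⟩

theorem mix_g_mem {T : Set Θ} (l l' : Loc) {β : Θ} (h : β ∈ T) : (mix T l l').g β = l.g β := by
  funext m
  simp [Loc.g, mix, h]

theorem mix_g_not {T : Set Θ} {l l' : Loc} {β : Θ} (h : β ∉ T) (e : l'.e = l.e) :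
    (mix T l l').g β = l'.g β := by
  funext m
  simp [Loc.g, mix, h, e]

def triv : Loc := ⟨id, fun _ _ => false, fun _ => 0⟩

def newe (e₀ e₁ : ℕ → ℕ) (n K z m : ℕ) : ℕ :=
  if e₀ m ≤ n then e₀ m else if e₁ m ≤ K then z else e₁ m

noncomputable def bump (l : Loc) (n : ℕ) (F : Finset Θ) (e₁ : ℕ → ℕ) (K : ℕ) : Loc :=
  retile l (newe l.e e₁ n K n) fun β =>
    if β ∈ F then min (l.k β) n else bnd l.e (newe l.e e₁ n K n) (l.k β)

theorem ref_bump {l : Loc} {n : ℕ} {F : Finset Θ} {e₁ : ℕ → ℕ} {K : ℕ}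
    (h₁ : ∀ m m', n < l.e m → l.e m = l.e m' → e₁ m = e₁ m' ∨ (e₁ m ≤ K ∧ e₁ m' ≤ K))
    (h₂ : ∀ β ∈ F, ∀ m, n < l.e m → l.e m ≤ l.k β → e₁ m ≤ K) (β : Θ) :
    Ref (l.g β) ((bump l n F e₁ K).g β) := by
  have h₃ : ∀ m m', l.e m = l.e m' → newe l.e e₁ n K n m = newe l.e e₁ n K n m' := by
    intro m m' e
    have := h₁ m m'
    unfold newe
    split_ifs <;> omega
  refine ref_retile (fun m hm => ?_) fun m m' _ e => Or.inl (h₃ m m' e)
  split_ifs with h
  · have := h₂ β h m
    unfold newe
    split_ifs <;> omega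
  · exact le_bnd (K := 0) (fun m m' e => Or.inl (h₃ m m' e)) hm

noncomputable def aupd (l₀ l₁ : Loc) (n : ℕ) (F : Finset Θ) (K : ℕ) : Loc :=
  retile l₁ (newe l₀.e l₁.e n K 0) fun β => if β ∈ F then l₀.k β else max K (l₁.k β)

/-- Following a branch. -/
noncomputable def sig (l : Loc) (F : Finset Θ) (n : ℕ) (σ : Θ → ℕ → Bool) : Loc :=
  setr l (fun β => if β ∈ F then n else 0) σ

theorem sig_g_not {F : Finset Θ} {β : Θ} (h : β ∉ F) (l : Loc) (n : ℕ) (σ : Θ → ℕ → Bool) :
    (sig l F n σ).g β = l.g β := setr_g_of_le _ (by simp [h])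

theorem sig_g_mem {F : Finset Θ} {β : Θ} (h : β ∈ F) (l : Loc) (n : ℕ) (σ : Θ → ℕ → Bool)
    (m : ℕ) : (sig l F n σ).g β m = if l.e m ≤ l.k β then (l.c β m).toNat else
      if l.e m ≤ n then (σ β (l.e m)).toNat else l.e m + 1 := by
  rw [sig, setr_g, if_pos h]

theorem sig_le {F : Finset Θ} {β : Θ} (h : β ∈ F) {l l₁ : Loc} {n : ℕ} {σ : Θ → ℕ → Bool}
    (r : Ref ((sig l F n σ).g β) (l₁.g β)) {m : ℕ} (hm : l.e m ≤ n) : l₁.e m ≤ l₁.k β :=
  r.le (by simp [sig, setr, h, hm])

theorem ref_aupd_sig {l₀ l₁ : Loc} {n K : ℕ} {F : Finset Θ} {σ : Θ → ℕ → Bool}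
    (hK : n ≤ K) (hF : ∀ β ∈ F, l₀.k β < n ∧ l₁.k β ≤ K ∧ Ref ((sig l₀ F n σ).g β) (l₁.g β))
    (hle : ∀ m, l₀.e m ≤ n → l₁.e m ≤ K) (β : Θ) :
    Ref (l₁.g β) ((sig (aupd l₀ l₁ n F K) F n σ).g β) := by
  by_cases h : β ∈ F
  · obtain ⟨h₁, h₂, h₃⟩ := hF β h
    refine ref_of (fun m hm => ?_) fun m m' hm e => ?_
    · have h₄ := h₃.1 m
      rw [sig_g_mem h, g_of_le hm] at h₄
      rw [sig_g_mem h]
      simp only [aupd, retile, newe, if_pos h, if_pos hm, if_pos (hm.trans h₂)]
      by_cases h₅ : l₀.e m ≤ n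
      · simp only [if_pos h₅] at h₄ ⊢
        split_ifs at h₄ ⊢ with h₆
        · rfl
        · exact (h₄ (Bool.toNat_le _)).symm
      · simp [h₅]
    · have h₄ : ¬ l₀.e m ≤ n := fun h' => (sig_le h h₃ h').not_gt hm
      have h₅ : ¬ l₀.e m' ≤ n := fun h' => (sig_le h h₃ h').not_gt (e ▸ hm)
      rw [sig_g_mem h, sig_g_mem h]
      simp only [aupd, retile, newe, if_pos h, if_neg h₄, if_neg h₅, ← e, if_neg hm.not_ge]
  · rw [sig_g_not h]
    refine ref_retile (fun m hm => ?_) fun m m' _ e => ?_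
    · simp only [if_neg h, newe]
      split_ifs <;> omega
    · have h₁ := hle m
      have h₂ := hle m'
      simp only [if_neg h, newe]
      split_ifs <;> omega

theorem ref_aupd {l₀ l₁ : Loc} {n K : ℕ} {F : Finset Θ} {σ : Θ → ℕ → Bool}
    (hK : n ≤ K) (hF : ∀ β ∈ F, l₀.k β < n ∧ l₁.k β ≤ K ∧ Ref ((sig l₀ F n σ).g β) (l₁.g β))
    (hle : ∀ m, l₀.e m ≤ n → l₁.e m ≤ K) {β : Θ} (hβ : Ref ((sig l₀ F n σ).g β) (l₁.g β)) :
    Ref (l₀.g β) ((aupd l₀ l₁ n F K).g β) := by
  by_cases h : β ∈ F
  · obtain ⟨h₁, h₂, h₃⟩ := hF β h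
    refine ref_of (fun m hm => ?_) fun m m' hm e => ?_
    · have h₄ := h₃.1 m
      have h₅ := sig_le h h₃ (hm.trans h₁.le)
      rw [sig_g_mem h, g_of_le h₅, if_pos hm] at h₄
      simp only [Loc.g, aupd, retile, newe, if_pos h, if_pos hm, if_pos (hm.trans h₁.le), if_pos h₅]
      exact h₄ (Bool.toNat_le _)
    · by_cases h₄ : l₀.e m ≤ n
      · simp only [Loc.g, aupd, retile, newe, if_pos h, ← e, if_pos h₄, if_neg hm.not_ge]
      · have h₅ := h₃.2 m m' (by
          rw [sig_g_mem h, sig_g_mem h, ← e, if_neg hm.not_ge, if_neg h₄, if_neg hm.not_ge])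
        simp only [Loc.g, aupd, retile, newe, if_pos h, ← e, if_neg h₄]
        rcases le_or_gt (l₁.e m) (l₁.k β) with h₆ | h₆
        · have h₇ : l₁.e m' ≤ l₁.k β := g_le_one.1 (h₅ ▸ g_le_one.2 h₆)
          rw [g_of_le h₆, g_of_le h₇] at h₅
          simp [h₆, h₇, h₆.trans h₂, h₇.trans h₂, h₅]
        · simp only [← (g_eq h₆).1 h₅, if_neg h₆.not_ge]
  · have h₁ := ref_aupd_sig hK hF hle β
    rw [sig_g_not h] at hβ h₁
    exact hβ.trans h₁

theorem ref_sig_sig {l l' : Loc} {n n' : ℕ} {F F' : Finset Θ} {σ σ' : Θ → ℕ → Bool} {β : Θ}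
    (h : Ref (l.g β) (l'.g β))
    (hβ : β ∈ F → β ∈ F' ∧ n ≤ n' ∧ l'.k β = l.k β ∧ (∀ m, l.e m ≤ n → l'.e m = l.e m) ∧
      ∀ j ≤ n, σ' β j = σ β j) : Ref ((sig l F n σ).g β) ((sig l' F' n' σ').g β) := by
  refine ref_setr_of (h.trans (ref_setr _ _ _ _)) fun m h₁ h₂ => ?_
  split_ifs at h₂ with h₃
  · obtain ⟨h₄, h₅, h₆, h₇, h₈⟩ := hβ h₃
    rw [sig_g_mem h₄, h₆, h₇ m h₂, if_neg h₁.not_ge, if_pos (h₂.trans h₅), h₈ _ h₂]
  · omega

/-! ### Limits -/

noncomputable def lim (a : ℕ → ℕ) : ℕ := sInf {v | ∃ i, ∀ j, i ≤ j → a j = v}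

theorem lim_eq {a : ℕ → ℕ} {i v : ℕ} (h : ∀ j, i ≤ j → a j = v) : lim a = v := by
  have : {v | ∃ i, ∀ j, i ≤ j → a j = v} = {v} := by
    refine eq_singleton_iff_unique_mem.2 ⟨⟨i, h⟩, ?_⟩
    rintro w ⟨i', h'⟩
    exact (h' _ (le_max_right i i')).symm.trans (h _ (le_max_left _ _))
  rw [lim, this, csInf_singleton]

noncomputable def limL (l : ℕ → Loc) : Loc :=
  ⟨fun m => lim fun j => (l j).e m, fun β m => decide (lim (fun j => (l j).g β m) = 1),
    fun β => lim fun j => (l j).k β⟩

theorem ref_limL {l : ℕ → Loc} {β : Θ} {i : ℕ}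
    (h : ∀ j j', i ≤ j → j ≤ j' → Ref ((l j).g β) ((l j').g β))
    (he : ∀ m, ∃ j v, ∀ j', j ≤ j' → (l j').e m = v) (hk : ∃ j v, ∀ j', j ≤ j' → (l j').k β = v) :
    Ref ((l i).g β) ((limL l).g β) := by
  have H : ∀ m, ∃ j, ∀ j', j ≤ j' → (l j').g β m = (limL l).g β m := by
    intro m
    obtain ⟨j₁, v, h₁⟩ := he m
    obtain ⟨j₂, w, h₂⟩ := hk
    have e₁ : (limL l).e m = v := lim_eq h₁
    have e₂ : (limL l).k β = w := lim_eq h₂
    let j := max i (max j₁ j₂)
    have h₃ : ∀ j', j ≤ j' → (l j').e m = v ∧ (l j').k β = w := fun j' hj =>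
      ⟨h₁ j' (by omega), h₂ j' (by omega)⟩
    refine ⟨j, fun j' hj => ?_⟩
    rcases le_or_gt v w with h₄ | h₄
    · have h₅ : (l j).g β m ≤ 1 := g_le_one.2 (by rw [(h₃ j le_rfl).1, (h₃ j le_rfl).2]; exact h₄)
      have h₆ : ∀ j', j ≤ j' → (l j').g β m = (l j).g β m := fun j' hj =>
        (h j j' (le_max_left _ _) hj).1 m h₅
      rw [g_of_le (l := limL l) (by rw [e₁, e₂]; exact h₄), h₆ j' hj]
      simp only [limL, lim_eq h₆]
      rcases Nat.le_one_iff_eq_zero_or_eq_one.1 h₅ with h₇ | h₇ <;> simp [h₇]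
    · rw [g_of_lt (l := limL l) (by rw [e₁, e₂]; exact h₄),
        g_of_lt (by rw [(h₃ j' hj).1, (h₃ j' hj).2]; exact h₄), e₁, (h₃ j' hj).1]
  refine ⟨fun m hm => ?_, fun m m' e => ?_⟩
  · obtain ⟨j, hj⟩ := H m
    rw [← hj _ (le_max_left j i)]
    exact (h i _ le_rfl (le_max_right _ _)).1 m hm
  · obtain ⟨j, hj⟩ := H m
    obtain ⟨j', hj'⟩ := H m'
    rw [← hj (max i (max j j')) (by omega), ← hj' (max i (max j j')) (by omega)]
    exact (h i _ le_rfl (le_max_left _ _)).2 m m' e

/-! ### Measurability -/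

section Meas

variable {α : Type*} {mα : MeasurableSpace α}

theorem meas_one {A C : Type*} [MeasurableSpace A] [MeasurableSpace C] [Countable A]
    [MeasurableSingletonClass A] (φ : A → C) {f : α → A} (hf : Measurable f) :
    Measurable fun x => φ (f x) := (measurable_of_countable φ).comp hf

theorem meas_two {C : Type*} [MeasurableSpace C] (φ : ℕ → ℕ → C) {f g : α → ℕ}
    (hf : Measurable f) (hg : Measurable g) : Measurable fun x => φ (f x) (g x) :=
  (measurable_of_countable fun z : ℕ × ℕ => φ z.1 z.2).comp (hf.prodMk hg)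

theorem meas_le {f g : α → ℕ} (hf : Measurable f) (hg : Measurable g) :
    Measurable fun x => f x ≤ g x := meas_two (· ≤ ·) hf hg

theorem meas_lt {f g : α → ℕ} (hf : Measurable f) (hg : Measurable g) :
    Measurable fun x => f x < g x := meas_two (· < ·) hf hg

theorem meas_eq {f g : α → ℕ} (hf : Measurable f) (hg : Measurable g) :
    Measurable fun x => f x = g x := meas_two (· = ·) hf hg

theorem meas_max {f g : α → ℕ} (hf : Measurable f) (hg : Measurable g) :
    Measurable fun x => max (f x) (g x) := meas_two max hf hg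

theorem meas_min {f g : α → ℕ} (hf : Measurable f) (hg : Measurable g) :
    Measurable fun x => min (f x) (g x) := meas_two min hf hg

theorem meas_succ {f : α → ℕ} (hf : Measurable f) : Measurable fun x => f x + 1 :=
  meas_one (· + 1) hf

theorem meas_toNat {f : α → Bool} (hf : Measurable f) : Measurable fun x => (f x).toNat :=
  meas_one Bool.toNat hf

theorem meas_beq {f : α → Bool} (hf : Measurable f) (b : Bool) : Measurable fun x => f x = b :=
  meas_one (· = b) hf

theorem meas_ite {C : Type*} [MeasurableSpace C] {p : α → Prop} {_ : DecidablePred p}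
    {f g : α → C} (hp : Measurable p) (hf : Measurable f) (hg : Measurable g) :
    Measurable fun x => if p x then f x else g x := Measurable.ite hp.setOf hf hg

theorem meas_decide {p : α → Prop} {_ : DecidablePred p} (hp : Measurable p) :
    Measurable fun x => decide (p x) := by
  have : (fun x => decide (p x)) = fun x => if p x then true else false := by
    funext x; simp
  rw [this]
  exact meas_ite hp measurable_const measurable_const

theorem meas_sInf {p : ℕ → α → Prop} (hp : ∀ n, Measurable (p n)) :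
    Measurable fun x => sInf {n | p n x} := by
  refine measurable_to_countable' fun v => ?_
  have : (fun x => sInf {n | p n x}) ⁻¹' {v} =
      {x | (p v x ∧ ∀ n, n < v → ¬ p n x) ∨ (v = 0 ∧ ∀ n, ¬ p n x)} := by
    ext x
    simp only [mem_preimage, mem_singleton_iff, mem_ofPred_eq]
    by_cases h : ∃ n, p n x
    · constructor
      · rintro rfl
        exact Or.inl ⟨Nat.sInf_mem h, fun n hn => Nat.notMem_of_lt_sInf hn⟩
      · rintro (⟨h₁, h₂⟩ | ⟨-, h₂⟩)
        · exact le_antisymm (Nat.sInf_le h₁) (not_lt.1 fun h₃ => h₂ _ h₃ (Nat.sInf_mem h))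
        · exact absurd h (not_exists.2 h₂)
    · push Not at h
      simp [h, eq_comm]
  rw [this]
  exact (((hp v).and (.forall fun n => measurable_const.imp (hp n).not)).or
    (measurable_const.and (.forall fun n => (hp n).not))).setOf

theorem meas_ball {ι : Type*} {T : Set ι} (hT : T.Countable) {p : ι → α → Prop}
    (hp : ∀ i ∈ T, Measurable (p i)) : Measurable fun x => ∀ i ∈ T, p i x := by
  have := hT.to_subtype
  simpa using Measurable.forall (p := fun (i : T) x => p i x) fun i => hp i i.2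

theorem meas_sup {ι : Type*} (F : Finset ι) {f : ι → α → ℕ} (hf : ∀ i, Measurable (f i)) :
    Measurable fun x => F.sup fun i => f i x := by
  induction F using Finset.induction_on with
  | empty => simp
  | insert i F _ ih => simpa [Finset.sup_insert] using meas_max (hf i) ih

theorem meas_app {C : Type*} [MeasurableSpace C] {F : ℕ → α → C} {f : α → ℕ}
    (hF : ∀ n, Measurable (F n)) (hf : Measurable f) : Measurable fun x => F (f x) x :=
  (measurable_from_prod_countable_left (f := fun z : α × ℕ => F z.2 z.1) hF).comp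
    (measurable_id.prodMk hf)

/-- Selecting along finitely many measurable bits. -/
theorem meas_sel {ι C : Type*} [MeasurableSpace C] (F : Finset ι) {Φ : (ι → Bool) → α → C}
    {φ : α → ι → Bool} (hΦ : ∀ f, Measurable (Φ f))
    (dep : ∀ f f', (∀ i ∈ F, f i = f' i) → Φ f = Φ f')
    (hφ : ∀ i ∈ F, Measurable fun x => φ x i) : Measurable fun x => Φ (φ x) x := by
  intro s hs
  have : (fun x => Φ (φ x) x) ⁻¹' s = ⋃ S ∈ F.powerset,
      {x | ∀ i ∈ (F : Set ι), φ x i = decide (i ∈ S)} ∩ Φ (fun i => decide (i ∈ S)) ⁻¹' s := by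
    ext x
    simp only [mem_preimage, mem_iUnion, mem_inter_iff, mem_ofPred_eq, exists_prop]
    constructor
    · intro h
      have h₁ : ∀ i ∈ F, φ x i = decide (i ∈ F.filter fun i => φ x i = true) := fun i hi => by
        simp [hi]
      exact ⟨_, Finset.mem_powerset.2 (Finset.filter_subset _ _), h₁, dep _ _ h₁ ▸ h⟩
    · rintro ⟨S, -, h₁, h₂⟩
      rwa [dep _ _ h₁]
  rw [this]
  exact Finset.measurableSet_biUnion _ fun S _ =>
    (meas_ball F.countable_toSet fun i hi => meas_beq (hφ i hi) _).setOf.inter (hΦ _ hs)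

theorem meas_and {p q : α → Prop} (hp : Measurable p) (hq : Measurable q) :
    Measurable fun x => p x ∧ q x := hp.and hq

theorem meas_or {p q : α → Prop} (hp : Measurable p) (hq : Measurable q) :
    Measurable fun x => p x ∨ q x := hp.or hq

theorem meas_imp {p q : α → Prop} (hp : Measurable p) (hq : Measurable q) :
    Measurable fun x => p x → q x := hp.imp hq

theorem meas_iff {p q : α → Prop} (hp : Measurable p) (hq : Measurable q) :
    Measurable fun x => p x ↔ q x := hp.iff hq

theorem meas_not {p : α → Prop} (hp : Measurable p) : Measurable fun x => ¬ p x := hp.not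

theorem meas_all {ι : Type*} [Countable ι] {p : ι → α → Prop} (hp : ∀ i, Measurable (p i)) :
    Measurable fun x => ∀ i, p i x := .forall hp

theorem meas_ex {ι : Type*} [Countable ι] {p : ι → α → Prop} (hp : ∀ i, Measurable (p i)) :
    Measurable fun x => ∃ i, p i x := .exists hp

theorem meas_set {p : α → Prop} (hp : Measurable p) : MeasurableSet {x | p x} := hp.setOf

theorem meas_mem {S : Set α} (h : MeasurableSet S) : Measurable fun x => x ∈ S := h.mem

theorem meas_of_set {p : α → Prop} (h : MeasurableSet {x | p x}) : Measurable p := h.mem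

/-- Measurable local data. -/
structure LM (mα : MeasurableSpace α) (l : α → Loc) : Prop where
  e : ∀ m, Measurable fun x => (l x).e m
  c : ∀ β m, Measurable fun x => (l x).c β m
  k : ∀ β, Measurable fun x => (l x).k β

variable {l l' : α → Loc}

theorem LM.const (l : Loc) : LM mα fun _ => l :=
  ⟨fun _ => measurable_const, fun _ _ => measurable_const, fun _ => measurable_const⟩

theorem LM.mono {mα' : MeasurableSpace α} (h : LM mα l) (hm : mα ≤ mα') : LM mα' l :=
  ⟨fun m => (h.e m).mono hm le_rfl, fun β m => (h.c β m).mono hm le_rfl,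
    fun β => (h.k β).mono hm le_rfl⟩

theorem LM.g (h : LM mα l) (β : Θ) (m : ℕ) : Measurable fun x => (l x).g β m := by
  unfold Loc.g
  repeat' first
    | assumption | exact measurable_const | apply LM.e | apply LM.c | apply LM.k
    | apply meas_ite | apply meas_le | apply meas_lt | apply meas_eq | apply meas_max
    | apply meas_min | apply meas_succ | apply meas_toNat | apply meas_decide | apply meas_sInf
    | apply meas_and | apply meas_or | apply meas_not | apply meas_iff
    | apply meas_imp | apply meas_all | apply meas_ex | (with_reducible apply meas_set)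
    | (with_reducible intro _)
    | solve_by_elim

theorem meas_ref {γ γ' : α → ℕ → ℕ} (h : ∀ m, Measurable fun x => γ x m)
    (h' : ∀ m, Measurable fun x => γ' x m) : Measurable fun x => Ref (γ x) (γ' x) := by
  unfold Ref
  repeat' first
    | assumption | exact measurable_const | apply LM.e | apply LM.c | apply LM.k
    | apply meas_ite | apply meas_le | apply meas_lt | apply meas_eq | apply meas_max
    | apply meas_min | apply meas_succ | apply meas_toNat | apply meas_decide | apply meas_sInf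
    | apply meas_and | apply meas_or | apply meas_not | apply meas_iff
    | apply meas_imp | apply meas_all | apply meas_ex | (with_reducible apply meas_set)
    | (with_reducible intro _)
    | solve_by_elim

theorem meas_rel {T : Set Θ} (hT : T.Countable) (h : LM mα l) (h' : LM mα l') :
    Measurable fun x => Rel T (l x) (l' x) :=
  meas_ball hT fun β _ => meas_ref (h.g β) (h'.g β)

theorem meas_bnd {e e' : α → ℕ → ℕ} {k : α → ℕ} (h : ∀ m, Measurable fun x => e x m)
    (h' : ∀ m, Measurable fun x => e' x m) (hk : Measurable k) :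
    Measurable fun x => bnd (e x) (e' x) (k x) := by
  unfold bnd
  repeat' first
    | assumption | exact measurable_const | apply LM.e | apply LM.c | apply LM.k
    | apply meas_ite | apply meas_le | apply meas_lt | apply meas_eq | apply meas_max
    | apply meas_min | apply meas_succ | apply meas_toNat | apply meas_decide | apply meas_sInf
    | apply meas_and | apply meas_or | apply meas_not | apply meas_iff
    | apply meas_imp | apply meas_all | apply meas_ex | (with_reducible apply meas_set)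
    | (with_reducible intro _)
    | solve_by_elim

theorem LM.ite {p : α → Prop} {_ : DecidablePred p} (hp : Measurable p) (h : LM mα l)
    (h' : LM mα l') : LM mα fun x => if p x then l x else l' x := by
  refine ⟨fun m => ?_, fun β m => ?_, fun β => ?_⟩
  · simp only [apply_ite Loc.e, ite_apply]
    repeat' first
      | assumption | exact measurable_const | apply LM.e | apply LM.c | apply LM.k
      | apply meas_ite | apply meas_le | apply meas_lt | apply meas_eq | apply meas_max
      | apply meas_min | apply meas_succ | apply meas_toNat | apply meas_decide | apply meas_sInf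
      | apply meas_and | apply meas_or | apply meas_not | apply meas_iff
      | apply meas_imp | apply meas_all | apply meas_ex | (with_reducible apply meas_set)
      | (with_reducible intro _)
      | solve_by_elim
  · simp only [apply_ite Loc.c, ite_apply]
    repeat' first
      | assumption | exact measurable_const | apply LM.e | apply LM.c | apply LM.k
      | apply meas_ite | apply meas_le | apply meas_lt | apply meas_eq | apply meas_max
      | apply meas_min | apply meas_succ | apply meas_toNat | apply meas_decide | apply meas_sInf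
      | apply meas_and | apply meas_or | apply meas_not | apply meas_iff
      | apply meas_imp | apply meas_all | apply meas_ex | (with_reducible apply meas_set)
      | (with_reducible intro _)
      | solve_by_elim
  · simp only [apply_ite Loc.k, ite_apply]
    repeat' first
      | assumption | exact measurable_const | apply LM.e | apply LM.c | apply LM.k
      | apply meas_ite | apply meas_le | apply meas_lt | apply meas_eq | apply meas_max
      | apply meas_min | apply meas_succ | apply meas_toNat | apply meas_decide | apply meas_sInf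
      | apply meas_and | apply meas_or | apply meas_not | apply meas_iff
      | apply meas_imp | apply meas_all | apply meas_ex | (with_reducible apply meas_set)
      | (with_reducible intro _)
      | solve_by_elim

theorem LM.retile (h : LM mα l) {e : α → ℕ → ℕ} {k : α → Θ → ℕ}
    (he : ∀ m, Measurable fun x => e x m) (hk : ∀ β, Measurable fun x => k x β) :
    LM mα fun x => retile (l x) (e x) (k x) :=
  ⟨he, fun β m => meas_ite (meas_le (h.e m) (h.k β)) (h.c β m) measurable_const, hk⟩

theorem LM.adopt (h : LM mα l) {e : α → ℕ → ℕ} {K : α → ℕ}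
    (he : ∀ m, Measurable fun x => e x m) (hK : Measurable K) :
    LM mα fun x => adopt (l x) (e x) (K x) :=
  h.retile he fun β => meas_max hK (meas_bnd h.e he (h.k β))

theorem LM.setr (h : LM mα l) {k : α → Θ → ℕ} (val : Θ → ℕ → Bool)
    (hk : ∀ β, Measurable fun x => k x β) : LM mα fun x => setr (l x) (k x) val :=
  ⟨h.e, fun β m => meas_ite (meas_le (h.e m) (h.k β)) (h.c β m) (meas_one (val β) (h.e m)),
    fun β => meas_max (h.k β) (hk β)⟩

theorem LM.sig (h : LM mα l) (F : Finset Θ) (n : ℕ) (σ : Θ → ℕ → Bool) :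
    LM mα fun x => sig (l x) F n σ := h.setr σ fun _ => measurable_const

theorem LM.mix (T : Set Θ) (h : LM mα l) (h' : LM mα l') : LM mα fun x => mix T (l x) (l' x) := by
  refine ⟨h.e, fun β m => ?_, fun β => ?_⟩
  · simp only [Pool.Agent.MP_9c82b4_lc.mix, ite_apply]
    repeat' first
      | assumption | exact measurable_const | apply LM.e | apply LM.c | apply LM.k
      | apply meas_ite | apply meas_le | apply meas_lt | apply meas_eq | apply meas_max
      | apply meas_min | apply meas_succ | apply meas_toNat | apply meas_decide | apply meas_sInf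
      | apply meas_and | apply meas_or | apply meas_not | apply meas_iff
      | apply meas_imp | apply meas_all | apply meas_ex | (with_reducible apply meas_set)
      | (with_reducible intro _)
      | solve_by_elim
  · simp only [Pool.Agent.MP_9c82b4_lc.mix]
    repeat' first
      | assumption | exact measurable_const | apply LM.e | apply LM.c | apply LM.k
      | apply meas_ite | apply meas_le | apply meas_lt | apply meas_eq | apply meas_max
      | apply meas_min | apply meas_succ | apply meas_toNat | apply meas_decide | apply meas_sInf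
      | apply meas_and | apply meas_or | apply meas_not | apply meas_iff
      | apply meas_imp | apply meas_all | apply meas_ex | (with_reducible apply meas_set)
      | (with_reducible intro _)
      | solve_by_elim

theorem meas_newe {e e' : α → ℕ → ℕ} {K : α → ℕ} (h : ∀ m, Measurable fun x => e x m)
    (h' : ∀ m, Measurable fun x => e' x m) (hK : Measurable K) (n z m : ℕ) :
    Measurable fun x => newe (e x) (e' x) n (K x) z m := by
  unfold newe
  repeat' first
    | assumption | exact measurable_const | apply LM.e | apply LM.c | apply LM.k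
    | apply meas_ite | apply meas_le | apply meas_lt | apply meas_eq | apply meas_max
    | apply meas_min | apply meas_succ | apply meas_toNat | apply meas_decide | apply meas_sInf
    | apply meas_and | apply meas_or | apply meas_not | apply meas_iff
    | apply meas_imp | apply meas_all | apply meas_ex | (with_reducible apply meas_set)
    | (with_reducible intro _)
    | solve_by_elim

theorem LM.bump (h : LM mα l) (n : ℕ) (F : Finset Θ) {e : α → ℕ → ℕ} {K : α → ℕ}
    (he : ∀ m, Measurable fun x => e x m) (hK : Measurable K) :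
    LM mα fun x => bump (l x) n F (e x) (K x) :=
  h.retile (meas_newe h.e he hK n n) fun β => meas_ite measurable_const
    (meas_min (h.k β) measurable_const) (meas_bnd h.e (meas_newe h.e he hK n n) (h.k β))

theorem LM.aupd (h : LM mα l) (h' : LM mα l') (n : ℕ) (F : Finset Θ) {K : α → ℕ}
    (hK : Measurable K) : LM mα fun x => aupd (l x) (l' x) n F (K x) :=
  h'.retile (meas_newe h.e h'.e hK n 0) fun β => meas_ite measurable_const (h.k β)
    (meas_max hK (h'.k β))

theorem meas_lim {a : α → ℕ → ℕ} (h : ∀ j, Measurable fun x => a x j) :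
    Measurable fun x => lim (a x) := by
  unfold lim
  repeat' first
    | assumption | exact measurable_const | apply LM.e | apply LM.c | apply LM.k
    | apply meas_ite | apply meas_le | apply meas_lt | apply meas_eq | apply meas_max
    | apply meas_min | apply meas_succ | apply meas_toNat | apply meas_decide | apply meas_sInf
    | apply meas_and | apply meas_or | apply meas_not | apply meas_iff
    | apply meas_imp | apply meas_all | apply meas_ex | (with_reducible apply meas_set)
    | (with_reducible intro _)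
    | solve_by_elim

theorem LM.limL {l : ℕ → α → Loc} (h : ∀ j, LM mα (l j)) : LM mα fun x => limL fun j => l j x :=
  ⟨fun m => meas_lim fun j => (h j).e m,
    fun β m => meas_decide (meas_eq (meas_lim fun j => (h j).g β m) measurable_const),
    fun β => meas_lim fun j => (h j).k β⟩

theorem LM.sel {ι : Type*} (F : Finset ι) {Φ : (ι → Bool) → α → Loc}
    {φ : α → ι → Bool} (hΦ : ∀ f, LM mα (Φ f))
    (dep : ∀ f f', (∀ i ∈ F, f i = f' i) → Φ f = Φ f')
    (hφ : ∀ i ∈ F, Measurable fun x => φ x i) : LM mα fun x => Φ (φ x) x :=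
  ⟨fun m => meas_sel F (Φ := fun f x => (Φ f x).e m) (fun f => (hΦ f).e m)
      (fun f f' h => by rw [dep f f' h]) hφ,
    fun β m => meas_sel F (Φ := fun f x => (Φ f x).c β m) (fun f => (hΦ f).c β m)
      (fun f f' h => by rw [dep f f' h]) hφ,
    fun β => meas_sel F (Φ := fun f x => (Φ f x).k β) (fun f => (hΦ f).k β)
      (fun f f' h => by rw [dep f f' h]) hφ⟩

end Meas

end Pool.Agent.MP_9c82b4_lc
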