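import Mathlib

namespace Pool.Agent.MP_9c82b4_lc

open Set MeasureTheory ProbabilityTheory Filter
open scoped ENNReal

abbrev Θ : Type 1 := Ordinal.{0}

inductive Ξ : Type 1
  | R (ξ : Θ) (n : ℕ)
  | H (τ β : Θ) (m : ℕ)
  | O (ξ : Θ)

noncomputable def Ξ.lev : Ξ → Θ
  | .R ξ _ => ξ
  | .H τ β _ => max τ β
  | .O ξ => ξ

abbrev X : Type 1 := Ξ → ℕ

def cyl (κ : Ξ) (v : ℕ) : Set X := {x | x κ = v}

@[reducible] def gen (K : Set Ξ) : MeasurableSpace X :=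
  .generateFrom {S | ∃ κ ∈ K, ∃ v, S = cyl κ v}

def mK (A : Set Θ) : Set Ξ := {κ | κ.lev ∈ A}

def fK (A : Set Θ) : Set Ξ := {κ | ∃ ξ ∈ A, ∃ n, κ = .R ξ n}

theorem fK_sub (A : Set Θ) : fK A ⊆ mK A := by
  rintro _ ⟨ξ, h, n, rfl⟩
  exact h

theorem mK_mono {A B : Set Θ} (h : A ⊆ B) : mK A ⊆ mK B := fun _ hκ => h hκ

theorem fK_mono {A B : Set Θ} (h : A ⊆ B) : fK A ⊆ fK B := fun _ ⟨ξ, h₁, h₂⟩ => ⟨ξ, h h₁, h₂⟩

theorem gen_mono {K K' : Set Ξ} (h : K ⊆ K') : gen K ≤ gen K' :=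
  MeasurableSpace.generateFrom_mono fun _ ⟨κ, h₁, h₂⟩ => ⟨κ, h h₁, h₂⟩

theorem gen_cyl {K : Set Ξ} {κ : Ξ} (h : κ ∈ K) (v : ℕ) : MeasurableSet[gen K] (cyl κ v) :=
  MeasurableSpace.measurableSet_generateFrom ⟨κ, h, v, rfl⟩

theorem gen_eval {K : Set Ξ} {κ : Ξ} (h : κ ∈ K) : Measurable[gen K] fun x : X => x κ :=
  @measurable_to_countable' ℕ X _ _ (gen K) _ fun v => gen_cyl h v

theorem gen_le (K : Set Ξ) : gen K ≤ (inferInstance : MeasurableSpace X) := by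
  refine MeasurableSpace.generateFrom_le ?_
  rintro _ ⟨κ, -, v, rfl⟩
  exact (measurable_pi_apply κ : Measurable fun x : X => x κ) (measurableSet_singleton v)

theorem gen_ct {K : Set Ξ} {S : Set X} (h : MeasurableSet[gen K] S) :
    ∃ K₀ ⊆ K, K₀.Countable ∧ MeasurableSet[gen K₀] S := by
  induction S, h using MeasurableSpace.generateFrom_induction with
  | hC S hS _ =>
    obtain ⟨κ, hκ, v, rfl⟩ := hS
    exact ⟨{κ}, by simpa using hκ, countable_singleton _, gen_cyl (mem_singleton κ) v⟩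
  | empty => exact ⟨∅, empty_subset _, countable_empty, @MeasurableSet.empty _ (gen _)⟩
  | compl S _ ih =>
    obtain ⟨K₀, h₁, h₂, h₃⟩ := ih
    exact ⟨K₀, h₁, h₂, h₃.compl⟩
  | iUnion f _ ih =>
    choose K₀ h₁ h₂ h₃ using ih
    exact ⟨⋃ n, K₀ n, iUnion_subset h₁, countable_iUnion h₂,
      MeasurableSet.iUnion fun n => gen_mono (subset_iUnion K₀ n) _ (h₃ n)⟩

theorem gen_inv {K : Set Ξ} {S : Set X} (h : MeasurableSet[gen K] S) {x y : X}
    (e : ∀ κ ∈ K, x κ = y κ) : x ∈ S ↔ y ∈ S := by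
  induction S, h using MeasurableSpace.generateFrom_induction with
  | hC S hS _ =>
    obtain ⟨κ, hκ, v, rfl⟩ := hS
    simp only [cyl, mem_ofPred_eq, e κ hκ]
  | empty => simp
  | compl S _ ih => simp [ih]
  | iUnion f _ ih => simp [ih]

/-- Measurable at level `A`. -/
abbrev MS (A : Set Θ) (S : Set X) : Prop := MeasurableSet[gen (mK A)] S

/-- Measurable in the random coordinates of level `A`. -/
abbrev FS (A : Set Θ) (S : Set X) : Prop := MeasurableSet[gen (fK A)] S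

theorem FS.ms {A : Set Θ} {S : Set X} (h : FS A S) : MS A S := gen_mono (fK_sub A) _ h

theorem FS.mono {A B : Set Θ} {S : Set X} (h : FS A S) (hAB : A ⊆ B) : FS B S :=
  gen_mono (fK_mono hAB) _ h

theorem MS.mono {A B : Set Θ} {S : Set X} (h : MS A S) (hAB : A ⊆ B) : MS B S :=
  gen_mono (mK_mono hAB) _ h

theorem FS.meas {A : Set Θ} {S : Set X} (h : FS A S) : MeasurableSet S := gen_le _ _ h

theorem FS.univ (A : Set Θ) : FS A univ := @MeasurableSet.univ _ (gen _)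

theorem MS.univ (A : Set Θ) : MS A univ := @MeasurableSet.univ _ (gen _)

theorem FS.ct {A : Set Θ} {S : Set X} (h : FS A S) :
    ∃ A₀ ⊆ A, A₀.Countable ∧ FS A₀ S := by
  obtain ⟨K₀, h₁, h₂, h₃⟩ := gen_ct h
  refine ⟨Ξ.lev '' K₀, ?_, h₂.image _, gen_mono (fun κ hκ => ?_) _ h₃⟩
  · rintro _ ⟨κ, hκ, rfl⟩
    exact fK_sub A (h₁ hκ)
  · obtain ⟨ξ, -, n, rfl⟩ := h₁ hκ
    exact ⟨ξ, ⟨_, hκ, rfl⟩, n, rfl⟩

theorem MS.ct {A : Set Θ} {S : Set X} (h : MS A S) :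
    ∃ A₀ ⊆ A, A₀.Countable ∧ MS A₀ S := by
  obtain ⟨K₀, h₁, h₂, h₃⟩ := gen_ct h
  refine ⟨Ξ.lev '' K₀, ?_, h₂.image _, gen_mono (fun κ hκ => mem_image_of_mem Ξ.lev hκ) _ h₃⟩
  rintro _ ⟨κ, hκ, rfl⟩
  exact h₁ hκ

/-! ### The measure -/

def KK (i : ℕ) : ℕ := 4 ^ ((i + 3) ^ 3)

def bb (n : ℕ) : ℕ := KK n * (n + 1) ^ 2 * 2 ^ n

theorem KK_pos (i : ℕ) : 0 < KK i := by unfold KK; positivity

theorem KK_mono : Monotone KK := fun _ _ h =>
  Nat.pow_le_pow_right (by norm_num) (Nat.pow_le_pow_left (by omega) _)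

theorem bb_pos (n : ℕ) : 0 < bb n := by have := KK_pos n; unfold bb; positivity

def wd : Ξ → ℕ
  | .R _ n => bb n
  | _ => 1

theorem wd_pos (κ : Ξ) : 0 < wd κ := by
  cases κ
  exacts [bb_pos _, Nat.one_pos, Nat.one_pos]

noncomputable def nu (κ : Ξ) : Measure ℕ := uniformOn (Finset.range (wd κ) : Set ℕ)

instance (κ : Ξ) : IsProbabilityMeasure (nu κ) :=
  isProbabilityMeasure_uniformOn (Finset.finite_toSet _) ⟨0, by simpa using wd_pos κ⟩

noncomputable def pr : Measure X := Measure.infinitePi nu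

instance : IsProbabilityMeasure pr := by unfold pr; infer_instance

theorem pr_indep {K : Set Ξ} {κ : Ξ} (hκ : κ ∉ K) {E : Set X} (hE : MeasurableSet[gen K] E)
    (v : Set ℕ) : pr (E ∩ {x | x κ ∈ v}) = pr E * nu κ v := by
  have h₁ : iIndepFun (fun (κ : Ξ) (x : X) => x κ) pr :=
    iIndepFun_infinitePi (X := fun _ ω => ω) (by fun_prop)
  rw [iIndepFun_iff_iIndep] at h₁
  have h₂ := indep_iSup_of_disjoint (S := K) (T := {κ})
    (fun i => (measurable_pi_apply i).comap_le) h₁ (by simpa using hκ)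
  rw [Indep_iff] at h₂
  have h₃ : gen K ≤ ⨆ i ∈ K, MeasurableSpace.comap (fun x : X => x i) inferInstance := by
    refine MeasurableSpace.generateFrom_le ?_
    rintro _ ⟨κ, hκ, v, rfl⟩
    refine (le_iSup₂ (f := fun i (_ : i ∈ K) =>
      MeasurableSpace.comap (fun x : X => x i) inferInstance) κ hκ) _ ?_
    exact ⟨{v}, measurableSet_singleton v, rfl⟩
  rw [h₂ E _ (h₃ _ hE)]
  · congr 1
    exact (measurePreserving_eval_infinitePi nu κ).measure_preimage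
      (MeasurableSet.of_discrete (s := v)).nullMeasurableSet
  · refine (le_iSup₂ (f := fun i (_ : i ∈ ({κ} : Set Ξ)) =>
      MeasurableSpace.comap (fun x : X => x i) inferInstance) κ rfl) _ ?_
    exact ⟨v, MeasurableSet.of_discrete, rfl⟩

theorem nu_le (κ : Ξ) (v : Finset ℕ) : nu κ v ≤ v.card / wd κ := by
  unfold nu
  rw [uniformOn_apply_finset, Finset.card_range]
  gcongr
  exact Finset.inter_subset_right

theorem ae_lt_wd (κ : Ξ) : ∀ᵐ x ∂pr, x κ < wd κ := by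
  have h := pr_indep (K := ∅) (κ := κ) (by simp) (@MeasurableSet.univ _ (gen ∅)) {n | ¬ n < wd κ}
  have h₂ : nu κ {n | ¬ n < wd κ} = 0 := by
    unfold nu
    rw [uniformOn_eq_zero_iff (Finset.finite_toSet _)]
    ext n
    simp
  rw [h₂, mul_zero, univ_inter] at h
  exact h

/-- Almost everywhere inclusion. -/
def Sub0 (a b : Set X) : Prop := ∀ᵐ x ∂pr, x ∈ a → x ∈ b

theorem sub0_iff {a b : Set X} : Sub0 a b ↔ pr (a \ b) = 0 := by
  unfold Sub0
  rw [ae_iff]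
  simp only [Classical.not_imp]
  rfl

theorem Sub0.refl (a : Set X) : Sub0 a a := Eventually.of_forall fun _ h => h

theorem Sub0.of_sub {a b : Set X} (h : a ⊆ b) : Sub0 a b := Eventually.of_forall fun _ hx => h hx

theorem Sub0.trans {a b c : Set X} (h₁ : Sub0 a b) (h₂ : Sub0 b c) : Sub0 a c := by
  filter_upwards [h₁, h₂] with x h₁ h₂ h using h₂ (h₁ h)

theorem Sub0.inter {a b c : Set X} (h₁ : Sub0 a b) (h₂ : Sub0 a c) : Sub0 a (b ∩ c) := by
  filter_upwards [h₁, h₂] with x h₁ h₂ h using ⟨h₁ h, h₂ h⟩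

theorem Sub0.le {a b : Set X} (h : Sub0 a b) : pr a ≤ pr b := measure_mono_ae h

theorem Sub0.ne_zero {a b : Set X} (h : Sub0 a b) (ha : pr a ≠ 0) : pr b ≠ 0 :=
  fun e => ha (le_antisymm (e ▸ h.le) zero_le)

theorem sub0_compl {a b : Set X} : Sub0 a bᶜ ↔ pr (a ∩ b) = 0 := by
  rw [sub0_iff, sdiff_compl]

theorem sub0_empty {a : Set X} : Sub0 a ∅ ↔ pr a = 0 := by
  rw [sub0_iff, sdiff_empty]

theorem exists_piece {ι : Type*} {s : Set ι} (hs : s.Countable) {a : Set X} {f : ι → Set X}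
    (ha : pr a ≠ 0) (h : Sub0 a (⋃ i ∈ s, f i)) : ∃ i ∈ s, pr (a ∩ f i) ≠ 0 := by
  by_contra hn
  push Not at hn
  have h₁ : ∀ᵐ x ∂pr, ∀ i ∈ s, x ∈ a → x ∈ (f i)ᶜ :=
    (ae_ball_iff hs).2 fun i hi => sub0_compl.2 (hn i hi)
  refine ha (sub0_empty.1 ?_)
  filter_upwards [h, h₁] with x h₂ h₃ hx
  obtain ⟨i, hi, h₄⟩ := mem_iUnion₂.1 (h₂ hx)
  exact h₃ i hi hx h₄

/-! ### Essential projections -/

def Hull (A : Set Θ) (b d : Set X) : Prop :=
  FS A d ∧ Sub0 b d ∧ ∀ d', FS A d' → Sub0 b d' → Sub0 d d'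

theorem exists_hull (A : Set Θ) (b : Set X) : ∃ d, Hull A b d := by
  obtain ⟨u, -, h₁, h₂⟩ := exists_seq_tendsto_sInf (S := pr '' {d | FS A d ∧ Sub0 b d})
    ⟨_, univ, ⟨FS.univ A, .of_sub (subset_univ _)⟩, rfl⟩ (OrderBot.bddBelow _)
  choose d hd e using h₂
  have hb : Sub0 b (⋂ n, d n) := by
    filter_upwards [ae_all_iff.2 fun n => (hd n).2] with x hx h
    exact mem_iInter.2 fun n => hx n h
  have hm : FS A (⋂ n, d n) := MeasurableSet.iInter fun n => (hd n).1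
  refine ⟨⋂ n, d n, hm, hb, fun d' h₃ h₄ => sub0_iff.2 ?_⟩
  have h₅ : pr (⋂ n, d n) ≤ pr ((⋂ n, d n) ∩ d') :=
    (ge_of_tendsto' h₁ fun n => e n ▸ measure_mono (iInter_subset d n)).trans
      (sInf_le ⟨_, ⟨hm.inter h₃, hb.inter h₄⟩, rfl⟩)
  rw [← measure_sdiff_add_inter _ h₃.meas] at h₅
  have h₆ := measure_ne_top pr ((⋂ n, d n) ∩ d')
  exact le_antisymm ((ENNReal.add_le_add_iff_right h₆).1 (by simpa using h₅)) zero_le

noncomputable def proj (A : Set Θ) (b : Set X) : Set X := Classical.epsilon (Hull A b)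

theorem proj_spec (A : Set Θ) (b : Set X) : Hull A b (proj A b) :=
  Classical.epsilon_spec (exists_hull A b)

theorem proj_fs (A : Set Θ) (b : Set X) : FS A (proj A b) := (proj_spec A b).1

theorem sub_proj (A : Set Θ) (b : Set X) : Sub0 b (proj A b) := (proj_spec A b).2.1

theorem proj_sub {A : Set Θ} {b d : Set X} (hd : FS A d) : Sub0 (proj A b) d ↔ Sub0 b d :=
  ⟨(sub_proj A b).trans, (proj_spec A b).2.2 d hd⟩

theorem proj_mono (A : Set Θ) {a b : Set X} (h : Sub0 a b) : Sub0 (proj A a) (proj A b) :=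
  (proj_sub (proj_fs A b)).2 (h.trans (sub_proj A b))

theorem proj_proj {A B : Set Θ} (h : A ⊆ B) (b : Set X) : proj A (proj B b) = proj A b := by
  have : Hull A (proj B b) = Hull A b := by
    funext d
    unfold Hull
    refine propext (and_congr_right fun hd => and_congr (proj_sub (hd.mono h)) ?_)
    exact forall₂_congr fun d' hd' => by rw [proj_sub (hd'.mono h)]
  unfold proj at this ⊢
  rw [this]

theorem inter_ne_zero {A : Set Θ} {b d : Set X} (hd : FS A d) (h₀ : pr d ≠ 0)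
    (h : Sub0 d (proj A b)) : pr (d ∩ b) ≠ 0 := by
  intro e
  rw [inter_comm, ← sub0_compl, ← proj_sub hd.compl] at e
  refine h₀ (sub0_empty.1 ?_)
  filter_upwards [h, e] with x h₁ h₂ h₃ using h₂ (h₁ h₃) h₃

/-! ### Smallness, closing off and bookkeeping -/

instance small_mK (ν : Θ) : Small.{0} (mK (Iio ν)) := by
  let f : (Iio ν × ℕ) ⊕ (Iio ν × Iio ν × ℕ) ⊕ Iio ν → mK (Iio ν) := fun z => match z with
    | .inl z => ⟨.R z.1 z.2, z.1.2⟩
    | .inr (.inl z) => ⟨.H z.1 z.2.1 z.2.2, max_lt (α := Θ) z.1.2 z.2.1.2⟩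
    | .inr (.inr z) => ⟨.O z, z.2⟩
  refine small_of_surjective (f := f) ?_
  rintro ⟨⟨ξ, n⟩ | ⟨τ, β, m⟩ | ξ, h⟩
  · exact ⟨.inl (⟨ξ, h⟩, n), rfl⟩
  · exact ⟨.inr (.inl (⟨τ, (max_lt_iff (α := Θ)).1 h |>.1⟩, ⟨β, (max_lt_iff (α := Θ)).1 h |>.2⟩, m)),
      rfl⟩
  · exact ⟨.inr (.inr ⟨ξ, h⟩), rfl⟩

/-- Functions that only depend on the coordinates of level below `ν`. -/
def Inv (ν : Θ) (Y : Type*) : Set (X → Y) :=
  {f | ∀ x y : X, (∀ κ ∈ mK (Iio ν), x κ = y κ) → f x = f y}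

instance small_inv (ν : Θ) (Y : Type*) [Small.{0} Y] : Small.{0} (Inv ν Y) := by
  classical
  refine small_of_injective (f := fun (f : Inv ν Y) (z : mK (Iio ν) → ℕ) =>
    f.1 fun κ => if h : κ ∈ mK (Iio ν) then z ⟨κ, h⟩ else 0) fun f g e => ?_
  ext x
  have := congrFun e fun κ => x κ
  simp only at this
  rw [f.2 x _ ?_, this, g.2 x _ ?_] <;>
  · intro κ hκ
    simp [hκ]

theorem inv_of_meas {ν : Θ} {Y : Type*} [MeasurableSpace Y] [MeasurableSingletonClass Y]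
    {f : X → Y} (h : Measurable[gen (mK (Iio ν))] f) : f ∈ Inv ν Y := fun _ y e =>
  ((gen_inv (h (measurableSet_singleton (f y))) e).2 rfl :)

theorem exists_ub (S : Set Θ) [Small.{0} S] : ∃ ν, S ⊆ Iio ν := by
  obtain ⟨a, ha⟩ := Ordinal.bddAbove_of_small (s := S)
  exact ⟨Order.succ a, fun x hx => Order.lt_succ_of_le (ha hx)⟩

theorem exists_ub_ct {S : Set Θ} (h : S.Countable) : ∃ ν, S ⊆ Iio ν :=
  have := h.to_subtype
  exists_ub S

inductive Tr : Type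
  | leaf
  | node (f : ℕ → Tr)

theorem closing (ρ : Θ → Θ) : ∃ ν : Θ, (∀ α < ν, ρ α < ν) ∧
    ∀ S : Set Θ, S.Countable → S ⊆ Iio ν → ∃ α < ν, S ⊆ Iio α := by
  have h₀ : ∀ f : ℕ → Θ, ∃ γ, (∀ n, f n < γ) ∧ ∀ n, ∀ δ < f n, ρ δ < γ := by
    intro f
    obtain ⟨γ, hγ⟩ := exists_ub (range f ∪ ⋃ n, ρ '' Iio (f n))
    exact ⟨γ, fun n => hγ (Or.inl ⟨n, rfl⟩),
      fun n δ h => hγ (Or.inr (mem_iUnion.2 ⟨n, δ, h, rfl⟩))⟩
  choose σ h₁ h₂ using h₀
  let ev : Tr → Θ := fun t => Tr.rec 0 (fun _ ih => σ ih) t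
  have hev : ∀ f, ev (.node f) = σ fun n => ev (f n) := fun _ => rfl
  have hb : BddAbove (range ev) := Ordinal.bddAbove_of_small
  have hlt : ∀ t, ev t < ⨆ t, ev t := fun t =>
    (h₁ (fun _ => ev t) 0).trans_le (le_ciSup hb (.node fun _ => t))
  have hex : ∀ α < ⨆ t, ev t, ∃ t, α < ev t := fun α h =>
    have : Nonempty Tr := ⟨.leaf⟩
    (lt_ciSup_iff hb).1 h
  refine ⟨⨆ t, ev t, fun α h => ?_, fun S hS h => ?_⟩
  · obtain ⟨t, ht⟩ := hex α h
    exact (h₂ (fun _ => ev t) 0 α ht).trans (hlt (.node fun _ => t))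
  · rcases S.eq_empty_or_nonempty with rfl | hne
    · exact ⟨_, hlt .leaf, empty_subset _⟩
    · obtain ⟨f, rfl⟩ := hS.exists_eq_range hne
      choose t ht using fun n => hex (f n) (h ⟨n, rfl⟩)
      refine ⟨_, hlt (.node t), ?_⟩
      rintro _ ⟨n, rfl⟩
      exact (ht n).trans (h₁ (fun n => ev (t n)) n)

theorem exists_book {Y : Type 1} [Nonempty Y] (S : Θ → Set Y) (hS : ∀ ν, Small.{0} (S ν)) :
    ∃ bk : Θ → Θ × Y, ∀ ν, ∀ y ∈ S ν, ∃ ξ, ν ≤ ξ ∧ bk ξ = (ν, y) := by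
  have h₁ : ∀ ν, ∃ s : Θ → Y, S ν ⊆ range s := by
    intro ν
    have := hS ν
    let j : S ν → Θ := fun y => Ordinal.typein (WellOrderingRel (α := Shrink.{0} (S ν)))
      (equivShrink _ y)
    have hj : Function.Injective j :=
      (Ordinal.typein_injective _).comp (equivShrink _).injective
    refine ⟨Function.extend j Subtype.val fun _ => Classical.arbitrary Y, fun y hy => ?_⟩
    exact ⟨j ⟨y, hy⟩, hj.extend_apply _ _ _⟩
  choose s hs using h₁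
  obtain ⟨e⟩ : Nonempty (Θ ≃ Θ × Θ × Θ) := by
    have := Cardinal.mul_eq_self Cardinal.aleph0_lt_univ.{0, 1}.le
    rw [← Cardinal.eq]
    simp [this]
  refine ⟨fun ξ => ((e ξ).1, s (e ξ).1 (e ξ).2.1), fun ν y hy => ?_⟩
  obtain ⟨α, rfl⟩ := hs ν hy
  by_contra hn
  push Not at hn
  refine not_small_ordinal.{0, 0} (small_of_injective
    (f := fun β : Θ => (⟨e.symm (ν, α, β), ?_⟩ : Iio ν)) fun β β' h => ?_)
  · by_contra h
    exact hn _ (not_lt.1 h) (by simp)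
  · simpa using h

end Pool.Agent.MP_9c82b4_lc
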