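import Pool.Agent.MP_c6cf52_lc.Tools
import Pool.Agent.MP_9c82b4_lc.Defs

namespace Pool.Agent.MP_9c82b4_lc

open Pool.Agent.MP_c6cf52_lc Name Gen Set

/-! ### Definability -/

namespace UD

universe v

theorem sub (i j : ℕ) : UDef.{v} (fun _ E w => Sub E (w i) (w j)) := by
  unfold Sub
  repeat' first
    | exact UDef.mem _ _ | apply UDef.imp | apply UDef.all

theorem isFin (i j : ℕ) : UDef.{v} (fun _ E w => IsFin E (w i) (w j)) := by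
  unfold IsFin
  repeat' first
    | exact UDef.mem _ _ | exact UDef.isInj _ _ _ | apply UDef.and | apply UDef.ex

theorem isUltra (i j : ℕ) : UDef.{v} (fun _ E w => IsUltra E (w i) (w j)) := by
  unfold IsUltra
  repeat' first
    | exact UDef.mem _ _ | exact sub _ _
    | apply UDef.and | apply UDef.or | apply UDef.iff | apply UDef.not | apply UDef.imp
    | apply UDef.all | apply UDef.ex

theorem isTop (i j : ℕ) : UDef.{v} (fun _ E w => IsTop E (w i) (w j)) := by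
  unfold IsTop
  repeat' first
    | exact UDef.mem _ _ | exact sub _ _ | exact isFin _ _ | exact UDef.isFun _ _ _
    | exact UDef.app _ _ _
    | apply UDef.and | apply UDef.iff | apply UDef.not | apply UDef.imp
    | apply UDef.all | apply UDef.ex

theorem isRat (i j k : ℕ) : UDef.{v} (fun _ E w => IsRat E (w i) (w j) (w k)) := by
  unfold IsRat
  repeat' first
    | exact UDef.mem _ _ | exact UDef.eq _ _ | exact UDef.isInj _ _ _ | exact UDef.app _ _ _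
    | apply UDef.and | apply UDef.or | apply UDef.not | apply UDef.imp
    | apply UDef.all | apply UDef.ex

theorem nwdIm (i j k l : ℕ) : UDef.{v} (fun _ E w => NwdIm E (w i) (w j) (w k) (w l)) := by
  unfold NwdIm
  repeat' first
    | exact UDef.mem _ _ | exact UDef.app _ _ _
    | apply UDef.and | apply UDef.not | apply UDef.imp | apply UDef.all | apply UDef.ex

end UD

universe u

variable {P : Type u} [Preorder P] [OrderTop P] {g : Gen P}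

noncomputable def nN (k : ℕ) : Name P := ordN natWf ⟨k⟩

noncomputable def wN : Name P := setN natWf Set.univ

theorem nN_mem (k : ℕ) : nN k ∈ g.N := nat_mem _

theorem wN_mem : wN ∈ g.N := g.omega_mem

theorem nN_inj {j k : ℕ} (h : g.v (nN j) = g.v (nN k)) : j = k :=
  congrArg ULift.down (ord_inj natWf natTri (nN_mem j) (nN_mem k) h)

theorem nN_lt {j k : ℕ} : g.E (g.v (nN j)) (g.v (nN k)) ↔ j < k :=
  ord_lt_iff natWf natTri (nN_mem j) (nN_mem k)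

theorem E_nN {k : ℕ} {x : g.M} : g.E x (g.v (nN k)) ↔ ∃ j < k, g.v (nN j) = x := by
  unfold nN
  rw [E_ordN natWf (nat_mem _)]
  exact ⟨fun ⟨y, h₁, _, h₂⟩ => ⟨y.down, h₁, h₂⟩, fun ⟨j, h₁, h₂⟩ => ⟨⟨j⟩, h₁, nat_mem _, h₂⟩⟩

theorem E_wN {x : g.M} : g.E x (g.v wN) ↔ ∃ k, g.v (nN k) = x := by
  unfold wN
  rw [E_setN natWf g.omega_mem]
  exact ⟨fun ⟨y, _, _, h₂⟩ => ⟨y.down, h₂⟩, fun ⟨j, h₂⟩ => ⟨⟨j⟩, trivial, nat_mem _, h₂⟩⟩

theorem nN_wN (k : ℕ) : g.E (g.v (nN k)) (g.v wN) := E_wN.2 ⟨k, rfl⟩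

theorem isOmega : IsOmega g.E (g.v wN) := by
  have succ : ∀ n y, g.E y (g.v (nN (n + 1))) ↔ g.E y (g.v (nN n)) ∨ y = g.v (nN n) := by
    intro n y
    rw [E_nN, E_nN]
    constructor
    · rintro ⟨m, hm, rfl⟩
      rcases Nat.lt_succ_iff_lt_or_eq.1 hm with h | rfl
      exacts [Or.inl ⟨m, h, rfl⟩, Or.inr rfl]
    · rintro (⟨m, hm, rfl⟩ | rfl)
      exacts [⟨m, Nat.lt_succ_of_lt hm, rfl⟩, ⟨n, Nat.lt_succ_self _, rfl⟩]
  have zero : ∀ y, ¬ g.E y (g.v (nN 0)) := fun y hy => by simpa using E_nN.1 hy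
  refine ⟨⟨⟨_, nN_wN 0, zero⟩, fun x hx => ?_⟩, ?_⟩
  · obtain ⟨n, rfl⟩ := E_wN.1 hx
    exact ⟨_, nN_wN (n + 1), succ n⟩
  · rintro a ⟨⟨e, he, h₀⟩, hs⟩ x hx
    obtain ⟨n, rfl⟩ := E_wN.1 hx
    clear hx
    induction n with
    | zero => exact (Gen.ext fun y => iff_of_false (h₀ y) (zero y) : e = _) ▸ he
    | succ n ih =>
      obtain ⟨s, h₁, h₂⟩ := hs _ ih
      exact (Gen.ext fun y => (h₂ y).trans (succ n y).symm : s = _) ▸ h₁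

/-! ### Finite sets -/

theorem exists_set {S : Set g.M} (hS : S.Finite) : ∃ a, ∀ x, g.E x a ↔ x ∈ S := by
  induction S, hS using Set.Finite.induction_on with
  | empty => exact ⟨_, fun x => iff_of_false (not_E_emp x) (notMem_empty x)⟩
  | @insert y S _ _ ih =>
    obtain ⟨a, ha⟩ := ih
    obtain ⟨b, hb⟩ := exists_upair y y
    obtain ⟨c, hc⟩ := exists_upair a b
    obtain ⟨d, hd⟩ := exists_union c
    refine ⟨d, fun x => (hd x).trans ⟨?_, ?_⟩⟩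
    · rintro ⟨z, h₁, h₂⟩
      rcases (hc z).1 h₂ with rfl | rfl
      · exact Or.inr ((ha x).1 h₁)
      · exact Or.inl (by simpa using (hb x).1 h₁)
    · rintro (rfl | h)
      · exact ⟨b, (hb x).2 (Or.inl rfl), (hc b).2 (Or.inr rfl)⟩
      · exact ⟨a, (ha x).2 h, (hc a).2 (Or.inl rfl)⟩

theorem isFin_iff {a : g.M} : IsFin g.E (g.v wN) a ↔ {x | g.E x a}.Finite := by
  constructor
  · rintro ⟨n, f, hn, hf, hinj⟩
    obtain ⟨n, rfl⟩ := E_wN.1 hn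
    have h₁ : {y | g.E y (g.v (nN n))}.Finite := ((finite_Iio n).image fun j => g.v (nN j)).subset
      fun y hy => E_nN.1 hy
    have : ∀ x : {x | g.E x a}, ∃ y : {y | g.E y (g.v (nN n))}, App g.E f x.1 y.1 := fun x =>
      let ⟨y, h₂, h₃⟩ := fun_ex hf x.2
      ⟨⟨y, h₂⟩, h₃⟩
    choose φ hφ using this
    have := h₁.to_subtype
    exact Finite.of_injective φ fun x x' e => Subtype.ext (hinj _ _ _ (hφ x) (e ▸ hφ x'))
  · intro h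
    obtain ⟨n, ⟨e⟩⟩ := Finite.exists_equiv_fin {x | g.E x a} (h := h.to_subtype)
    have := h.to_subtype
    obtain ⟨f, hf⟩ := exists_set (finite_range fun x : {x | g.E x a} => pr x.1 (g.v (nN (e x))))
    have happ : ∀ s t, App g.E f s t ↔ ∃ x : {x | g.E x a}, x.1 = s ∧ g.v (nN (e x)) = t := by
      intro s t
      rw [app_iff, hf]
      exact exists_congr fun x => pr_inj
    refine ⟨_, f, nN_wN n, ⟨fun p hp => ?_, fun x hx => ?_⟩, fun x x' b h₁ h₂ => ?_⟩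
    · obtain ⟨x, rfl⟩ := (hf p).1 hp
      exact ⟨_, _, x.2, nN_lt.2 (e x).2, isPair_pr _ _⟩
    · refine ⟨_, (happ _ _).2 ⟨⟨x, hx⟩, rfl, rfl⟩, fun y hy => ?_⟩
      obtain ⟨x', rfl, rfl⟩ := (happ _ _).1 hy
      rfl
    · obtain ⟨y, rfl, rfl⟩ := (happ _ _).1 h₁
      obtain ⟨y', rfl, e'⟩ := (happ _ _).1 h₂
      rw [e.injective (Fin.ext (nN_inj e'))]

/-! ### Dense sets -/

def denseN (D : Set P) : Name P := Name.mk D (fun _ => emp) (fun d => d.1)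

theorem meets_below {D : Set P} (h : denseN D ∈ g.N) {q : P} (hq : q ∈ g.G)
    (dense : ∀ t ≤ q, ∃ t' ≤ t, t' ∈ D) : ∃ d ∈ D, d ∈ g.G := by
  obtain ⟨r, hr, ρ, -, h' | ⟨i, hi, -⟩⟩ := g.meets 0 .bot 0 [emp, denseN D] (l2 g.emp_mem h)
  · obtain ⟨s, -, h₁, h₂⟩ := g.dir hq hr
    obtain ⟨t, ht, hD⟩ := dense s h₁
    refine absurd (FMem.of_feq (τ := denseN D) (j := ⟨t, hD⟩) le_rfl ?_) (h' t (ht.trans h₂))
    rw [feq_def]
    exact ⟨fun i => i.elim, fun i => i.elim⟩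
  · exact ⟨i.1, i.2, g.up hr hi⟩

theorem dir_fin {ι : Type*} {S : Set ι} (hS : S.Finite) {Φ : ι → P → Prop}
    (mono : ∀ i p q, q ≤ p → Φ i p → Φ i q) (h : ∀ i ∈ S, ∃ p ∈ g.G, Φ i p) {q : P}
    (hq : q ∈ g.G) : ∃ r ∈ g.G, r ≤ q ∧ ∀ i ∈ S, Φ i r := by
  induction S, hS using Set.Finite.induction_on with
  | empty => exact ⟨q, hq, le_rfl, by simp⟩
  | @insert j S _ _ ih =>
    obtain ⟨r, hr, h₁, h₂⟩ := ih fun i hi => h i (mem_insert_of_mem _ hi)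
    obtain ⟨p, hp, h₃⟩ := h j (mem_insert _ _)
    obtain ⟨s, hs, h₄, h₅⟩ := g.dir hr hp
    refine ⟨s, hs, h₄.trans h₁, ?_⟩
    rintro i (rfl | hi)
    exacts [mono _ _ _ h₅ h₃, mono _ _ _ h₄ (h₂ i hi)]

/-- The name of a set of natural numbers decided by conditions. -/
noncomputable def locN (Φ : P → ℕ → Prop) : Name P :=
  Name.mk {x : ℕ × P // Φ x.2 x.1} (fun x => nN x.1.1) (fun x => x.1.2)

theorem E_locN {Φ : P → ℕ → Prop} (h : locN Φ ∈ g.N) {x : g.M} :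
    g.E x (g.v (locN Φ)) ↔ ∃ n, (∃ c ∈ g.G, Φ c n) ∧ g.v (nN n) = x := by
  rw [E_v h]
  exact ⟨fun ⟨⟨⟨n, c⟩, h₀⟩, h₁, _, h₂⟩ => ⟨n, ⟨c, h₁, h₀⟩, h₂⟩,
    fun ⟨n, ⟨c, h₁, h₀⟩, h₂⟩ => ⟨⟨(n, c), h₀⟩, h₁, nN_mem _, h₂⟩⟩

theorem nN_locN {Φ : P → ℕ → Prop} (h : locN Φ ∈ g.N) {n : ℕ} :
    g.E (g.v (nN n)) (g.v (locN Φ)) ↔ ∃ c ∈ g.G, Φ c n := by
  rw [E_locN h]
  exact ⟨fun ⟨j, h₁, h₂⟩ => nN_inj h₂ ▸ h₁, fun h₁ => ⟨n, h₁, rfl⟩⟩

theorem locN_sub {Φ : P → ℕ → Prop} (h : locN Φ ∈ g.N) : Sub g.E (g.v (locN Φ)) (g.v wN) :=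
  fun _ hx =>
  let ⟨k, _, e⟩ := (E_locN h).1 hx
  E_wN.2 ⟨k, e⟩

/-! ### Ultrafilters -/

/-- `S` contains a member of `p`. -/
def Big (p : g.M) (S : Set ℕ) : Prop := ∃ a, g.E a p ∧ ∀ n, g.E (g.v (nN n)) a → n ∈ S

variable {p : g.M}

theorem Big.mono {S T : Set ℕ} (h : Big p S) (hST : S ⊆ T) : Big p T :=
  let ⟨a, h₁, h₂⟩ := h
  ⟨a, h₁, fun n hn => hST (h₂ n hn)⟩

variable (hp : IsUltra g.E (g.v wN) p)
include hp

theorem Big.inter {S T : Set ℕ} (h₁ : Big p S) (h₂ : Big p T) : Big p (S ∩ T) := by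
  obtain ⟨a, ha, hS⟩ := h₁
  obtain ⟨b, hb, hT⟩ := h₂
  obtain ⟨c, hc⟩ := sep_udef (UDef.mem 0 1) [b] a
  exact ⟨c, hp.2.2.1 a b c ha hb hc, fun n hn => ⟨hS n ((hc _).1 hn).1, hT n ((hc _).1 hn).2⟩⟩

theorem Big.nonempty {S : Set ℕ} (h : Big p S) : S.Nonempty := by
  obtain ⟨a, ha, hS⟩ := h
  obtain ⟨h₁, n, hn⟩ := hp.1 a ha
  obtain ⟨k, rfl⟩ := E_wN.1 (h₁ n hn)
  exact ⟨k, hS k hn⟩

theorem big_ne (k : ℕ) : Big p {n | n ≠ k} := by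
  obtain ⟨a, ha, h⟩ := hp.2.2.2.2 _ (nN_wN k)
  exact ⟨a, ha, fun n hn e => h (e ▸ hn)⟩

theorem big_biInter {ι : Type*} {I : Set ι} (hI : I.Finite) {S : ι → Set ℕ}
    (h : ∀ i ∈ I, Big p (S i)) : Big p {n | ∀ i ∈ I, n ∈ S i} := by
  induction I, hI using Set.Finite.induction_on with
  | empty => exact (big_ne hp 0).mono (by simp)
  | @insert j I _ _ ih =>
    refine ((h j (mem_insert _ _)).inter hp (ih fun i hi => h i (mem_insert_of_mem _ hi))).mono ?_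
    rintro n ⟨h₁, h₂⟩ i (rfl | hi)
    exacts [h₁, h₂ i hi]

theorem big_ge (k : ℕ) : Big p {n | k ≤ n} :=
  (big_biInter hp (finite_Iio k) fun i _ => big_ne hp i).mono fun n hn =>
    show k ≤ n from not_lt.1 fun h => hn n h rfl

theorem Big.mem {S : Set ℕ} (h : Big p S) {b : g.M} (hb : Sub g.E b (g.v wN))
    (hS : ∀ n ∈ S, g.E (g.v (nN n)) b) : g.E b p := by
  obtain ⟨a, ha, h⟩ := h
  refine hp.2.1 a b ha (fun x hx => ?_) hb
  obtain ⟨k, rfl⟩ := E_wN.1 ((hp.1 a ha).1 x hx)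
  exact hS k (h k hx)

theorem big_or {b : g.M} (hb : Sub g.E b (g.v wN)) :
    g.E b p ∨ Big p {n | ¬ g.E (g.v (nN n)) b} := by
  obtain ⟨c, hc⟩ := sep_udef (UDef.mem 0 1).not [b] (g.v wN)
  exact (hp.2.2.2.1 b c hb hc).imp id fun h => ⟨c, h, fun n hn => ((hc _).1 hn).2⟩

omit hp

theorem isUltra_of {p : g.M} (h₁ : ∀ a, g.E a p → Sub g.E a (g.v wN))
    (h₂ : ∀ a b c, g.E a p → g.E b p → g.E c p → ∀ n, g.E n (g.v wN) →
      ∃ m, g.E m a ∧ g.E m b ∧ g.E m c ∧ m ≠ n)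
    (h₃ : ∀ a b, Sub g.E a (g.v wN) → (∀ n, g.E n b ↔ g.E n (g.v wN) ∧ ¬ g.E n a) →
      g.E a p ∨ g.E b p) : IsUltra g.E (g.v wN) p := by
  have H : ∀ b, Sub g.E b (g.v wN) → ¬ g.E b p → ∃ c, g.E c p ∧ ∀ n, g.E n c → ¬ g.E n b := by
    intro b hb h
    obtain ⟨c, hc⟩ := sep_udef (UDef.mem 0 1).not [b] (g.v wN)
    exact ⟨c, (h₃ b c hb hc).resolve_left h, fun n hn => ((hc n).1 hn).2⟩
  refine ⟨fun a ha => ⟨h₁ a ha, ?_⟩, fun a b ha hab hb => ?_, fun a b c ha hb hc => ?_, h₃,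
    fun n hn => ?_⟩
  · obtain ⟨m, h, -⟩ := h₂ a a a ha ha ha _ (nN_wN 0)
    exact ⟨m, h⟩
  · by_contra h
    obtain ⟨c, h₄, h₅⟩ := H b hb h
    obtain ⟨m, h₆, h₇, -⟩ := h₂ a c c ha h₄ h₄ _ (nN_wN 0)
    exact h₅ m h₇ (hab m h₆)
  · by_contra h
    obtain ⟨d, h₄, h₅⟩ := H c (fun n hn => h₁ a ha n ((hc n).1 hn).1) h
    obtain ⟨m, h₆, h₇, h₈, -⟩ := h₂ a b d ha hb h₄ _ (nN_wN 0)
    exact h₅ m h₈ ((hc m).2 ⟨h₆, h₇⟩)
  · obtain ⟨b, hb⟩ := exists_upair n n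
    obtain ⟨c, h₄, h₅⟩ := H b (fun x hx => by rcases (hb x).1 hx with rfl | rfl <;> exact hn)
      fun h => by
        obtain ⟨m, h₄, -, -, h₅⟩ := h₂ b b b h h h n hn
        exact h₅ (by simpa using (hb m).1 h₄)
    exact ⟨c, h₄, fun h => h₅ n h ((hb n).2 (Or.inl rfl))⟩

omit [OrderTop P] in
theorem feq_refl : ∀ (σ : Name P) (q : P), FEq σ σ q := by
  intro σ
  induction σ using Name.ind with
  | h σ ih =>
    intro q
    rw [feq_def]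
    exact ⟨fun i r _ h => ⟨r, le_rfl, i, h, ih i r⟩, fun i r _ h => ⟨r, le_rfl, i, h, ih i r⟩⟩

theorem not_fmem {σ τ : Name P} (hσ : σ ∈ g.N) (hτ : τ ∈ g.N) (h : ¬ g.E (g.v σ) (g.v τ)) :
    ∃ q ∈ g.G, ∀ r ≤ q, ¬ FMem σ τ r := by
  obtain ⟨q, hq, ρ, -, h' | ⟨i, hi, e, -⟩⟩ := g.meets 0 .bot 0 [σ, τ] (l2 hσ hτ)
  · exact ⟨q, hq, h'⟩
  · exact absurd ((v_mem_iff hσ hτ).2 ⟨q, hq, FMem.of_feq hi e⟩) h

theorem exists_gen_list (q : P) (l : List (Name P)) : ∃ g : Gen P, q ∈ g.G ∧ ∀ x ∈ l, x ∈ g.N :=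
  exists_gen q {x | x ∈ l} (List.finite_toSet l).countable

end Pool.Agent.MP_9c82b4_lc
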