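import Pool.Agent.MP_9c82b4_lc.Point

namespace Pool.Agent.MP_9c82b4_lc

open Pool.Agent.MP_c6cf52_lc Name Gen Set Filter

variable {g : Gen P} {G : Set Pr}

noncomputable def UN (G : Set Pr) : Name P := Name.mk G (fun z => nm z.1.2) (fun z => z.1.1)

theorem nm_sub {F : X → Set ℕ} (h : nm F ∈ g.N) : Sub g.E (g.v (nm F)) (g.v wN) := locN_sub h

theorem E_UN (h : UN G ∈ g.N) {a : g.M} :
    g.E a (g.v (UN G)) ↔ ∃ z ∈ G, z.1 ∈ g.G ∧ nm z.2 ∈ g.N ∧ g.v (nm z.2) = a := by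
  rw [E_v h]
  exact ⟨fun ⟨z, h⟩ => ⟨z.1, z.2, h⟩, fun ⟨z, h₁, h⟩ => ⟨⟨z, h₁⟩, h⟩⟩

theorem isUltra_UN (h₁ : Fip G)
    (h₂ : ∀ F ∈ Meas univ, ∀ p, ∃ d ≤ p, ∃ c, d ≤ c ∧ ((c, F) ∈ G ∨ (c, cpl F) ∈ G))
    (h : UN G ∈ g.N) : IsUltra g.E (g.v wN) (g.v (UN G)) := by
  refine isUltra_of (fun a ha => ?_) (fun a b c ha hb hc n hn => ?_) fun a b => ?_
  · obtain ⟨z, -, -, k, rfl⟩ := (E_UN h).1 ha
    exact locN_sub k
  · obtain ⟨z₁, a₁, b₁, c₁, rfl⟩ := (E_UN h).1 ha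
    obtain ⟨z₂, a₂, b₂, c₂, rfl⟩ := (E_UN h).1 hb
    obtain ⟨z₃, a₃, b₃, c₃, rfl⟩ := (E_UN h).1 hc
    obtain ⟨n, rfl⟩ := E_wN.1 hn
    have hU : UDef.{2} (fun _ E w => ∃ m, E m (w 0) ∧ E m (w 1) ∧ E m (w 2) ∧ m ≠ w 3) :=
      UDef.ex ((UDef.mem _ _).and ((UDef.mem _ _).and ((UDef.mem _ _).and (UDef.ne _ _))))
    refine dens' hU (l4 c₁ c₂ c₃ (nN_mem n)) fun p hp => ?_
    obtain ⟨d, -, k₁, k₂⟩ := dir_fin (toFinite {z₁, z₂, z₃}) (Φ := fun z d => d ≤ z.1)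
      (fun _ _ _ a b => a.trans b) (by
        rintro z (rfl | rfl | rfl)
        exacts [⟨_, b₁, le_rfl⟩, ⟨_, b₂, le_rfl⟩, ⟨_, b₃, le_rfl⟩]) hp
    obtain ⟨d', k₃, m, k₄, k₅⟩ := h₁ {z₁, z₂, z₃} (by simp [insert_subset_iff, *]) (toFinite _) d k₂
      (n + 1)
    refine ⟨d', k₃.trans k₁, ?_⟩
    filter_upwards [ev_mem (nm z₁.2), ev_mem (nm z₂.2), ev_mem (nm z₃.2)] with g e₁ e₂ e₃ e
    exact ⟨g.v (nN m), (nN_locN e₁).2 ⟨_, e, Force.mono_set k₅ fun x hx => hx _ (by simp)⟩,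
      (nN_locN e₂).2 ⟨_, e, Force.mono_set k₅ fun x hx => hx _ (by simp)⟩,
      (nN_locN e₃).2 ⟨_, e, Force.mono_set k₅ fun x hx => hx _ (by simp)⟩,
      fun e' => (Nat.lt_of_succ_le k₄).ne' (nN_inj e')⟩
  · obtain ⟨σ, hσ, rfl⟩ := exists_v a
    obtain ⟨σ', hσ', rfl⟩ := exists_v b
    have hU : UDef.{2} (fun _ E w => Sub E (w 0) (w 2) →
        (∀ n, E n (w 1) ↔ E n (w 2) ∧ ¬ E n (w 0)) → E (w 0) (w 3) ∨ E (w 1) (w 3)) := by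
      repeat' first
        | exact UDef.mem _ _ | exact UD.sub _ _
        | apply UDef.and | apply UDef.or | apply UDef.iff | apply UDef.not | apply UDef.imp
        | apply UDef.all
    refine dens' hU (l4 hσ hσ' wN_mem h) fun p _ => ?_
    obtain ⟨F, k₁, k₂⟩ := read' σ
    obtain ⟨d, k₃, c, k₄, k₅⟩ := h₂ F k₁ p
    refine ⟨d, k₃, ?_⟩
    filter_upwards [k₂, ev_mem (UN G), point countable_empty countable_empty
      (toFinite {F, cpl F}).countable (by simp [insert_subset_iff, k₁, cpl_meas k₁])]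
      with g e₁ e₂ ⟨x, _, _, e₃⟩ e₄ e₅ e₆
    have f₁ := e₃ F (by simp)
    have f₂ := e₃ (cpl F) (by simp)
    have f₃ := f₁.2
    rw [e₁ e₅] at f₃
    refine k₅.imp (fun k => (E_UN e₂).2 ⟨_, k, g.up e₄ k₄, f₁.1, e₁ e₅⟩) fun k =>
      (E_UN e₂).2 ⟨(c, cpl F), k, g.up e₄ k₄, f₂.1, sub_ext (nm_sub f₂.1)
        (fun n hn => ((e₆ n).1 hn).1) fun m => (f₂.2 m).trans (Iff.trans ?_ (e₆ _).symm)⟩
    exact ⟨fun a => ⟨nN_wN m, fun b => a ((f₃ m).1 b)⟩, fun a b => a.2 ((f₃ m).2 b)⟩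

/-! ### Chains in dense orders -/

noncomputable def ch (lt : ℕ → ℕ → Prop) (i j : ℕ) : ℕ → ℕ
  | 0 => i
  | w + 1 => sInf {a | lt (ch lt i j w) a ∧ lt a j}

theorem ch_spec {lt : ℕ → ℕ → Prop} (irr : ∀ a, ¬ lt a a)
    (tr : ∀ a b c, lt a b → lt b c → lt a c) (dn : ∀ a b, lt a b → ∃ c, lt a c ∧ lt c b)
    {i j : ℕ} (h : lt i j) (w : ℕ) : lt i (ch lt i j (w + 1)) ∧
      lt (ch lt i j (w + 1)) (ch lt i j (w + 2)) ∧ lt (ch lt i j (w + 2)) j ∧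
      ∀ a, lt (ch lt i j (w + 1)) a → lt a (ch lt i j (w + 2)) →
        sInf {w | lt a (ch lt i j (w + 2))} = w := by
  have h₁ : ∀ w, lt (ch lt i j w) j := fun w => by
    induction w with
    | zero => exact h
    | succ w ih => exact (Nat.sInf_mem (dn _ _ ih)).2
  have h₂ : ∀ w w', w < w' → lt (ch lt i j w) (ch lt i j w') := fun w w' h => by
    induction w', h using Nat.le_induction with
    | base => exact (Nat.sInf_mem (dn _ _ (h₁ w))).1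
    | succ w' _ ih => exact tr _ _ _ ih (Nat.sInf_mem (dn _ _ (h₁ w'))).1
  refine ⟨h₂ 0 _ w.succ_pos, h₂ _ _ (by omega), h₁ _, fun a h₃ h₄ => le_antisymm
    (Nat.sInf_le h₄) (not_lt.1 fun h₅ => ?_)⟩
  have h₆ := Nat.sInf_mem (s := {w | lt a (ch lt i j (w + 2))}) ⟨w, h₄⟩
  refine irr a (tr _ _ _ h₆ ?_)
  rcases (Nat.succ_le_of_lt h₅).eq_or_lt with e | e
  · rwa [← e] at h₃
  · exact tr _ _ _ (h₂ _ _ (by omega)) h₃

theorem meas_rel₂ {α : Type*} {_ : MeasurableSpace α} {lt : α → ℕ → ℕ → Prop}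
    (h : ∀ a b, Measurable fun x => lt x a b) {f f' : α → ℕ} (hf : Measurable f)
    (hf' : Measurable f') : Measurable fun x => lt x (f x) (f' x) :=
  meas_app (F := fun a x => lt x a (f' x)) (fun a => meas_app (F := fun b x => lt x a b) (h a) hf') hf

theorem meas_ch {α : Type*} {_ : MeasurableSpace α} {lt : α → ℕ → ℕ → Prop}
    (h : ∀ a b, Measurable fun x => lt x a b) (i j w : ℕ) : Measurable fun x => ch (lt x) i j w := by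
  induction w with
  | zero => exact measurable_const
  | succ w ih => exact meas_sInf fun a => meas_and (meas_rel₂ h ih measurable_const) (h a j)

theorem nwdIm_of {Q r f h A : g.M} (hr : IsRat g.E (g.v wN) Q r) (hh : IsInj g.E h Q (g.v wN))
    (hf : IsFun g.E f (g.v wN) Q) (hA : Sub g.E A (g.v wN)) {lt fv : ℕ → ℕ → Prop}
    (h₁ : ∀ a b, (∃ s t, App g.E h s (g.v (nN a)) ∧ App g.E h t (g.v (nN b)) ∧ App g.E r s t) ↔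
      lt a b)
    (h₂ : ∀ m a, (∃ y, App g.E f (g.v (nN m)) y ∧ App g.E h y (g.v (nN a))) ↔ fv m a)
    (h₃ : ∀ i j, ∃ w, ∀ m, g.E (g.v (nN m)) A →
      sInf {w | lt (sInf {a | fv m a}) (ch lt i j (w + 2))} ≠ w) : NwdIm g.E Q r f A := by
  obtain ⟨-, -, irr, tr, -, dn, -⟩ := hr
  have cd : ∀ s, g.E s Q → ∃ a, App g.E h s (g.v (nN a)) := fun s hs => by
    obtain ⟨b, k₁, k₂⟩ := fun_ex hh.1 hs
    obtain ⟨a, rfl⟩ := E_wN.1 k₁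
    exact ⟨a, k₂⟩
  have mem : ∀ {s a}, App g.E h s a → g.E s Q := fun k => (fun_mem hh.1 k).1
  have key : ∀ {s t a b}, App g.E h s (g.v (nN a)) → App g.E h t (g.v (nN b)) →
      (lt a b ↔ App g.E r s t) := fun k₁ k₂ => (h₁ _ _).symm.trans ⟨fun ⟨_, _, a, b, c⟩ =>
        hh.2 _ _ _ a k₁ ▸ hh.2 _ _ _ b k₂ ▸ c, fun c => ⟨_, _, k₁, k₂, c⟩⟩
  intro s t hs ht hst
  obtain ⟨i, hi⟩ := cd s hs
  obtain ⟨j, hj⟩ := cd t ht
  obtain ⟨w, hw⟩ := h₃ i j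
  obtain ⟨k₁, k₂, k₃, k₄⟩ := ch_spec (lt := lt)
    (fun a k => by
      obtain ⟨s, -, e, -⟩ := (h₁ _ _).2 k
      exact irr s (mem e) ((key e e).1 k))
    (fun a b c k k' => by
      obtain ⟨s, t, e₁, e₂, e₃⟩ := (h₁ _ _).2 k
      obtain ⟨-, u, -, e₄, -⟩ := (h₁ _ _).2 k'
      exact (key e₁ e₄).2 (tr s t u (mem e₁) (mem e₂) (mem e₄) e₃ ((key e₂ e₄).1 k')))
    (fun a b k => by
      obtain ⟨s, t, e₁, e₂, e₃⟩ := (h₁ _ _).2 k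
      obtain ⟨u, e₄, e₅, e₆⟩ := dn s t (mem e₁) (mem e₂) e₃
      obtain ⟨c, e₇⟩ := cd u e₄
      exact ⟨c, (key e₁ e₇).2 e₅, (key e₇ e₂).2 e₆⟩) ((key hi hj).2 hst) w
  obtain ⟨s', t', e₁, e₂, e₃⟩ := (h₁ _ _).2 k₂
  refine ⟨s', t', mem e₁, mem e₂, (key hi e₁).1 k₁, e₃, (key e₂ hj).1 k₃,
    fun n y hn hy ⟨e₄, e₅⟩ => ?_⟩
  obtain ⟨m, rfl⟩ := E_wN.1 (hA n hn)
  obtain ⟨a, ha⟩ := cd y (fun_mem hf hy).2
  have e₆ : {a | fv m a} = {a} := eq_singleton_iff_unique_mem.2 ⟨(h₂ _ _).1 ⟨y, hy, ha⟩,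
    fun b hb => by
      obtain ⟨y', e₆, e₇⟩ := (h₂ _ _).2 hb
      obtain rfl := fun_uniq hf hy e₆
      exact nN_inj (fun_uniq hh.1 e₇ ha)⟩
  refine hw m hn ?_
  rw [e₆, csInf_singleton]
  exact k₄ a ((key e₁ ha).2 e₄) ((key ha e₂).2 e₅)

theorem isNwd_UN (h₀ : ∀ z ∈ G, z.2 ∈ Meas univ)
    (h₁ : ∀ ψ, Arr univ ψ → ∃ ζ, ∀ p, ∃ d ≤ p, ∃ c n₀, d ≤ c ∧ (c, Av ζ ψ n₀) ∈ G)
    (h : UN G ∈ g.N) : IsNwd g.E (g.v wN) (g.v (UN G)) := by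
  intro Q r hr f hf
  obtain ⟨k, hk⟩ := hr.1
  obtain ⟨σQ, hQ, rfl⟩ := exists_v Q
  obtain ⟨σr, hr', rfl⟩ := exists_v r
  obtain ⟨σf, hf', rfl⟩ := exists_v f
  obtain ⟨σk, hk', rfl⟩ := exists_v k
  have hU : UDef.{2} (fun _ E w => IsRat E (w 0) (w 2) (w 3) → IsInj E (w 5) (w 2) (w 0) →
      IsFun E (w 4) (w 0) (w 2) → ∃ A, E A (w 1) ∧ NwdIm E (w 2) (w 3) (w 4) A) :=
    (UD.isRat _ _ _).imp ((UDef.isInj _ _ _).imp ((UDef.isFun _ _ _).imp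
      (UDef.ex ((UDef.mem _ _).and (UD.nwdIm _ _ _ _)))))
  refine dens' hU (lcons wN_mem (lcons h (l4 hQ hr' hf' hk'))) (fun p _ => ?_) hr hk hf
  have hL : UDef.{2} (fun _ E w => ∃ s t, App E (w 0) s (w 2) ∧ App E (w 0) t (w 3) ∧
      App E (w 1) s t) :=
    UDef.ex (UDef.ex ((UDef.app _ _ _).and ((UDef.app _ _ _).and (UDef.app _ _ _))))
  have hF : UDef.{2} (fun _ E w => ∃ y, App E (w 1) (w 2) y ∧ App E (w 0) y (w 3)) :=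
    UDef.ex ((UDef.app _ _ _).and (UDef.app _ _ _))
  choose ξ hξ using fun z : ℕ × ℕ => readF hL [σk, σr, nN z.1, nN z.2]
  choose η hη using fun z : ℕ × ℕ => readF hF [σk, σf, nN z.1, nN z.2]
  obtain ⟨ζ, hζ⟩ := h₁ (fun n m x => sInf {w | x (.O (ξ (sInf {a | x (.O (η (m, a))) = 1},
      ch (fun a b => x (.O (ξ (a, b))) = 1) n.unpair.1.unpair.1 n.unpair.1.unpair.2 (w + 2)))) = 1})
    fun n m => meas_sInf fun w => meas_rel₂ (lt := fun (x : X) a b => x (.O (ξ (a, b))) = 1)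
      (fun _ _ => meas_O _) (meas_sInf fun _ => meas_O _) (meas_ch (fun _ _ => meas_O _) _ _ _)
  obtain ⟨d, k₁, c, n₀, k₂, k₃⟩ := hζ p
  refine ⟨d, k₁, ?_⟩
  filter_upwards [ev_mem (UN G), ev_mem σk, ev_mem σr, ev_mem σf, point countable_empty
    ((countable_range ξ).union (countable_range η)) (countable_singleton _)
    (singleton_subset_iff.2 (h₀ _ k₃))] with g e₁ e₂ e₃ e₄ ⟨x, _, e₅, e₆⟩ e₇ f₁ f₂ f₃
  obtain ⟨e₈, e₉⟩ := e₆ _ rfl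
  refine ⟨_, (E_UN e₁).2 ⟨_, k₃, g.up e₇ k₂, e₈, rfl⟩, nwdIm_of f₁ f₂ f₃ (locN_sub e₈)
    (fun a b => hξ (a, b) g x (l4 e₂ e₃ (nN_mem _) (nN_mem _)) (e₅ _ (Or.inl ⟨_, rfl⟩)))
    (fun a b => hη (a, b) g x (l4 e₂ e₄ (nN_mem _) (nN_mem _)) (e₅ _ (Or.inr ⟨_, rfl⟩)))
    fun i j => ⟨x (.R ζ ((i.pair j).pair n₀)), fun m hm => ?_⟩⟩
  simpa using (e₉ m).1 hm _ (Nat.right_le_pair (i.pair j) n₀)

end Pool.Agent.MP_9c82b4_lc
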