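import Pool.Agent.MP_9c82b4_lc.Filt
import Pool.Agent.MP_9c82b4_lc.Model

namespace Pool.Agent.MP_9c82b4_lc

open Pool.Agent.MP_c6cf52_lc Name Gen Set Filter

section General

universe u

/-- The filter of generics over sufficiently many names. -/
def cof (Q : Type u) [Preorder Q] [OrderTop Q] : Filter (Gen Q) where
  sets := {S | ∃ C : Set (Name Q), C.Countable ∧ ∀ g : Gen Q, C ⊆ g.N → g ∈ S}
  univ_sets := ⟨∅, countable_empty, fun _ _ => trivial⟩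
  sets_of_superset := fun ⟨C, h₁, h₂⟩ h => ⟨C, h₁, fun g hg => h (h₂ g hg)⟩
  inter_sets := fun ⟨C, h₁, h₂⟩ ⟨C', h₃, h₄⟩ => ⟨C ∪ C', h₁.union h₃, fun g hg =>
    ⟨h₂ g (subset_union_left.trans hg), h₄ g (subset_union_right.trans hg)⟩⟩

variable {Q : Type u} [Preorder Q] [OrderTop Q] {g : Gen Q}

instance : CountableInterFilter (cof Q) := ⟨fun S hS h => by
  choose! C h₁ h₂ using h
  exact ⟨⋃ s ∈ S, C s, hS.biUnion h₁, fun g hg s hs =>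
    h₂ s hs g ((subset_biUnion_of_mem hs).trans hg)⟩⟩

theorem ev_mem (σ : Name Q) : ∀ᶠ g in cof Q, σ ∈ g.N :=
  ⟨{σ}, countable_singleton _, fun _ hg => hg rfl⟩

theorem ev_list (l : List (Name Q)) : ∀ᶠ g in cof Q, ∀ x ∈ l, x ∈ g.N :=
  ⟨{x | x ∈ l}, (List.finite_toSet l).countable, fun _ hg => hg⟩

theorem ev_ex {Φ : Gen Q → Prop} (h : ∀ᶠ g in cof Q, Φ g) (p : Q) : ∃ g : Gen Q, p ∈ g.G ∧ Φ g :=
  let ⟨C, h₁, h₂⟩ := h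
  let ⟨g, h₃, h₄⟩ := exists_gen p C h₁
  ⟨g, h₃, h₂ g h₄⟩

theorem ev_below {D : Set Q} {q : Q} (h : ∀ t ≤ q, ∃ t' ≤ t, t' ∈ D) :
    ∀ᶠ g in cof Q, q ∈ g.G → ∃ d ∈ D, d ∈ g.G :=
  (ev_mem (denseN D)).mono fun _ hg hq => meets_below hg hq h

theorem dens' {Ψ : ∀ (M : Type (u + 1)), (M → M → Prop) → (ℕ → M) → Prop} (h : UDef Ψ)
    {l : List (Name Q)} (hl : ∀ x ∈ l, x ∈ g.N)
    (H : ∀ p ∈ g.G, ∃ q ≤ p, ∀ᶠ g' in cof Q, q ∈ g'.G → Ψ g'.M g'.E (g'.w l)) :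
    Ψ g.M g.E (g.w l) :=
  dens h hl fun p hp =>
    let ⟨q, h₁, C, h₂, h₃⟩ := H p hp
    ⟨q, h₁, C, h₂, fun g' a b _ => h₃ g' b a⟩

theorem transfer' {Ψ : ∀ (M : Type (u + 1)), (M → M → Prop) → (ℕ → M) → Prop} (h : UDef Ψ)
    {l : List (Name Q)} (hl : ∀ x ∈ l, x ∈ g.N) (hΨ : Ψ g.M g.E (g.w l)) :
    ∃ p ∈ g.G, ∀ᶠ g' in cof Q, p ∈ g'.G → Ψ g'.M g'.E (g'.w l) :=
  let ⟨p, h₁, h₂⟩ := transfer h hl hΨ
  ⟨p, h₁, (ev_list l).mono fun g' a b => h₂ g' b a⟩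

theorem sub_ext {a b : g.M} (ha : Sub g.E a (g.v wN)) (hb : Sub g.E b (g.v wN))
    (h : ∀ m, g.E (g.v (nN m)) a ↔ g.E (g.v (nN m)) b) : a = b := by
  refine Gen.ext fun x => ⟨fun hx => ?_, fun hx => ?_⟩
  · obtain ⟨m, rfl⟩ := E_wN.1 (ha x hx)
    exact (h m).1 hx
  · obtain ⟨m, rfl⟩ := E_wN.1 (hb x hx)
    exact (h m).2 hx

end General

variable {g : Gen P}

theorem exists_wit (S : Set X) : ∃ 𝒟 : Set (Set Pre), 𝒟.Countable ∧ (∀ D ∈ 𝒟, Dense univ D) ∧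
    ∀ s, Chain univ s → (∀ D ∈ 𝒟, ∃ n, ∃ d ∈ D, Le (s n) d) → ∀ c : P, Frc c S →
      (∀ n, ∃ r ≤ c, Le r.1 (s n)) → pt univ s ∈ S := by
  obtain ⟨ξ, h₁, h₂⟩ := oracle (fun c => Frc c S) fun _ _ a b => b.mono a
  have h₃ : Frc ⊤ {x | x (.O ξ) = 1 → x ∈ S} := Frc.reg fun d _ => by
    by_cases h : ∀ r ≤ d, ¬ Frc r S
    · exact ⟨d, le_rfl, Force.mono_set (h₂ d h) fun x hx e => absurd (hx.symm.trans e) zero_ne_one⟩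
    · push Not at h
      obtain ⟨r, a, b⟩ := h
      exact ⟨r, a, Force.mono_set b fun x hx _ => hx⟩
  obtain ⟨𝒟, a, b, e⟩ := force_def.1 h₃
  refine ⟨insert {d | W (.O ξ) 1 d ∨ ∀ r, Mem univ r → Le r d → ∀ v, ¬ W (.O ξ) v r} 𝒟,
    a.insert _, ?_, fun s hs H c hc hn => e s hs ⟨0, le_top (α := P) (a := ⟨_, hs.mem 0⟩)⟩
      (fun D hD => H D (mem_insert_of_mem _ hD)) ?_⟩
  · rintro D (rfl | hD)
    · refine dense_def.2 fun q hq => ?_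
      by_cases h : ∀ r, Mem univ r → Le r q → ∀ v, ¬ W (.O ξ) v r
      · exact ⟨q, hq, .refl _, q, Or.inr h, .refl _⟩
      · push Not at h
        obtain ⟨r, k₁, k₂, v, k₃⟩ := h
        obtain rfl := (W_O.1 k₃).1
        exact ⟨r, k₁, k₂, r, Or.inl k₃, .refl _⟩
    · exact b D hD
  · obtain ⟨n, d, k₁ | k₁, k₂⟩ := H _ (mem_insert _ _)
    · exact pt_eq hs (mem_univ _) (k₁.mono k₂)
    · obtain ⟨r, k₃, k₄⟩ := hn n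
      obtain ⟨x, k₅, k₆⟩ := ((h₁ c hc).mono k₃).meet ((force_zero k₁).mono (k₄.trans k₂))
      exact absurd (k₆.symm.trans k₅) zero_ne_one

theorem point₀ {𝓢 : Set (Set X)} (h : 𝓢.Countable) :
    ∀ᶠ g in cof P, ∃ x, ∀ S ∈ 𝓢, ∀ c ∈ g.G, Frc c S → x ∈ S := by
  choose 𝒟 h₁ h₂ h₃ using exists_wit
  obtain ⟨D, hD⟩ := ((h.biUnion fun S _ => h₁ S).insert univ).exists_eq_range (insert_nonempty _ _)
  have h₄ : ∀ n, ∀ t ≤ (⊤ : P), ∃ t' ≤ t, t' ∈ {c : P | ∃ d ∈ D n, Le c.1 d} := by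
    intro n q _
    rcases (hD ▸ mem_range_self n : D n ∈ insert univ _) with e | e
    · exact ⟨q, le_rfl, q.1, e ▸ mem_univ _, .refl _⟩
    · obtain ⟨S, -, e⟩ := mem_iUnion₂.1 e
      obtain ⟨q', a, b⟩ := dense_def.1 (h₂ S _ e) q.1 q.2
      exact ⟨⟨q', a⟩, b⟩
  filter_upwards [eventually_countable_forall.2 fun n => ev_below (h₄ n)] with g hg
  have h₅ : ∀ n, ∀ q : g.G, ∃ q' : g.G, q'.1 ≤ q.1 ∧ ∃ d ∈ D n, Le q'.1.1 d := fun n q =>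
    let ⟨_, ⟨d, a, b⟩, e⟩ := hg n g.top
    let ⟨r, k₁, k₂, k₃⟩ := g.dir q.2 e
    ⟨⟨r, k₁⟩, k₂, d, a, Le.trans k₃ b⟩
  choose f hf hf' using h₅
  let s : ℕ → g.G := fun n => Nat.rec ⟨⊤, g.top⟩ f n
  refine ⟨_, fun S hS c hc k => h₃ S (fun n => (s n).1.1)
    (chain_def.2 ⟨fun n => (s n).1.2, fun n m h => ?_⟩) (fun E hE => ?_) c k fun n => ?_⟩
  · exact antitone_nat_of_succ_le (f := fun n => (s n).1) (fun n => hf n (s n)) h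
  · obtain ⟨n, rfl⟩ : E ∈ range D := hD ▸ mem_insert_of_mem _ (mem_biUnion hS hE)
    exact ⟨n + 1, hf' n (s n)⟩
  · obtain ⟨r, -, k₁⟩ := g.dir hc (s n).2
    exact ⟨r, k₁⟩

/-- The name of the set of natural numbers read off by `F`. -/
noncomputable def nm (F : X → Set ℕ) : Name P := locN fun c m => Frc c {x | m ∈ F x}

def Ok (g : Gen P) (x : X) (ξ : Θ) : Prop := ∀ v, ∀ c ∈ g.G, Frc c (cyl (.O ξ) v) → x (.O ξ) = v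

def Rd (g : Gen P) (x : X) (F : X → Set ℕ) : Prop :=
  nm F ∈ g.N ∧ ∀ m, g.E (g.v (nN m)) (g.v (nm F)) ↔ m ∈ F x

theorem point {𝓢 : Set (Set X)} (h : 𝓢.Countable) {K : Set Θ} (hK : K.Countable)
    {𝓕 : Set (X → Set ℕ)} (hF : 𝓕.Countable) (hm : 𝓕 ⊆ Meas univ) :
    ∀ᶠ g in cof P, ∃ x, (∀ S ∈ 𝓢, ∀ c ∈ g.G, Frc c S → x ∈ S) ∧ (∀ ξ ∈ K, Ok g x ξ) ∧
      ∀ F ∈ 𝓕, Rd g x F := by
  filter_upwards [point₀ (h.union ((hK.biUnion fun ξ _ => countable_range (cyl (.O ξ))).union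
    (hF.biUnion fun F _ => (countable_range fun m => {x | m ∈ F x}).union
      (countable_range fun m => {x | m ∈ F x}ᶜ)))),
    (eventually_countable_ball hF).2 fun F _ => ev_mem (nm F)] with g ⟨x, hx⟩ hg
  refine ⟨x, fun S hS => hx S (Or.inl hS),
    fun ξ hξ v => hx _ (Or.inr (Or.inl (mem_biUnion hξ ⟨v, rfl⟩))), fun F h₁ => ⟨hg F h₁, fun m =>
      ⟨fun h₂ => ?_, fun h₂ => by_contra fun h₃ => ?_⟩⟩⟩
  · obtain ⟨c, a, b⟩ := (nN_locN (hg F h₁)).1 h₂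
    exact hx _ (Or.inr (Or.inr (mem_biUnion h₁ (Or.inl ⟨m, rfl⟩)))) c a b
  · obtain ⟨c, a, b⟩ := not_fmem (nN_mem m) (hg F h₁) h₃
    exact hx _ (Or.inr (Or.inr (mem_biUnion h₁ (Or.inr ⟨m, rfl⟩)))) c a
      (force_compl (hm h₁ m) fun d k₁ k₂ k₃ => b ⟨d, k₁⟩ k₂
        (FMem.of_feq (τ := nm F) (j := ⟨(m, ⟨d, k₁⟩), k₃⟩) le_rfl (feq_refl _ _))) h₂

/-- The truth value of a formula is recorded by an oracle coordinate. -/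
theorem readF {Ψ : ∀ (M : Type 2), (M → M → Prop) → (ℕ → M) → Prop} (h : UDef Ψ)
    (l : List (Name P)) : ∃ ξ, ∀ (g : Gen P) x, (∀ σ ∈ l, σ ∈ g.N) → Ok g x ξ →
      (Ψ g.M g.E (g.w l) ↔ x (.O ξ) = 1) := by
  obtain ⟨φ, h⟩ := h
  obtain ⟨ξ, h₁, h₂⟩ := oracle (Forces φ (env emp l)) fun _ _ a b => b.mono a
  refine ⟨ξ, fun g x hl hx => ?_⟩
  rw [← h, truth φ hl]
  refine ⟨fun ⟨p, a, b⟩ => hx 1 p a (h₁ p b), fun e => ?_⟩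
  obtain ⟨q, a, -, -, b | b⟩ := g.meets 2 φ 0 l hl
  exacts [⟨q, a, b⟩, absurd ((hx 0 q a (h₂ q b)).symm.trans e) zero_ne_one]

theorem read (σ : Name P) : ∃ F ∈ Meas univ, ∃ K : Set Θ, K.Countable ∧ ∀ (g : Gen P) x,
    σ ∈ g.N → (∀ ξ ∈ K, Ok g x ξ) → ∀ m, g.E (g.v (nN m)) (g.v σ) ↔ m ∈ F x := by
  choose ξ h using fun m => readF (UDef.mem 0 1) [nN m, σ]
  exact ⟨fun x => {m | x (.O (ξ m)) = 1}, fun m => meas_set (meas_O _), range ξ, countable_range _,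
    fun g x h₁ h₂ m => h m g x (l2 (nN_mem m) h₁) (h₂ _ ⟨m, rfl⟩)⟩

theorem read' (σ : Name P) : ∃ F ∈ Meas univ, ∀ᶠ g in cof P,
    Sub g.E (g.v σ) (g.v wN) → g.v (nm F) = g.v σ := by
  obtain ⟨F, h₁, K, h₂, h₃⟩ := read σ
  refine ⟨F, h₁, ?_⟩
  filter_upwards [point countable_empty h₂ (countable_singleton F) (by simpa using h₁), ev_mem σ]
    with g ⟨x, _, a, b⟩ c e
  exact sub_ext (locN_sub (b F rfl).1) e fun m => ((b F rfl).2 m).trans (h₃ g x c a m).symm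

end Pool.Agent.MP_9c82b4_lc
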