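import Pool.Agent.MP_9c82b4_lc.Bound

namespace Pool.Agent.MP_9c82b4_lc

open Set Classical MeasureTheory

variable {A : Set Θ} {p q d : Pre}

theorem Mem.ct (h : Mem A p) : ∃ S ⊆ A, S.Countable ∧ ∀ B, S ⊆ B → Mem B p := by
  obtain ⟨S, h₁, h₂, h₃⟩ := h.fs.ct
  exact ⟨S ∪ p.T, union_subset h₁ h.T, h₂.union p.hT, fun B hB => mem_def.2
    ⟨h₃.mono (subset_union_left.trans hB), h.pos, subset_union_right.trans hB, fun _ => h.sm⟩⟩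

theorem meas_ct {F : X → Set ℕ} (h : F ∈ Meas A) :
    ∃ S ⊆ A, S.Countable ∧ ∀ B, S ⊆ B → F ∈ Meas B := by
  choose S h₁ h₂ h₃ using fun m => (h m).ct
  exact ⟨⋃ m, S m, iUnion_subset h₁, countable_iUnion h₂,
    fun B hB m => (h₃ m).mono ((subset_iUnion S m).trans hB)⟩

theorem Mem.level (h : Mem A p) : ∃ ν, Mem (Iio ν) p :=
  let ⟨_, _, h₂, h₃⟩ := h.ct
  let ⟨ν, hν⟩ := exists_ub_ct h₂
  ⟨ν, h₃ _ hν⟩

theorem meas_level {F : X → Set ℕ} (h : F ∈ Meas A) : ∃ ν, F ∈ Meas (Iio ν) :=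
  let ⟨_, _, h₂, h₃⟩ := meas_ct h
  let ⟨ν, hν⟩ := exists_ub_ct h₂
  ⟨ν, h₃ _ hν⟩

theorem nrm_g {ν τ β : Θ} (h₁ : τ < ν) (h₂ : β < ν) (p : Pre) (x : X) :
    ((nrm ν p).L τ x).g β = (p.L τ x).g β := by
  simp only [nrm, if_pos h₁, mix_g_mem _ _ (show β ∈ Iio ν from h₂)]

theorem nrm_le {ν : Θ} (h : p.T ⊆ Iio ν) : Le (nrm ν p) p :=
  le_of_pw (.refl _) subset_rfl fun _ h₁ _ _ h₂ => nrm_g (h h₁) (h h₂) p _ ▸ .refl _

theorem le_nrm {ν : Θ} (h : p.T ⊆ Iio ν) : Le p (nrm ν p) :=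
  le_of_pw (.refl _) subset_rfl fun _ h₁ _ _ h₂ => nrm_g (h h₁) (h h₂) p _ ▸ .refl _

theorem Mem.nrm {ν : Θ} (h : Mem (Iio ν) p) : Mem (Iio ν) (nrm ν p) :=
  mem_of_le h.fs h.pos h.T fun τ hτ => ⟨p, _, h, nrm_le h.T, hτ, fun x => by
    simp [Pool.Agent.MP_9c82b4_lc.nrm, show τ < ν from h.T hτ, mix]⟩

theorem Mem.nrm_mem {ν : Θ} (h : Mem (Iio ν) p) : Pool.Agent.MP_9c82b4_lc.nrm ν p ∈ Nrm ν :=
  ⟨⟨p, h.fs, h.T⟩, rfl⟩

theorem exists_closed {D : Set Pre} (hD : ∀ q, Mem univ q → ∃ d, Mem univ d ∧ Le d q ∧ d ∈ D) :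
    ∃ ν, ∀ q, Mem (Iio ν) q → ∃ d, Mem (Iio ν) d ∧ Le d q ∧ d ∈ D := by
  have h₁ : ∀ q, ∃ α, Mem univ q → ∃ d, Mem (Iio α) d ∧ Le d q ∧ d ∈ D := by
    intro q
    by_cases h : Mem univ q
    · obtain ⟨d, a, b⟩ := hD q h
      obtain ⟨α, c⟩ := a.level
      exact ⟨α, fun _ => ⟨d, c, b⟩⟩
    · exact ⟨0, fun h' => absurd h' h⟩
  choose lv hlv using h₁
  choose ρ hρ using fun α => exists_ub (lv '' Nrm α)
  obtain ⟨ν, h₂, h₃⟩ := closing ρ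
  refine ⟨ν, fun q hq => ?_⟩
  obtain ⟨S, h₄, h₅, h₆⟩ := hq.ct
  obtain ⟨α, h₇, h₈⟩ := h₃ S h₅ h₄
  have h₉ := h₆ _ h₈
  obtain ⟨d, a, b, c⟩ := hlv _ (h₉.nrm.mono (subset_univ _))
  exact ⟨d, a.mono (Iio_subset_Iio ((hρ α ⟨_, h₉.nrm_mem, rfl⟩).trans (h₂ α h₇)).le),
    b.trans (nrm_le h₉.T), c⟩

/-- Every open set of conditions is recorded by an oracle coordinate. -/
theorem exists_oracle {Y : Set Pre} (hY : ∀ c d, Mem univ d → Le d c → c ∈ Y → d ∈ Y) :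
    ∃ ξ, (∀ d, Mem univ d → d ∈ Y → Force univ d (cyl (.O ξ) 1)) ∧
      ∀ d, (∀ r, Mem univ r → Le r d → r ∉ Y) → Force univ d (cyl (.O ξ) 0) := by
  obtain ⟨ν, hν⟩ := exists_closed (D := {d | d ∈ Y ∨ ∀ r, Mem univ r → Le r d → r ∉ Y}) (by
    intro q hq
    by_cases h : ∀ r, Mem univ r → Le r q → r ∉ Y
    · exact ⟨q, hq, .refl _, Or.inr h⟩
    · push Not at h
      obtain ⟨r, a, b, c⟩ := h
      exact ⟨r, a, b, Or.inl c⟩)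
  obtain ⟨ξ, h₁, h₂⟩ := exists_yes (Y := Y ∩ Nrm ν) inter_subset_right
  refine ⟨ξ, fun d _ hd => Force.reg fun d' a b => ?_, fun d h => force_zero fun r a b v hW => ?_⟩
  · obtain ⟨c, a₁, b₁, c₁⟩ := hν _ (a.res (isLowerSet_Iio ν))
    obtain ⟨r, a₂, b₂, c₂⟩ := exists_merge a₁ a (subset_univ _) b₁
    have h₃ := c₁.resolve_right fun h => h r a₂ b₂ (hY d r a₂ (c₂.trans b) hd)
    refine ⟨r, a₂, c₂, (W_O.2 ⟨rfl, nrm ν c, h₂ ▸ ⟨hY c _ (a₁.nrm.mono (subset_univ _))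
      (nrm_le a₁.T) h₃, a₁.nrm_mem⟩, a₁.nrm.mono (Iio_subset_Iio h₁),
      b₂.trans (le_nrm a₁.T)⟩).force (mem_univ _)⟩
  · obtain ⟨-, c, h₃, -, h₄⟩ := W_O.1 hW
    exact h r a b (hY c r a h₄ (h₂ ▸ h₃).1)

theorem meas_sel' {τ : Θ} {F : X → Set ℕ} (hF : F ∈ Meas (lo τ)) (m : ℕ) :
    Measurable[gen (mK (lo τ))] fun x => m ∈ sel τ F x :=
  meas_iff (meas_of_set (hF m)) (meas_beq (meas_bit τ F) _)

theorem Sm.link {τ : Θ} {H : X → Set ℕ} (h : Sm τ (res (lo τ) p) H) (hH : H ∈ Meas (lo τ))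
    (hd : Mem univ d) (hp : Le d p) :
    ∃ d', Mem univ d' ∧ Le d' d ∧ ∃ 𝓛 : Set (X → Set ℕ), 𝓛.Finite ∧ 𝓛 ⊆ Meas (lo τ) ∧ ∃ n,
      Force univ d' {x | ∀ m, n ≤ m → m ∈ H x → ¬ ∀ F ∈ 𝓛, m ∈ sel τ F x} := by
  obtain ⟨d₁, a₁, b₁, 𝓛, h₁, h₂, h₃⟩ := sm_def.1 h _ (hd.lo τ) (hp.res (lo_lower τ))
  have h₄ : ∀ n, MS (lo τ) {x | ∀ m, n ≤ m → m ∈ H x → ¬ ∀ F ∈ 𝓛, m ∈ sel τ F x} := fun n =>
    meas_set (meas_all fun m => meas_imp measurable_const (meas_imp (meas_of_set (hH m))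
      (meas_not (meas_ball h₁.countable fun F hF => meas_sel' (h₂ hF) m))))
  obtain ⟨d₂, a₂, b₂, n, h₅⟩ := decide_ex h₄ (h₃.mono_set fun x hx => by
    obtain ⟨n, hn⟩ := Finite.bddAbove hx
    exact ⟨n + 1, fun m a b c => (hn ⟨b, mem_iInter₂.2 c⟩).not_gt a⟩) a₁
  obtain ⟨r, a₃, b₃, c₃⟩ := exists_merge a₂ hd (subset_univ _) (b₂.trans b₁)
  exact ⟨r, a₃, c₃, 𝓛, h₁, h₂, n, (h₅.up' (lo_lower τ) (subset_univ _) (h₄ n) a₂).mono b₃⟩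

/-- Setting blocks of rows to a constant value outside a small set. -/
theorem tukey_ext (τ : Θ) (hp : Mem univ p) (V : ℕ → Finset Θ) (hV : Monotone V) (i : Bool) :
    ∃ r, Mem univ r ∧ Le r p ∧ ∃ H ∈ Meas (lo τ), Sm τ (res (lo τ) r) H ∧
      ∀ m d, Mem univ d → Le d r → ∃ d', Mem univ d' ∧ Le d' d ∧ (Force univ d' {x | m ∈ H x} ∨
        ∃ l, ∀ β ∈ V (l + 1), β ∉ V l → Force univ d' (cyl (.H τ β m) i.toNat)) := by
  let q := grow p (insert τ (⋃ l, V l))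
    ((countable_iUnion fun l => (V l).countable_toSet).insert τ)
  have hq : Mem univ q := hp.grow _ (subset_univ _)
  have hτ : τ ∈ q.T := Or.inr (mem_insert _ _)
  let j : ℕ → X → ℕ := fun l x => max l ((V (l + 1)).sup fun β => (q.L τ x).k β)
  have hj : ∀ l, Measurable[gen (mK (lo τ))] (j l) := fun l =>
    meas_max measurable_const (meas_sup _ (q.hL τ).k)
  have hjm : ∀ x l l', l ≤ l' → j l x ≤ j l' x := fun x l l' h =>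
    max_le_max h (Finset.sup_mono (hV (Nat.succ_le_succ h)))
  let r := setrows q (fun τ' x β => if τ' = τ then j (sInf {l | β ∈ V (l + 1)} + 1) x else 0)
    (fun _ _ _ => i) fun τ' β => by
      by_cases h : τ' = τ
      · subst h
        simpa using hj _
      · simp [h]
  have hr : Mem univ r := hq.setrows _ _ _
  have hH : (fun x => {m | (q.L τ x).e m ≤ j 0 x}) ∈ Meas (lo τ) := fun m =>
    meas_set (meas_le ((q.hL τ).e m) (hj 0))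
  refine ⟨r, hr, (setrows_le _ _ _ _).trans (grow_le _ _ _), _, hH,
    sm_bdd (hr.sm hτ) (hj 0) (force_of_forall fun x m h => h), fun m d a b => ?_⟩
  obtain ⟨d₁, a₁, b₁, h | h⟩ := decide_set ((hH m).mono (subset_univ _)) d a
  · exact ⟨d₁, a₁, b₁, Or.inl h⟩
  obtain ⟨d₂, a₂, b₂, l, h'⟩ := decide_fun (A := univ)
    (f := fun x => sInf {l | (q.L τ x).e m ≤ j (l + 1) x}) ((meas_sInf fun l =>
      meas_le ((q.hL τ).e m) (hj _)).mono (gen_mono (mK_mono (subset_univ _))) le_rfl) a₁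
  refine ⟨d₂, a₂, b₂.trans b₁, Or.inr ⟨l, fun β h₁ h₂ => ((h.mono b₂).inter h').and
    ((force_row isLowerSet_univ hr hτ (Or.inr (Or.inr (mem_iUnion.2 ⟨_, h₁⟩)))).mono
      (b₂.trans (b₁.trans b))) fun x ⟨f₁, f₂⟩ f₃ => ?_⟩⟩
  replace f₁ : j 0 x < (q.L τ x).e m := not_le.1 f₁
  replace f₂ : sInf {l | (q.L τ x).e m ≤ j (l + 1) x} = l := f₂
  have h₃ : (q.L τ x).e m ≤ j (l + 1) x := f₂ ▸ Nat.sInf_mem
    (s := {l | (q.L τ x).e m ≤ j (l + 1) x}) ⟨_, (Nat.le_succ _).trans (le_max_left _ _)⟩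
  have h₄ : j l x < (q.L τ x).e m := by
    rcases l with _ | l
    · exact f₁
    · exact not_le.1 (Nat.notMem_of_lt_sInf (s := {l | (q.L τ x).e m ≤ j (l + 1) x})
        (f₂ ▸ Nat.lt_succ_self l))
  have h₅ : (q.L τ x).k β ≤ j l x :=
    (Finset.le_sup (f := fun β => (q.L τ x).k β) h₁).trans (le_max_right _ _)
  have h₆ : l ≤ sInf {l | β ∈ V (l + 1)} := not_lt.1 fun h =>
    h₂ (hV h (Nat.sInf_mem (s := {l | β ∈ V (l + 1)}) ⟨l, h₁⟩))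
  have h₇ : (r.L τ x).g β m = i.toNat := by
    simp only [r, setrows, setr_g, if_true]
    rw [if_neg (by omega), if_pos (h₃.trans (hjm x _ _ (Nat.succ_le_succ h₆)))]
  exact (f₃.1 m (h₇ ▸ Bool.toNat_le _)).trans h₇

/-! ### The final forcing -/

abbrev P : Type 1 := PA univ

instance : OrderTop P where
  top := ⟨⟨univ, ∅, fun _ _ => triv, countable_empty, fun _ => .const _⟩,
    mem_def.2 ⟨FS.univ _, by simp, by simp, by simp⟩⟩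
  le_top p := le_of_pw (.of_sub (subset_univ _)) (empty_subset _) (by simp)

def Frc (p : P) (S : Set X) : Prop := Force univ p.1 S

theorem Frc.mono {p q : P} {S : Set X} (h : Frc p S) (hq : q ≤ p) : Frc q S := Force.mono h hq

theorem Frc.decide {S : Set X} (hS : MS univ S) (p : P) : ∃ d ≤ p, Frc d S ∨ Frc d Sᶜ :=
  let ⟨d, a, b, c⟩ := decide_set hS p.1 p.2
  ⟨⟨d, a⟩, b, c⟩

theorem Frc.reg {p : P} {S : Set X} (h : ∀ d ≤ p, ∃ d' ≤ d, Frc d' S) : Frc p S :=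
  Force.reg fun d a b =>
    let ⟨d', h₁, h₂⟩ := h ⟨d, a⟩ b
    ⟨d'.1, d'.2, h₁, h₂⟩

theorem Frc.meet {p : P} {S S' : Set X} (h : Frc p S) (h' : Frc p S') : ∃ x ∈ S, x ∈ S' :=
  Force.meet h h' p.2

theorem oracle (Y : P → Prop) (hY : ∀ c d, d ≤ c → Y c → Y d) :
    ∃ ξ, (∀ d, Y d → Frc d (cyl (.O ξ) 1)) ∧ ∀ d, (∀ r ≤ d, ¬ Y r) → Frc d (cyl (.O ξ) 0) := by
  obtain ⟨ξ, h₁, h₂⟩ := exists_oracle (Y := {c | ∃ h : Mem univ c, Y ⟨c, h⟩})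
    fun c d a b ⟨h, e⟩ => ⟨a, hY ⟨c, h⟩ ⟨d, a⟩ b e⟩
  exact ⟨ξ, fun d h => h₁ d.1 d.2 ⟨d.2, h⟩, fun d h => h₂ d.1 fun r a b ⟨_, e⟩ => h ⟨r, a⟩ b e⟩

theorem meas_O (ξ : Θ) : Measurable[gen (mK univ)] fun x : X => x (.O ξ) = 1 :=
  meas_eq (gen_eval (K := mK univ) (mem_univ _)) measurable_const

/-- Measurable selectors for dense relations. -/
theorem selector (E : ℕ → P → Prop) (mono : ∀ v c d, d ≤ c → E v c → E v d)
    (dense : ∀ p, ∃ q ≤ p, ∃ v, E v q) :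
    ∃ ψ : X → ℕ, Measurable[gen (mK univ)] ψ ∧
      ∀ p, ∃ q ≤ p, ∃ v, E v q ∧ Frc q {x | ψ x = v} := by
  obtain ⟨E', h₁, h₂, h₃, h₄⟩ := exists_functional E dense
  choose ξ h₅ h₆ using fun v => oracle (E' v) fun c d => h₂ v c d
  refine ⟨fun x => sInf {v | x (.O (ξ v)) = 1}, meas_sInf fun v => meas_O _, fun p => ?_⟩
  obtain ⟨q, a, v, b⟩ := h₃ p
  obtain ⟨c, e, f⟩ := h₁ v q b
  refine ⟨q, a, v, mono v c q e f, Force.and (h₅ v q b) (force_all (Q := fun w x =>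
    w ≠ v → x (.O (ξ w)) = 0) fun w => ?_) fun x g k => ?_⟩
  · by_cases h : w = v
    · exact force_of_forall fun _ h' => absurd h h'
    · exact Force.mono_set (h₆ w q fun r a b' => h (h₄ w v r b' (h₂ v q r a b))) fun _ h _ => h
  · have : {v | x (.O (ξ v)) = 1} = {v} := eq_singleton_iff_unique_mem.2 ⟨g, fun w hw => by
      by_contra h
      exact zero_ne_one ((k w h).symm.trans hw)⟩
    simp [this]

end Pool.Agent.MP_9c82b4_lc
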