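import Pool.Agent.MP_9c82b4_lc.Basic

namespace Pool.Agent.MP_9c82b4_lc

open Set Classical MeasureTheory

variable {A B : Set Θ} {p q r d : Pre} {τ β : Θ}

def row (x : X) (τ β : Θ) : ℕ → ℕ := fun m => x (.H τ β m)

theorem max_mem (h₁ : τ ∈ A) (h₂ : β ∈ A) : max τ β ∈ A := by
  rcases max_choice τ β with h | h <;> rwa [h]

theorem meas_row (h₁ : τ ∈ A) (h₂ : β ∈ A) (m : ℕ) :
    Measurable[gen (mK A)] fun x => row x τ β m := gen_eval (κ := .H τ β m) (max_mem h₁ h₂)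

theorem Pre.lm (p : Pre) (hA : IsLowerSet A) (h : τ ∈ A) : LM (gen (mK A)) (p.L τ) :=
  (p.hL τ).mono (gen_mono (mK_mono (lo_sub hA h)))

theorem W_swap {m m' w : ℕ} (h : Le q p) (h₁ : τ ∈ p.T) (h₂ : β ∈ p.T)
    (e : Force (lo τ) (res (lo τ) q) {x | (p.L τ x).g β m = (p.L τ x).g β m'})
    (hw : W (.H τ β m) w q) : W (.H τ β m') w q := by
  obtain ⟨a, b, c, f⟩ := W_H.1 hw
  exact W_H.2 ⟨a, b, c, ((e.inter (h.L h₁)).and f) fun x hx hx' =>
    ((hx.2 β h₂).2 m m' hx.1).symm.trans hx'⟩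

/-- The generic rows obey the conditions. -/
theorem force_row (hA : IsLowerSet A) (hp : Mem A p) (h₁ : τ ∈ p.T) (h₂ : β ∈ p.T) :
    Force A p {x | Ref ((p.L τ x).g β) (row x τ β)} := by
  have hlo := lo_sub hA (hp.T h₁)
  have hlev : ∀ m, (Ξ.H τ β m).lev ∈ A := fun _ => max_mem (hp.T h₁) (hp.T h₂)
  refine (force_all (Q := fun (z : ℕ × ℕ) x =>
    ((p.L τ x).g β z.1 ≤ 1 → row x τ β z.1 = (p.L τ x).g β z.1) ∧
      ((p.L τ x).g β z.1 = (p.L τ x).g β z.2 → row x τ β z.1 = row x τ β z.2))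
    fun ⟨m, m'⟩ => Force.reg fun d a b => ?_).mono_set
      fun x hx => ⟨fun m => (hx (m, 0)).1, fun m m' => (hx (m, m')).2⟩
  obtain ⟨d₁, a₁, b₁, v, c₁⟩ := decide_fun ((p.hL τ).g β m) (a.lo τ)
  obtain ⟨d₂, a₂, b₂, v', c₂⟩ := decide_fun ((p.hL τ).g β m') a₁
  obtain ⟨r, a₃, b₃, c₃⟩ := exists_merge a₂ a hlo (b₂.trans b₁)
  have hr := c₃.trans b
  have b₄ := b₃.res_le (lo_lower τ) a₂
  replace c₁ := c₁.mono (b₄.trans b₂)
  replace c₂ := c₂.mono b₄
  have e₁ : Force A r {x | v ≤ 1 → row x τ β m = v} := by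
    by_cases h : v ≤ 1
    · refine ((W_H.2 ⟨hr.T h₁, hr.T h₂, h, c₁.and (hr.L h₁) fun x a b => ?_⟩).force
        (hlev m)).mono_set fun x hx _ => hx
      exact ((b β h₂).1 m (a.symm ▸ h)).trans a
    · exact force_of_forall fun _ h' => absurd h' h
  have e₂ : Force A r {x | v = v' → row x τ β m = row x τ β m'} := by
    refine force_def.2 ⟨∅, countable_empty, by simp, fun s hs ⟨n, hn⟩ _ e => ?_⟩
    have H : ∀ m m', Force (lo τ) (res (lo τ) r) {x | (p.L τ x).g β m = (p.L τ x).g β m'} →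
        ∀ w, (∃ n, W (.H τ β m) w (s n)) → ∃ n, W (.H τ β m') w (s n) := by
      rintro m m' f w ⟨n', hw⟩
      have := (hs.le (le_max_left n n')).trans hn
      exact ⟨_, W_swap (this.trans hr) h₁ h₂ (f.mono (this.res (lo_lower τ)))
        (hw.mono (hs.le (le_max_right n n')))⟩
    simp only [row, pt_def, if_pos (hlev _)]
    congr 1
    exact Set.ext fun w => ⟨H m m' (c₁.and c₂ fun x a b => a.trans (e.trans b.symm)) w,
      H m' m (c₁.and c₂ fun x a b => b.trans (e.symm.trans a.symm)) w⟩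
  refine ⟨r, a₃, c₃, (((c₁.inter c₂).up (lo_lower τ) hlo ?_).inter (e₁.inter e₂)).mono_set ?_⟩
  · exact (meas_set (meas_eq ((p.hL τ).g β m) measurable_const)).inter
      (meas_set (meas_eq ((p.hL τ).g β m') measurable_const))
  · rintro x ⟨⟨f₁, f₂⟩, f₃, f₄⟩
    simp only [mem_ofPred_eq] at f₁ f₂ f₃ f₄ ⊢
    rw [f₁, f₂]
    exact ⟨f₃, f₄⟩

def setrows (p : Pre) (k : Θ → X → Θ → ℕ) (val : Θ → Θ → ℕ → Bool)
    (hk : ∀ τ β, Measurable[gen (mK (lo τ))] fun x => k τ x β) : Pre :=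
  ⟨p.b, p.T, fun τ x => setr (p.L τ x) (k τ x) (val τ), p.hT,
    fun τ => (p.hL τ).setr _ (hk τ)⟩

theorem setrows_le (p : Pre) (k val hk) : Le (setrows p k val hk) p :=
  le_of_pw (.refl _) subset_rfl fun _ _ _ _ _ => ref_setr _ _ _ _

theorem Mem.setrows (h : Mem A p) (k val hk) : Mem A (setrows p k val hk) :=
  mem_of_le h.fs h.pos h.T fun _ hτ => ⟨p, A, h, setrows_le p k val hk, hτ, fun _ => rfl⟩

theorem sep0 (hA : IsLowerSet A) (hd : Mem A d) (h₁ : τ ∈ d.T) (h₂ : β ∈ d.T) {Z : Set X}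
    (hZ : MS (lo τ) Z) {v : Bool} {m : ℕ} (h : Force A d {x | x ∈ Z → row x τ β m = v.toNat}) :
    Force (lo τ) (res (lo τ) d) {x | x ∈ Z → (d.L τ x).g β m = v.toNat} := by
  let d' := setrows d (fun τ' x _ => if τ' = τ then (d.L τ' x).e m else 0) (fun _ _ _ => !v)
    fun τ' _ => meas_ite measurable_const ((d.hL τ').e m) measurable_const
  have a : Mem A d' := hd.setrows _ _ _
  have e : ∀ x, (d'.L τ x).g β m =
      if (d.L τ x).e m ≤ (d.L τ x).k β then ((d.L τ x).c β m).toNat else (!v).toNat := by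
    intro x
    simp [d', setrows, setr_g]
  have b : Force A d' {x | x ∈ Z → (d'.L τ x).g β m = v.toNat} :=
    (h.mono (setrows_le _ _ _ _)).and (force_row hA a h₁ h₂) fun x f g hx => by
      refine (g.1 m ?_).symm.trans (f hx)
      rw [e]
      split_ifs <;> exact Bool.toNat_le _
  refine Force.mono_set ((b.down (lo_lower τ) (lo_sub hA (hd.T h₁)) ?_ a).mono
    (le_of_pw (q := res (lo τ) d) (.refl _) subset_rfl fun τ' hτ' x β _ => ?_))
    fun x hx hx' => ?_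
  · exact meas_set (meas_imp (meas_mem hZ) (meas_eq ((d'.hL τ).g β m) measurable_const))
  · have : τ' ≠ τ := fun e => not_mem_lo τ (e ▸ hτ'.2)
    simp only [res_L, d', setrows]
    rw [setr_g_of_le _ (by simp [this])]
    exact .refl _
  · have := hx hx'
    rw [e] at this
    split_ifs at this with h'
    · exact (g_of_le h').trans this
    · cases v <;> simp at this

/-! ### Small sets -/

variable {Z Z' : X → Set ℕ}

theorem sm_fin (h : Force (lo τ) d {x | (Z x).Finite}) : Sm τ d Z :=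
  sm_def.2 fun d₁ a b => ⟨d₁, a, .refl _, ∅, finite_empty, empty_subset _,
    (h.mono b).mono_set fun x hx => by simpa using hx⟩

theorem Sm.sub (h : Sm τ d Z') (hZ : Force (lo τ) d {x | Z x ⊆ Z' x}) : Sm τ d Z := by
  refine sm_def.2 fun d₁ a b => ?_
  obtain ⟨d₂, a', b', 𝓛, c, e, f⟩ := sm_def.1 h d₁ a b
  exact ⟨d₂, a', b', 𝓛, c, e, f.and (hZ.mono (b'.trans b)) fun x hx hx' =>
    Finite.subset hx (inter_subset_inter_left _ hx')⟩

theorem Sm.union (h : Sm τ d Z) (h' : Sm τ d Z') : Sm τ d fun x => Z x ∪ Z' x := by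
  refine sm_def.2 fun d₁ a b => ?_
  obtain ⟨d₂, a₂, b₂, 𝓛, c, e, f⟩ := sm_def.1 h d₁ a b
  obtain ⟨d₃, a₃, b₃, 𝓛', c', e', f'⟩ := sm_def.1 h' d₂ a₂ (b₂.trans b)
  refine ⟨d₃, a₃, b₃.trans b₂, 𝓛 ∪ 𝓛', c.union c', union_subset e e',
    (f.mono b₃).and f' fun x hx hx' => (Finite.union hx hx').subset ?_⟩
  rw [biInter_union]
  rintro m ⟨h | h, h₁, h₂⟩
  exacts [Or.inl ⟨h, h₁⟩, Or.inr ⟨h, h₂⟩]

theorem Sm.reg (h : ∀ d₁, Mem (lo τ) d₁ → Le d₁ d → ∃ d₂, Mem (lo τ) d₂ ∧ Le d₂ d₁ ∧ Sm τ d₂ Z) :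
    Sm τ d Z := by
  refine sm_def.2 fun d₁ a b => ?_
  obtain ⟨d₂, a₂, b₂, c⟩ := h d₁ a b
  obtain ⟨d₃, a₃, b₃, e⟩ := sm_def.1 c d₂ a₂ (.refl _)
  exact ⟨d₃, a₃, b₃.trans b₂, e⟩

theorem Sm.of_sel (h : Sm τ d Z') {F : X → Set ℕ} (hF : F ∈ Meas (lo τ))
    (hZ : Force (lo τ) d {x | Z x ∩ sel τ F x ⊆ Z' x}) : Sm τ d Z := by
  refine sm_def.2 fun d₁ a b => ?_
  obtain ⟨d₂, a', b', 𝓛, c, e, f⟩ := sm_def.1 h d₁ a b
  refine ⟨d₂, a', b', insert F 𝓛, c.insert F, insert_subset hF e,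
    f.and (hZ.mono (b'.trans b)) fun x hx hx' => Finite.subset hx ?_⟩
  rw [biInter_insert]
  exact fun m ⟨h₁, h₂, h₃⟩ => ⟨hx' ⟨h₁, h₂⟩, h₃⟩

theorem sm_le {e : X → ℕ → ℕ} (h : ∀ j, Sm τ d fun x => {m | e x m = j}) (K : ℕ) :
    Sm τ d fun x => {m | e x m ≤ K} := by
  induction K with
  | zero => simpa using h 0
  | succ K ih =>
    refine (ih.union (h (K + 1))).sub (force_of_forall fun x m hm => ?_)
    simp only [mem_ofPred_eq, mem_union] at hm ⊢
    omega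

theorem sm_bdd {e : X → ℕ → ℕ} (h : ∀ j, Sm τ d fun x => {m | e x m = j}) {K : X → ℕ}
    (hK : Measurable[gen (mK (lo τ))] K) (hZ : Force (lo τ) d {x | ∀ m ∈ Z x, e x m ≤ K x}) :
    Sm τ d Z := by
  refine Sm.reg fun d₁ a b => ?_
  obtain ⟨d₂, a₂, b₂, v, c⟩ := decide_fun hK a
  refine ⟨d₂, a₂, b₂, ((sm_le h v).mono (b₂.trans b)).sub ?_⟩
  exact c.and (hZ.mono (b₂.trans b)) fun x hx hx' m hm => (hx' m hm).trans hx.le

theorem sm_triv (τ : Θ) (d : Pre) (j : ℕ) : Sm τ d fun _ => {m | triv.e m = j} :=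
  sm_fin (force_of_forall fun _ => by simp [triv])

noncomputable def grow (p : Pre) (T : Set Θ) (hT : T.Countable) : Pre :=
  ⟨p.b, p.T ∪ T, fun τ x => if τ ∈ p.T then p.L τ x else triv, p.hT.union hT,
    fun τ => LM.ite measurable_const (p.hL τ) (.const _)⟩

theorem grow_le (p : Pre) (T hT) : Le (grow p T hT) p :=
  le_of_pw (.refl _) subset_union_left fun τ hτ x => by
    simp only [grow, if_pos hτ]; exact .refl _ _

theorem Mem.grow (h : Mem A p) {T : Set Θ} (hT) (hA : T ⊆ A) : Mem A (grow p T hT) := by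
  refine mem_def.2 ⟨h.fs, h.pos, union_subset h.T hA, fun τ _ j => ?_⟩
  by_cases h₁ : τ ∈ p.T
  · simpa [Pool.Agent.MP_9c82b4_lc.grow, h₁] using
      (h.sm h₁ j).mono ((grow_le p T hT).res (lo_lower τ))
  · simpa [Pool.Agent.MP_9c82b4_lc.grow, h₁] using sm_triv τ _ j

/-! ### Branches -/

noncomputable def br (p : Pre) (F : Finset Θ) (n : ℕ) (σ : Θ → Θ → ℕ → Bool) : Pre :=
  ⟨p.b, p.T, fun τ x => if τ ∈ F then sig (p.L τ x) F n (σ τ) else p.L τ x, p.hT,
    fun τ => LM.ite measurable_const ((p.hL τ).sig _ _ _) (p.hL τ)⟩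

variable {F : Finset Θ} {n : ℕ} {σ : Θ → Θ → ℕ → Bool}

theorem br_le (p : Pre) (F n σ) : Le (br p F n σ) p := by
  refine le_of_pw (.refl _) subset_rfl fun τ _ x β _ => ?_
  simp only [br]
  split_ifs
  exacts [ref_setr _ _ _ _, .refl _]

theorem Mem.br (h : Mem A p) (F n σ) : Mem A (br p F n σ) :=
  mem_of_le h.fs h.pos h.T fun τ hτ => ⟨p, A, h, br_le p F n σ, hτ, fun x => by
    simp only [Pool.Agent.MP_9c82b4_lc.br]; split_ifs <;> rfl⟩

def Fol (L : Θ → X → Loc) (F : Finset Θ) (n : ℕ) (σ : Θ → Θ → ℕ → Bool) (A : Set Θ) (x : X) :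
    Prop :=
  ∀ τ ∈ (F : Set Θ) ∩ A, ∀ β ∈ (F : Set Θ) ∩ A, ∀ m, (L τ x).k β < (L τ x).e m → (L τ x).e m ≤ n →
    row x τ β m = (σ τ β ((L τ x).e m)).toNat

theorem meas_fol (p : Pre) (hA : IsLowerSet A) :
    Measurable[gen (mK A)] (Fol p.L F n σ A) := by
  have h := F.countable_toSet.mono (inter_subset_left (t := A))
  refine meas_ball h fun τ hτ => meas_ball h fun β hβ => meas_all fun m => ?_
  have h₁ := p.lm hA hτ.2
  exact meas_imp (meas_lt (h₁.k β) (h₁.e m)) (meas_imp (meas_le (h₁.e m) measurable_const)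
    (meas_eq (meas_row hτ.2 hβ.2 m) (meas_one (fun j => (σ τ β j).toNat) (h₁.e m))))

theorem le_br (hA : IsLowerSet A) (hd : Mem A d) (h : Le d (res A p)) (hF : ↑F ⊆ p.T)
    (hf : Force A d {x | Fol p.L F n σ A x}) : Le d (res A (br p F n σ)) := by
  refine le_def.2 ⟨h.b, h.T, fun τ hτ => ?_⟩
  by_cases h₁ : τ ∈ F
  · have h₂ : Force (lo τ) (res (lo τ) d) {x | ∀ β ∈ (F : Set Θ) ∩ A, ∀ m j,
        x ∈ {x | (p.L τ x).k β < j ∧ j ≤ n ∧ (p.L τ x).e m = j} →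
          (d.L τ x).g β m = (σ τ β j).toNat} := by
      refine force_ball (F.countable_toSet.mono inter_subset_left) fun β hβ =>
        force_all fun m => force_all fun j => sep0 hA hd (h.T hτ) (h.T ⟨hF hβ.1, hβ.2⟩) ?_ ?_
      · have := p.hL τ
        repeat' first
          | assumption | exact measurable_const | apply LM.e | apply LM.c | apply LM.k
          | apply meas_ite | apply meas_le | apply meas_lt | apply meas_eq | apply meas_max
          | apply meas_min | apply meas_succ | apply meas_toNat | apply meas_decide | apply meas_sInf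
          | apply meas_and | apply meas_or | apply meas_not | apply meas_iff
          | apply meas_imp | apply meas_all | apply meas_ex | (with_reducible apply meas_set)
          | (with_reducible intro _)
          | solve_by_elim
      · refine hf.mono_set ?_
        rintro x hx ⟨a, b, rfl⟩
        exact hx τ ⟨h₁, hτ.2⟩ β hβ m a b
    refine (h.L hτ).and h₂ fun x a b β hβ => ?_
    simp only [res_L, br, if_pos h₁]
    refine ref_setr_of (a β hβ) fun m c e => ?_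
    split_ifs at e with h₃
    · exact b β ⟨h₃, hβ.2⟩ m _ ⟨c, e, rfl⟩
    · exact absurd (c.trans_le e) (Nat.not_lt_zero _)
  · simpa [br, h₁] using h.L hτ

theorem force_fol (hA : IsLowerSet A) (hd : Mem A d) (h : Le d (res A (br p F n σ)))
    (hF : ↑F ⊆ p.T) : Force A d {x | Fol p.L F n σ A x} := by
  have hc := F.countable_toSet.mono (inter_subset_left (t := A))
  refine force_ball hc fun τ hτ => force_ball hc fun β hβ => ?_
  have h₁ : τ ∈ (res A (br p F n σ)).T := ⟨hF hτ.1, hτ.2⟩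
  have h₂ : β ∈ (res A (br p F n σ)).T := ⟨hF hβ.1, hβ.2⟩
  refine ((h.L h₁).up (lo_lower τ) (lo_sub hA hτ.2) (meas_set (meas_rel (res A _).hT
    ((res A _).hL τ) (d.hL τ)))).and (force_row hA hd (h.T h₁) (h.T h₂)) fun x a b m c e => ?_
  have h₃ := ((a β h₂).trans b).1 m
  simp only [res_L, br, if_pos (show τ ∈ F from hτ.1), sig_g_mem (show β ∈ F from hβ.1),
    if_neg c.not_ge, if_pos e] at h₃
  exact h₃ (Bool.toNat_le _)

end Pool.Agent.MP_9c82b4_lc
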