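import Pool.Agent.MP_9c82b4_lc.Rows

namespace Pool.Agent.MP_9c82b4_lc

open Set Classical MeasureTheory

/-- A system of versions of a condition. -/
structure Sys : Type 1 where
  b : Set X
  T : Set Θ
  L : (Θ → Bool) → Θ → X → Loc
  hT : T.Countable
  hL : ∀ f τ, LM (gen (mK (lo τ))) (L f τ)

def Sys.ver (R : Sys) (f : Θ → Bool) : Pre := ⟨R.b, R.T, R.L f, R.hT, R.hL f⟩

def Ag (F : Finset Θ) (τ : Θ) (f f' : Θ → Bool) : Prop := ∀ τ' ∈ F, τ' < mu τ → f τ' = f' τ'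

theorem Ag.symm {F τ f f'} (h : Ag F τ f f') : Ag F τ f' f := fun τ' a b => (h τ' a b).symm

theorem Ag.trans {F τ f f' f''} (h : Ag F τ f f') (h' : Ag F τ f' f'') : Ag F τ f f'' :=
  fun τ' a b => (h τ' a b).trans (h' τ' a b)

theorem Ag.lo {F τ f f' τ'} (h : Ag F τ f f') (h' : τ' ∈ lo τ) : Ag F τ' f f' :=
  fun τ'' a b => h τ'' a (b.trans ((mu_le τ').trans_lt h'))

structure Good (A : Set Θ) (R : Sys) (F : Finset Θ) (n : ℕ) : Prop where
  mem : ∀ f, Mem A (R.ver f)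
  sub : ↑F ⊆ R.T
  dep : ∀ τ f f', Ag F τ f f' → (τ ∈ F → f τ = f' τ) → R.L f τ = R.L f' τ
  tail : ∀ τ ∈ F, ∀ f f', Ag F τ f f' → ∀ x m, n < (R.L f τ x).e m →
    (R.L f' τ x).e m = (R.L f τ x).e m
  stem : ∀ τ ∈ F, ∀ β ∈ F, ∀ f x, (R.L f τ x).k β < n

structure Step (F : Finset Θ) (n : ℕ) (R R' : Sys) : Prop where
  b : R'.b ⊆ R.b
  T : R.T ⊆ R'.T
  rel : ∀ f, ∀ τ ∈ R.T, ∀ x, Rel R.T (R.L f τ x) (R'.L f τ x)
  keep : ∀ τ ∈ F, ∀ f x m, (R.L f τ x).e m ≤ n → (R'.L f τ x).e m = (R.L f τ x).e m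
  nog : ∀ τ ∈ F, ∀ f x m, n < (R.L f τ x).e m → (R'.L f τ x).e m = 0 ∨ n ≤ (R'.L f τ x).e m
  k : ∀ τ ∈ F, ∀ β ∈ F, ∀ f x, (R'.L f τ x).k β = (R.L f τ x).k β
  pair : ∀ τ ∈ F, ∀ f f', (∀ τ' < mu τ, f τ' = f' τ') → f τ ≠ f' τ → ∀ x m,
    (R'.L f τ x).e m = 0 → (R'.L f' τ x).e m = 0 → (R.L f τ x).e m = 0

variable {A : Set Θ} {R R' R'' : Sys} {F F' : Finset Θ} {n n' : ℕ}

theorem Step.refl (F n R) : Step F n R R :=
  ⟨subset_rfl, subset_rfl, fun _ _ _ _ => .refl _ _, fun _ _ _ _ _ _ => rfl,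
    fun _ _ _ _ _ h => Or.inr h.le, fun _ _ _ _ _ _ => rfl, fun _ _ _ _ _ _ _ _ h _ => h⟩

theorem Step.trans (h : Step F n R R') (h' : Step F n R' R'') : Step F n R R'' where
  b := h'.b.trans h.b
  T := h.T.trans h'.T
  rel f τ hτ x := (h.rel f τ hτ x).trans (h'.rel f τ (h.T hτ) x) h.T
  keep τ hτ f x m a := by
    have := h.keep τ hτ f x m a
    rw [h'.keep τ hτ f x m (this ▸ a), this]
  nog τ hτ f x m a := by
    have h₁ := h.nog τ hτ f x m a
    have h₂ := h'.keep τ hτ f x m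
    have h₃ := h'.nog τ hτ f x m
    omega
  k τ hτ β hβ f x := (h'.k τ hτ β hβ f x).trans (h.k τ hτ β hβ f x)
  pair τ hτ f f' a b x m c e := h.pair τ hτ f f' a b x m (h'.pair τ hτ f f' a b x m c e)
    (h'.pair τ hτ f' f (fun τ' h => (a τ' h).symm) b.symm x m e c)

theorem Step.mono (h : Step F' n' R R') (hF : F ⊆ F') (hn : n ≤ n') : Step F n R R' where
  b := h.b
  T := h.T
  rel := h.rel
  keep τ hτ f x m a := h.keep τ (hF hτ) f x m (a.trans hn)
  nog τ hτ f x m a := by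
    have h₁ := h.nog τ (hF hτ) f x m
    have h₂ := h.keep τ (hF hτ) f x m
    omega
  k τ hτ β hβ := h.k τ (hF hτ) β (hF hβ)
  pair τ hτ := h.pair τ (hF hτ)

theorem Step.le_ver (h : Step F n R R') (f : Θ → Bool) : Le (R'.ver f) (R.ver f) :=
  le_of_pw (.of_sub h.b) h.T (h.rel f)

theorem Step.br_le (h : Step F n R R') (hR : Good A R F n) (hF : F ⊆ F') (hn : n ≤ n')
    {f f' : Θ → Bool} {σ σ' : Θ → Θ → ℕ → Bool} (hf : ∀ τ ∈ F, f τ = f' τ)
    (hσ : ∀ τ ∈ F, ∀ β ∈ F, ∀ j ≤ n, σ' τ β j = σ τ β j) :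
    Le (br (R'.ver f') F' n' σ') (br (R.ver f) F n σ) := by
  refine le_of_pw (.of_sub h.b) h.T fun τ hτ x β hβ => ?_
  have e : R.L f τ = R.L f' τ := hR.dep τ f f' (fun τ' a _ => hf τ' a) (hf τ)
  have h₁ := h.rel f' τ hτ x β hβ
  simp only [br, Sys.ver, e]
  by_cases h₂ : τ ∈ F
  · rw [if_pos h₂, if_pos (hF h₂)]
    exact ref_sig_sig h₁ fun h₃ => ⟨hF h₃, hn, h.k τ h₂ β h₃ f' x, h.keep τ h₂ f' x, hσ τ h₂ β h₃⟩
  · rw [if_neg h₂]
    split_ifs
    exacts [h₁.trans (ref_setr _ _ _ _), h₁]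

/-! ### Updating a system -/

section Update

variable (R F n) (f₀ : Θ → Bool) (σ : Θ → Θ → ℕ → Bool) (t : Pre)

def On (τ : Θ) (x : X) : Prop :=
  x ∈ proj (lo τ) t.b ∧ Fol (R.L f₀) F n σ (lo τ) x ∧
    (τ ∈ R.T → Rel R.T ((br (R.ver f₀) F n σ).L τ x) (t.L τ x))

theorem meas_on (τ : Θ) : Measurable[gen (mK (lo τ))] (On R F n f₀ σ t τ) :=
  meas_and (meas_mem (proj_fs _ _).ms) (meas_and (meas_fol (R.ver f₀) (lo_lower τ))
    (meas_imp measurable_const (meas_rel R.hT ((br _ _ _ _).hL τ) (t.hL τ))))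

noncomputable def uK (τ : Θ) (x : X) : ℕ := max n (F.sup fun β => (t.L τ x).k β)

theorem meas_uK (τ : Θ) : Measurable[gen (mK (lo τ))] (uK F n t τ) :=
  meas_max measurable_const (meas_sup F (t.hL τ).k)

noncomputable def upd : Sys where
  b := R.b
  T := t.T
  L f τ x := if Ag F τ f f₀ ∧ On R F n f₀ σ t τ x then
      if τ ∈ F then
        if f τ = f₀ τ then aupd (R.L f₀ τ x) (t.L τ x) n F (uK F n t τ x)
        else bump (R.L f τ x) n F (t.L τ x).e (uK F n t τ x)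
      else t.L τ x
    else if τ ∈ R.T then R.L f τ x else triv
  hT := t.hT
  hL f τ := LM.ite (meas_and measurable_const (meas_on R F n f₀ σ t τ))
    (LM.ite measurable_const (LM.ite measurable_const
      ((R.hL f₀ τ).aupd (t.hL τ) n F (meas_uK F n t τ))
      ((R.hL f τ).bump n F (t.hL τ).e (meas_uK F n t τ))) (t.hL τ))
    (LM.ite measurable_const (R.hL f τ) (.const _))

variable {R F n f₀ σ t} (hR : Good A R F n)

theorem upd_off {f τ x} (h : ¬ (Ag F τ f f₀ ∧ On R F n f₀ σ t τ x)) :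
    (upd R F n f₀ σ t).L f τ x = if τ ∈ R.T then R.L f τ x else triv := if_neg h

theorem upd_out {f τ x} (h : Ag F τ f f₀ ∧ On R F n f₀ σ t τ x) (hτ : τ ∉ F) :
    (upd R F n f₀ σ t).L f τ x = t.L τ x := (if_pos h).trans (if_neg hτ)

theorem upd_A {f τ x} (h : Ag F τ f f₀ ∧ On R F n f₀ σ t τ x) (hτ : τ ∈ F) (e : f τ = f₀ τ) :
    (upd R F n f₀ σ t).L f τ x = aupd (R.L f₀ τ x) (t.L τ x) n F (uK F n t τ x) :=
  (if_pos h).trans ((if_pos hτ).trans (if_pos e))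

theorem upd_B {f τ x} (h : Ag F τ f f₀ ∧ On R F n f₀ σ t τ x) (hτ : τ ∈ F) (e : f τ ≠ f₀ τ) :
    (upd R F n f₀ σ t).L f τ x = bump (R.L f τ x) n F (t.L τ x).e (uK F n t τ x) :=
  (if_pos h).trans ((if_pos hτ).trans (if_neg e))

theorem le_uK (τ : Θ) (x : X) : n ≤ uK F n t τ x := le_max_left _ _

theorem k_le_uK (τ : Θ) (x : X) {β : Θ} (h : β ∈ F) : (t.L τ x).k β ≤ uK F n t τ x :=
  (Finset.le_sup (f := fun β => (t.L τ x).k β) h).trans (le_max_right _ _)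

include hR

theorem upd_e {f τ x} (h : Ag F τ f f₀ ∧ On R F n f₀ σ t τ x) (hτ : τ ∈ F) :
    ((upd R F n f₀ σ t).L f τ x).e =
      newe (R.L f τ x).e (t.L τ x).e n (uK F n t τ x) (if f τ = f₀ τ then 0 else n) := by
  split_ifs with e
  · rw [upd_A h hτ e, hR.dep τ f f₀ h.1 fun _ => e]; rfl
  · rw [upd_B h hτ e]; rfl

theorem upd_k {f τ x} (hτ : τ ∈ F) {β : Θ} (hβ : β ∈ F) :
    ((upd R F n f₀ σ t).L f τ x).k β = (R.L f τ x).k β := by
  by_cases h : Ag F τ f f₀ ∧ On R F n f₀ σ t τ x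
  · by_cases e : f τ = f₀ τ
    · rw [upd_A h hτ e, hR.dep τ f f₀ h.1 fun _ => e]
      simp [aupd, retile, hβ]
    · rw [upd_B h hτ e]
      simp [bump, retile, hβ, (hR.stem τ hτ β hβ f x).le]
  · rw [upd_off h, if_pos (hR.sub hτ)]

theorem On.ref {τ x} (h : On R F n f₀ σ t τ x) (hτ : τ ∈ F) {β : Θ} (hβ : β ∈ R.T) :
    Ref ((sig (R.L f₀ τ x) F n (σ τ)).g β) ((t.L τ x).g β) := by
  simpa [br, hτ, Sys.ver] using h.2.2 (hR.sub hτ) β hβ

theorem On.all {τ x} (h : On R F n f₀ σ t τ x) (hτ : τ ∈ F) : ∀ β ∈ F, (R.L f₀ τ x).k β < n ∧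
    (t.L τ x).k β ≤ uK F n t τ x ∧ Ref ((sig (R.L f₀ τ x) F n (σ τ)).g β) ((t.L τ x).g β) :=
  fun β hβ => ⟨hR.stem τ hτ β hβ f₀ x, k_le_uK τ x hβ, h.ref hR hτ (hR.sub hβ)⟩

theorem On.le {τ x} (h : On R F n f₀ σ t τ x) (hτ : τ ∈ F) (m : ℕ) (hm : (R.L f₀ τ x).e m ≤ n) :
    (t.L τ x).e m ≤ uK F n t τ x :=
  (sig_le hτ (h.ref hR hτ (hR.sub hτ)) hm).trans (k_le_uK τ x hτ)

theorem upd_step (ht : R.T ⊆ t.T) : Step F n R (upd R F n f₀ σ t) where
  b := subset_rfl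
  T := ht
  rel f τ hτ x β hβ := by
    by_cases h : Ag F τ f f₀ ∧ On R F n f₀ σ t τ x
    · by_cases h₁ : τ ∈ F
      · by_cases e : f τ = f₀ τ
        · rw [upd_A h h₁ e, hR.dep τ f f₀ h.1 fun _ => e]
          exact ref_aupd (le_uK τ x) (h.2.all hR h₁) (h.2.le hR h₁) (h.2.ref hR h₁ hβ)
        · rw [upd_B h h₁ e]
          refine ref_bump (fun m m' a b => ?_) (fun β hβ m a b => ?_) β
          · refine ((h.2.ref hR h₁ hτ).ac.mono (k_le_uK τ x h₁)) m m' ?_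
            exact (hR.tail τ h₁ f f₀ h.1 x m a).trans
              (b.trans (hR.tail τ h₁ f f₀ h.1 x m' (b ▸ a)).symm)
          · have := hR.stem τ h₁ β hβ f x
            omega
      · rw [upd_out h h₁, hR.dep τ f f₀ h.1 fun h => absurd h h₁]
        simpa [br, h₁, Sys.ver] using h.2.2.2 hτ β hβ
    · rw [upd_off h, if_pos hτ]
      exact .refl _
  keep τ hτ f x m a := by
    by_cases h : Ag F τ f f₀ ∧ On R F n f₀ σ t τ x
    · rw [upd_e hR h hτ, newe, if_pos a]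
    · rw [upd_off h, if_pos (hR.sub hτ)]
  nog τ hτ f x m a := by
    by_cases h : Ag F τ f f₀ ∧ On R F n f₀ σ t τ x
    · have := le_uK (F := F) (n := n) (t := t) τ x
      rw [upd_e hR h hτ, newe]
      split_ifs <;> omega
    · rw [upd_off h, if_pos (hR.sub hτ)]
      exact Or.inr a.le
  k τ hτ β hβ f x := upd_k hR hτ hβ
  pair τ hτ f f' a b x m := by
    have h₁ : Ag F τ f f' := fun τ' _ h => a τ' h
    by_cases h : Ag F τ f f₀ ∧ On R F n f₀ σ t τ x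
    · have h₂ := le_uK (F := F) (n := n) (t := t) τ x
      have h₃ := hR.tail τ hτ f f' h₁ x m
      have h₄ := hR.stem τ hτ τ hτ f x
      have h₅ : f τ = f₀ τ → f' τ ≠ f₀ τ := fun c e => b (c.trans e.symm)
      rw [upd_e hR h hτ, upd_e hR ⟨h₁.symm.trans h.1, h.2⟩ hτ, newe, newe]
      split_ifs <;> first | omega | exact absurd ‹f' τ = f₀ τ› (h₅ ‹_›)
    · rw [upd_off h, if_pos (hR.sub hτ)]
      exact fun h _ => h

theorem upd_dep (τ f f') (h₁ : Ag F τ f f') (h₂ : τ ∈ F → f τ = f' τ) :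
    (upd R F n f₀ σ t).L f τ = (upd R F n f₀ σ t).L f' τ := by
  funext x
  have : Ag F τ f f₀ ↔ Ag F τ f' f₀ := ⟨h₁.symm.trans, h₁.trans⟩
  simp only [upd, hR.dep τ f f' h₁ h₂, this]
  by_cases h : τ ∈ F
  · rw [h₂ h]
  · simp only [if_neg h]

theorem upd_key (ht : Le t (br (R.ver f₀) F n σ)) {B : Set Θ} (hB : IsLowerSet B) :
    ∀ d, Mem B d → Le d (res B (br ((upd R F n f₀ σ t).ver f₀) F n σ)) → Sub0 d.b (proj B t.b) →
      Le d (res B t) := by
  have aux : ∀ B, IsLowerSet B → (∀ τ ∈ B, ∀ d, Mem (lo τ) d →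
      Le d (res (lo τ) (br ((upd R F n f₀ σ t).ver f₀) F n σ)) → Sub0 d.b (proj (lo τ) t.b) →
        Le d (res (lo τ) t)) → ∀ d, Mem B d → Le d (res B (br ((upd R F n f₀ σ t).ver f₀) F n σ)) →
      Sub0 d.b (proj B t.b) → Le d (res B t) := by
    intro B hB ih d hd h₁ h₂
    refine le_def.2 ⟨h₂, h₁.T, fun τ hτ => ?_⟩
    have hlo := lo_sub hB hτ.2
    have h₃ := h₁.res (lo_lower τ)
    have h₄ := proj_mono (lo τ) h₂
    rw [res_res hlo] at h₃
    rw [proj_proj hlo] at h₄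
    have h₅ := ih τ hτ.2 _ (hd.lo τ) h₃ h₄
    have h₆ : Force (lo τ) (res (lo τ) d) {x | On R F n f₀ σ t τ x} := by
      refine (force_b (proj_fs _ _) h₄).inter (Force.inter (force_fol (p := R.ver f₀) (lo_lower τ)
        (hd.lo τ) (h₃.trans (Le.res ?_ (lo_lower τ))) hR.sub)
        (force_all fun h => (ht.L h).mono h₅))
      exact (upd_step hR ht.T).br_le hR subset_rfl le_rfl (fun _ _ => rfl) fun _ _ _ _ _ _ => rfl
    refine h₆.and (h₁.L hτ) fun x a b β hβ => Ref.trans ?_ (b β hβ)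
    have h₇ : Ag F τ f₀ f₀ ∧ On R F n f₀ σ t τ x := ⟨fun _ _ _ => rfl, a⟩
    simp only [res_L, br, Sys.ver]
    split_ifs with h
    · rw [upd_A h₇ h rfl]
      exact ref_aupd_sig (le_uK τ x) (On.all hR a h) (On.le hR a h) β
    · rw [upd_out h₇ h]
      exact .refl _
  have H : ∀ ν : Θ, ∀ d, Mem (Iio ν) d →
      Le d (res (Iio ν) (br ((upd R F n f₀ σ t).ver f₀) F n σ)) → Sub0 d.b (proj (Iio ν) t.b) →
        Le d (res (Iio ν) t) := by
    intro ν
    induction ν using WellFoundedLT.induction with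
    | ind ν ih => exact aux _ (isLowerSet_Iio ν) fun τ hτ => ih _ ((mu_le τ).trans_lt hτ)
  exact aux B hB fun τ _ => H _

theorem upd_mem (ht : Le t (br (R.ver f₀) F n σ)) (htA : Mem A t) (f : Θ → Bool) :
    Mem A ((upd R F n f₀ σ t).ver f) := by
  have hs := upd_step (f₀ := f₀) (σ := σ) hR ht.T
  refine mem_def.2 ⟨(hR.mem f).fs, (hR.mem f).pos, htA.T, fun τ hτ j => Sm.reg fun d₁ a₁ b₁ => ?_⟩
  obtain ⟨d, a, b, c⟩ := decide_set (A := lo τ) (S := {x | Ag F τ f f₀ ∧ On R F n f₀ σ t τ x})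
    (meas_set (meas_and measurable_const (meas_on R F n f₀ σ t τ))) d₁ a₁
  refine ⟨d, a, b, ?_⟩
  replace b := b.trans b₁
  rcases c with c | c
  · obtain ⟨-, hf, -⟩ := c.nonempty a
    have h₁ : Le d (res (lo τ) ((upd R F n f₀ σ t).ver f₀)) := by
      refine b.trans (le_of_pw (.refl _) subset_rfl fun τ' hτ' x => ?_)
      simp only [res_L, Sys.ver]
      rw [upd_dep hR τ' f f₀ (hf.lo hτ'.2) fun h => hf τ' h hτ'.2]
      exact .refl _ _
    have h₂ := le_br (σ := σ) (n := n) (lo_lower τ) a h₁ (hR.sub.trans hs.T)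
      (c.mono_set fun x hx τ' hτ' β hβ m h₃ h₄ => by
        simp only [Sys.ver] at h₃ h₄ ⊢
        rw [upd_k hR hτ'.1 hβ.1] at h₃
        have : ((upd R F n f₀ σ t).L f₀ τ' x).e m = (R.L f₀ τ' x).e m := by
          by_cases h : Ag F τ' f₀ f₀ ∧ On R F n f₀ σ t τ' x
          · have := le_uK (F := F) (n := n) (t := t) τ' x
            rw [upd_e hR h hτ'.1, newe, if_pos rfl] at h₃ h₄ ⊢
            split_ifs at h₃ h₄ ⊢ <;> omega
          · rw [upd_off h, if_pos (hR.sub hτ'.1)]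
        rw [this] at h₃ h₄ ⊢
        exact hx.2.2.1 τ' hτ' β hβ m h₃ h₄)
    have h₃ := upd_key hR ht (lo_lower τ) d a h₂
      ((c.mono_set fun x hx => hx.2.1).sub (proj_fs _ _) a)
    refine sm_bdd (fun j => (htA.sm hτ j).mono h₃) (K := fun x => max (uK F n t τ x) j)
      (meas_max (meas_uK F n t τ) measurable_const) (c.mono_set fun x hx m hm => ?_)
    simp only [Sys.ver, mem_ofPred_eq] at hm ⊢
    by_cases h : τ ∈ F
    · have h₄ := On.le hR hx.2 h m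
      have h₅ := hR.tail τ h f₀ f hf.symm x m
      rw [upd_e hR hx h, newe] at hm
      split_ifs at hm <;> omega
    · rw [upd_out hx h] at hm
      omega
  · by_cases h : τ ∈ R.T
    · refine (((hR.mem f).sm h j).mono (b.trans ((hs.le_ver f).res (lo_lower τ)))).sub
        (c.mono_set fun x hx => ?_)
      simp only [Sys.ver, mem_ofPred_eq, upd_off hx, if_pos h, subset_rfl]
    · refine (sm_triv τ d j).sub (c.mono_set fun x hx => ?_)
      simp only [Sys.ver, mem_ofPred_eq, upd_off hx, if_neg h, subset_rfl]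

theorem upd_good (ht : Le t (br (R.ver f₀) F n σ)) (htA : Mem A t) :
    Good A (upd R F n f₀ σ t) F n where
  mem := upd_mem hR ht htA
  sub := hR.sub.trans ht.T
  dep := upd_dep hR
  tail τ hτ f f' h₁ x m := by
    have h₃ := hR.tail τ hτ f f' h₁ x m
    by_cases h : Ag F τ f f₀ ∧ On R F n f₀ σ t τ x
    · have h₂ := le_uK (F := F) (n := n) (t := t) τ x
      rw [upd_e hR h hτ, upd_e hR ⟨h₁.symm.trans h.1, h.2⟩ hτ, newe, newe]
      split_ifs <;> omega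
    · rw [upd_off h, upd_off fun h' => h ⟨h₁.trans h'.1, h'.2⟩, if_pos (hR.sub hτ),
        if_pos (hR.sub hτ)]
      exact h₃
  stem τ hτ β hβ f x := by
    rw [upd_k hR hτ hβ]
    exact hR.stem τ hτ β hβ f x

theorem exists_update (hA : IsLowerSet A) (ht : Le t (br (R.ver f₀) F n σ)) (htA : Mem A t) :
    ∃ R', Good A R' F n ∧ Step F n R R' ∧ R'.b = R.b ∧
      ∀ d, Mem A d → Le d (br (R'.ver f₀) F n σ) → Sub0 d.b t.b → Le d t :=
  ⟨_, upd_good hR ht htA, upd_step hR ht.T, rfl, fun d a b c =>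
    (upd_key hR ht hA d a (b.trans (le_res _ _)) (c.trans (sub_proj _ _))).trans
      ((Le.refl t).res_le hA htA)⟩

end Update

def constSys (p : Pre) : Sys := ⟨p.b, p.T, fun _ => p.L, p.hT, fun _ => p.hL⟩

theorem good_const {p : Pre} (h : Mem A p) (n : ℕ) : Good A (constSys p) ∅ n :=
  ⟨fun _ => h, by simp, fun _ _ _ _ _ => rfl, by simp, by simp⟩

theorem br_empty (p : Pre) (n σ) : br p ∅ n σ = p := Pre.ext rfl rfl (by funext τ x; simp [br])

/-- Lifting an extension to the full random part. -/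
theorem exists_lift (hA : IsLowerSet A) {q t : Pre} (hq : Mem A q) (htA : Mem A t) (ht : Le t q) :
    ∃ q', Mem A q' ∧ Le q' q ∧ q'.b = q.b ∧ ∀ d, Mem A d → Le d q' → Sub0 d.b t.b → Le d t := by
  obtain ⟨R, a, b, c, e⟩ := exists_update (f₀ := fun _ => false) (σ := fun _ _ _ => false)
    (good_const hq 0) hA (by rw [br_empty]; exact ht) htA
  rw [br_empty] at e
  exact ⟨_, a.mem _, b.le_ver _, c, e⟩

theorem exists_shrink (hR : Good A R F n) {a : Set X} (ha : FS A a) (h₀ : pr (R.b ∩ a) ≠ 0) :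
    ∃ R', Good A R' F n ∧ Step F n R R' ∧ R'.b = R.b ∩ a := by
  have := Step.refl F n R
  exact ⟨⟨R.b ∩ a, R.T, R.L, R.hT, R.hL⟩,
    ⟨fun f => (hR.mem f).shrink ha h₀, hR.sub, hR.dep, hR.tail, hR.stem⟩,
    ⟨inter_subset_left, this.T, this.rel, this.keep, this.nog, this.k, this.pair⟩, rfl⟩

/-! ### Squashing -/

theorem exists_squash (hR : Good A R F n) (hF : F ⊆ F') (hF' : ↑F' ⊆ R.T) (i : ℕ) :
    ∃ R', Good A R' F' (n + 1) ∧ Step F n R R' ∧ R'.b = R.b ∧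
      ∀ τ ∈ F', ∀ f x, ∀ m < i, (R'.L f τ x).e m ≤ n := by
  let K₀ : (Θ → Bool) → Θ → X → ℕ := fun f τ x =>
    max (F'.sup fun β => (R.L f τ x).k β) ((Finset.range i).sup fun m => (R.L f τ x).e m)
  let K : (Θ → Bool) → Θ → X → ℕ := fun f τ x =>
    max (K₀ (Function.update f τ true) τ x) (K₀ (Function.update f τ false) τ x)
  have hK₀ : ∀ f τ, Measurable[gen (mK (lo τ))] (K₀ f τ) := fun f τ =>
    meas_max (meas_sup _ (R.hL f τ).k) (meas_sup _ (R.hL f τ).e)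
  have hK : ∀ f τ, Measurable[gen (mK (lo τ))] (K f τ) := fun f τ => meas_max (hK₀ _ _) (hK₀ _ _)
  have hKe : ∀ τ f f', Ag F' τ f f' → K f τ = K f' τ := by
    intro τ f f' h
    have : ∀ v, R.L (Function.update f τ v) τ = R.L (Function.update f' τ v) τ := by
      refine fun v => hR.dep τ _ _ (fun τ' a b => ?_) fun _ => by simp
      have : τ' ≠ τ := fun e => not_mem_lo τ (e ▸ b)
      simp [this, h τ' (hF a) b]
    simp only [K, K₀, this]
  have hKl : ∀ f τ x, K₀ f τ x ≤ K f τ x := by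
    intro f τ x
    conv_lhs => rw [← Function.update_eq_self τ f]
    cases f τ
    exacts [le_max_right _ _, le_max_left _ _]
  have hk : ∀ f τ x, ∀ β ∈ F', (R.L f τ x).k β ≤ K f τ x := fun f τ x β h =>
    ((Finset.le_sup (f := fun β => (R.L f τ x).k β) h).trans (le_max_left _ _)).trans (hKl f τ x)
  let R' : Sys := ⟨R.b, R.T, fun f τ x => if τ ∈ F' then
      bump (R.L f τ x) n F' (R.L f τ x).e (K f τ x) else R.L f τ x, R.hT,
    fun f τ => LM.ite measurable_const ((R.hL f τ).bump n F' (R.hL f τ).e (hK f τ)) (R.hL f τ)⟩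
  have he : ∀ τ ∈ F', ∀ f x m, (R'.L f τ x).e m =
      newe (R.L f τ x).e (R.L f τ x).e n (K f τ x) n m := fun τ hτ f x m => by
    simp only [R', if_pos hτ]; rfl
  have hk' : ∀ τ ∈ F', ∀ β ∈ F', ∀ f x, (R'.L f τ x).k β = min ((R.L f τ x).k β) n :=
    fun τ hτ β hβ f x => by simp [R', hτ, hβ, bump, retile]
  have hs : Step F n R R' := by
    refine ⟨subset_rfl, subset_rfl, fun f τ _ x β _ => ?_, fun τ hτ f x m h => ?_,
      fun τ hτ f x m h => ?_, fun τ hτ β hβ f x => ?_, fun τ hτ f f' _ _ x m => ?_⟩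
    · simp only [R']
      split_ifs
      · exact ref_bump (fun _ _ _ e => Or.inl e) (fun β hβ m _ h => h.trans (hk f τ x β hβ)) β
      · exact .refl _
    · rw [he τ (hF hτ), newe, if_pos h]
    · rw [he τ (hF hτ), newe]
      split_ifs <;> omega
    · rw [hk' τ (hF hτ) β (hF hβ), min_eq_left (hR.stem τ hτ β hβ f x).le]
    · have := hR.stem τ hτ τ hτ f x
      rw [he τ (hF hτ), newe]
      split_ifs <;> omega
  refine ⟨R', ⟨fun f => ?_, hF', fun τ f f' a b => ?_, fun τ hτ f f' a x m => ?_,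
    fun τ hτ β hβ f x => ?_⟩, hs, rfl, fun τ hτ f x m hm => ?_⟩
  · refine mem_def.2 ⟨(hR.mem f).fs, (hR.mem f).pos, (hR.mem f).T, fun τ hτ j => ?_⟩
    refine sm_bdd (fun j => ((hR.mem f).sm hτ j).mono ((hs.le_ver f).res (lo_lower τ)))
      (K := fun x => max (K f τ x) j) (meas_max (hK f τ) measurable_const)
      (force_of_forall fun x m hm => ?_)
    simp only [Sys.ver, mem_ofPred_eq] at hm ⊢
    by_cases h : τ ∈ F'
    · rw [he τ h, newe] at hm
      split_ifs at hm <;> omega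
    · simp only [R', if_neg h] at hm
      omega
  · simp only [R', hKe τ f f' a, hR.dep τ f f' (fun τ' c => a τ' (hF c)) fun c => b (hF c)]
  · have : n < (R.L f τ x).e m → (R.L f' τ x).e m = (R.L f τ x).e m := by
      by_cases h : τ ∈ F
      · exact hR.tail τ h f f' (fun τ' c => a τ' (hF c)) x m
      · rw [hR.dep τ f f' (fun τ' c => a τ' (hF c)) fun c => absurd c h]
        exact fun _ => rfl
    rw [he τ hτ, he τ hτ, newe, newe, hKe τ f f' a]
    split_ifs <;> omega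
  · rw [hk' τ hτ β hβ]
    omega
  · have : (R.L f τ x).e m ≤ K f τ x := ((Finset.le_sup (f := fun m => (R.L f τ x).e m)
      (Finset.mem_range.2 hm)).trans (le_max_right _ _)).trans (hKl f τ x)
    rw [he τ hτ, newe]
    split_ifs <;> omega

end Pool.Agent.MP_9c82b4_lc
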