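import Pool.Agent.MP_9c82b4_lc.Nwd

namespace Pool.Agent.MP_9c82b4_lc

open Pool.Agent.MP_c6cf52_lc Name Gen Set Filter

variable {g : Gen P}

theorem exists_enum : ∃ en : Θ → X → Set ℕ, ∀ F ∈ Meas univ, ∃ β, en β = F := by
  obtain ⟨bk, h⟩ := exists_book (fun ν => Meas (Iio ν)) small_meas
  refine ⟨fun β => (bk β).2, fun F hF => ?_⟩
  obtain ⟨ν, hν⟩ := meas_level hF
  obtain ⟨ξ, -, e⟩ := h ν F hν
  exact ⟨ξ, congrArg Prod.snd e⟩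

/-- A node that reads the ultrafilter on its level. -/
theorem exists_reader (σ : Name P) : ∃ τ, ∀ F ∈ Meas (lo τ), ∀ (g : Gen P) x, σ ∈ g.N →
    IsUltra g.E (g.v wN) (g.v σ) → Ok g x (xi τ F) → Rd g x F → Big (g.v σ) (sel τ F x) := by
  choose ξ h using fun F => readF (UDef.mem 0 1) [nm F, σ]
  choose ρ hρ using fun α => exists_ub (ξ '' Meas (Iio α))
  obtain ⟨ν, h₁, h₂⟩ := closing ρ
  have h₃ : ∀ F ∈ Meas (Iio ν), ξ F < ν := fun F hF => by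
    obtain ⟨S, a, b, c⟩ := meas_ct hF
    obtain ⟨α, e, f⟩ := h₂ S b a
    exact (hρ α ⟨F, c _ f, rfl⟩).trans (h₁ α e)
  obtain ⟨τ, rfl, h₄⟩ := exists_node h₃
  refine ⟨τ, fun F hF g x a b c e => ?_⟩
  rw [h₄ F hF] at c
  have h₅ : g.E (g.v (nm F)) (g.v σ) ↔ bit τ F x = true :=
    (h F g x (l2 e.1 a) c).trans (by simp [bit, h₄ F hF, h₃ F hF])
  by_cases h₆ : g.E (g.v (nm F)) (g.v σ)
  · exact ⟨_, h₆, fun n hn => iff_of_true ((e.2 n).1 hn) (h₅.1 h₆)⟩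
  · exact ((big_or b (nm_sub e.1)).resolve_left h₆).mono fun n hn =>
      iff_of_false (mt (e.2 n).2 hn) (mt h₅.2 h₆)

def rs (τ β : Θ) (i : Bool) : X → Set ℕ := fun x => {m | x (.H τ β m) = 1 ↔ i = true}

theorem rs_meas (τ β : Θ) (i : Bool) : rs τ β i ∈ Meas univ := fun _ => meas_set (meas_iff
  (meas_eq (gen_eval (K := mK univ) (mem_univ _)) measurable_const) measurable_const)

section Family

variable (en : Θ → X → Set ℕ) (τ : Θ) (σ : Name P)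

def Lst (β : Θ) (i : Bool) (c : P) : Prop :=
  (∀ β' < β, ∀ d ≤ c, ¬ ∀ᶠ g in cof P, d ∈ g.G → g.v (nm (en β')) = g.v (nm (en β))) ∧
    FMem (nm (rs τ β i)) σ c

noncomputable def aN : Name P := relN (ι := {z : Θ × Bool × P // Lst en τ σ z.1 z.2.1 z.2.2})
  (fun z => nm (en z.1.1)) (fun z => nm (rs τ z.1.1 z.1.2.1)) (fun z => z.1.2.2)

variable {en τ σ}

theorem Lst.mono {β i c d} (h : Lst en τ σ β i c) (hd : d ≤ c) : Lst en τ σ β i d :=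
  ⟨fun β' a e b => h.1 β' a e (b.trans hd), h.2.mono hd⟩

theorem app_aN (h : aN en τ σ ∈ g.N) {s t : g.M} : App g.E (g.v (aN en τ σ)) s t ↔
    ∃ β i c, Lst en τ σ β i c ∧ c ∈ g.G ∧ nm (en β) ∈ g.N ∧ nm (rs τ β i) ∈ g.N ∧
      s = g.v (nm (en β)) ∧ t = g.v (nm (rs τ β i)) :=
  (app_relN h).trans ⟨fun ⟨z, a⟩ => ⟨_, _, _, z.2, a⟩, fun ⟨β, i, c, a, b⟩ => ⟨⟨(β, i, c), a⟩, b⟩⟩

theorem isFun_aN (hen : ∀ F ∈ Meas univ, ∃ β, en β = F) (h : aN en τ σ ∈ g.N) (hσ : σ ∈ g.N)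
    (hU : IsUltra g.E (g.v wN) (g.v σ)) {W : g.M} (hW : ∀ x, g.E x W ↔ Sub g.E x (g.v wN)) :
    IsFun g.E (g.v (aN en τ σ)) W (g.v σ) := by
  refine ⟨fun p hp => ?_, fun y hy => existsUnique_of_exists_of_unique ?_ fun b b' h₁ h₂ => ?_⟩
  · obtain ⟨z, a, b, c, rfl⟩ := (E_relN h).1 hp
    exact ⟨_, _, (hW _).2 (nm_sub b), (v_mem_iff c hσ).2 ⟨_, a, z.2.2⟩, isPair_pr _ _⟩
  · obtain ⟨σ', hσ', rfl⟩ := exists_v y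
    have hD : UDef.{2} (fun _ E w => IsUltra E (w 0) (w 1) → Sub E (w 2) (w 0) →
        ∃ b, App E (w 3) (w 2) b) :=
      (UD.isUltra _ _).imp ((UD.sub _ _).imp (UDef.ex (UDef.app _ _ _)))
    refine dens' hD (l4 wN_mem hσ hσ' h) (fun p _ => ?_) hU ((hW _).1 hy)
    obtain ⟨F, h₁, h₂⟩ := read' σ'
    obtain ⟨β₀, rfl⟩ := hen F h₁
    obtain ⟨β, ⟨d, h₃, h₄⟩, h₅⟩ := (wellFounded_lt (α := Θ)).has_min {β | ∃ d ≤ p, ∀ᶠ g in cof P,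
      d ∈ g.G → Sub g.E (g.v σ') (g.v wN) → g.v (nm (en β)) = g.v σ'}
      ⟨β₀, p, le_rfl, h₂.mono fun _ a _ => a⟩
    refine ⟨d, h₃, ?_⟩
    filter_upwards [h₄, ev_mem σ, ev_mem (aN en τ σ), point countable_empty countable_empty
      (to_countable (range (rs τ β))) (range_subset_iff.2 (rs_meas τ β)), ev_mem (nm (en β))]
      with g e₁ e₂ e₃ ⟨x, _, _, e₄⟩ e₅ e₆ e₇ e₈
    have f₁ := e₄ _ ⟨true, rfl⟩
    have f₂ := e₄ _ ⟨false, rfl⟩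
    obtain ⟨i, k₁, k₂⟩ : ∃ i, nm (rs τ β i) ∈ g.N ∧ g.E (g.v (nm (rs τ β i))) (g.v σ) := by
      rcases big_or e₇ (nm_sub f₁.1) with k | k
      · exact ⟨_, f₁.1, k⟩
      · exact ⟨_, f₂.1, k.mem e₇ (nm_sub f₂.1) fun n hn => (f₂.2 n).2 (by
          simpa [rs] using mt (f₁.2 n).2 hn)⟩
    obtain ⟨c, k₃, k₄⟩ := (v_mem_iff k₁ e₂).1 k₂
    obtain ⟨r, k₅, k₆, k₇⟩ := g.dir k₃ e₆
    refine ⟨_, (app_aN e₃).2 ⟨β, i, r, ⟨fun β' a e b f => h₅ β' ⟨e, b.trans (k₇.trans h₃), ?_⟩ a,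
      k₄.mono k₆⟩, k₅, e₅, k₁, (e₁ e₆ e₈).symm, rfl⟩⟩
    filter_upwards [f, h₄] with g a₁ a₂ a₃ a₄ using (a₁ a₃).trans (a₂ (g.up a₃ (b.trans k₇)) a₄)
  · obtain ⟨β, i, c, a₁, a₂, a₃, a₄, rfl, rfl⟩ := (app_aN h).1 h₁
    obtain ⟨β', i', c', b₁, b₂, b₃, b₄, e, rfl⟩ := (app_aN h).1 h₂
    have key : ∀ {β β' i c}, Lst en τ σ β i c → c ∈ g.G → nm (en β) ∈ g.N → nm (en β') ∈ g.N →
        g.v (nm (en β')) = g.v (nm (en β)) → β ≤ β' := fun a₁ a₂ a₃ a₄ e => not_lt.1 fun k => by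
      obtain ⟨p, k₁, k₂⟩ := transfer' (UDef.eq 0 1) (l2 a₄ a₃) e
      obtain ⟨d, -, k₃, k₄⟩ := g.dir k₁ a₂
      exact a₁.1 _ k d k₄ (k₂.mono fun g a b => a (g.up b k₃))
    obtain rfl := le_antisymm (key a₁ a₂ a₃ b₃ e.symm) (key b₁ b₂ b₃ a₃ e)
    obtain ⟨m, k₁, k₂⟩ := (Big.inter hU ⟨_, (v_mem_iff a₄ hσ).2 ⟨c, a₂, a₁.2⟩, fun _ => id⟩
      ⟨_, (v_mem_iff b₄ hσ).2 ⟨c', b₂, b₁.2⟩, fun _ => id⟩).nonempty hU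
    obtain ⟨d, k₃, k₄⟩ := (nN_locN a₄).1 k₁
    obtain ⟨d', k₅, k₆⟩ := (nN_locN b₄).1 k₂
    obtain ⟨r, -, k₇, k₈⟩ := g.dir k₃ k₅
    obtain ⟨x, f₁, f₂⟩ := (k₄.mono k₇).meet (k₆.mono k₈)
    rw [Bool.eq_iff_iff.2 (f₁.symm.trans f₂)]

end Family

theorem exists_blocks {In : Θ → Bool → P → Prop} (mono : ∀ β i c d, d ≤ c → In β i c → In β i d)
    {p : P} (h : ∀ V : Finset Θ, ∀ d ≤ p, ∃ d' ≤ d, ∃ β ∉ V, ∃ i, In β i d') :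
    ∃ r ≤ p, ∃ i, ∃ V : ℕ → Finset Θ, Monotone V ∧
      ∀ l, ∀ d ≤ r, ∃ d' ≤ d, ∃ β ∈ V (l + 1), β ∉ V l ∧ In β i d' := by
  classical
  obtain ⟨i, q, h₁, h₂⟩ : ∃ i, ∃ q ≤ p, ∀ V : Finset Θ, ∀ d ≤ q, ∃ d' ≤ d, ∃ β ∉ V, In β i d' := by
    by_cases k : ∀ V : Finset Θ, ∀ d ≤ p, ∃ d' ≤ d, ∃ β ∉ V, In β true d'
    · exact ⟨true, p, le_rfl, k⟩
    push Not at k
    obtain ⟨V₀, q, a, b⟩ := k
    refine ⟨false, q, a, fun V d e => ?_⟩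
    obtain ⟨d', f₁, β, f₂, _ | _, f₃⟩ := h (V ∪ V₀) d (e.trans a)
    · exact ⟨d', f₁, β, fun k => f₂ (Finset.mem_union_left _ k), f₃⟩
    · exact absurd f₃ (b d' (f₁.trans e) β fun k => f₂ (Finset.mem_union_right _ k))
  have h₃ : ∀ n, ∀ d ≤ q, ∃ d' ≤ d, ∃ S : Finset Θ, S.card = n ∧ ∀ β ∈ S, In β i d' := by
    intro n d hd
    induction n with
    | zero => exact ⟨d, le_rfl, ∅, rfl, by simp⟩
    | succ n ih =>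
      obtain ⟨d', a, S, b, c⟩ := ih
      obtain ⟨e, f₁, β, f₂, f₃⟩ := h₂ S d' (a.trans hd)
      refine ⟨e, f₁.trans a, insert β S, by rw [Finset.card_insert_of_notMem f₂, b], fun γ k => ?_⟩
      rcases Finset.mem_insert.1 k with rfl | k
      exacts [f₃, mono _ _ _ _ f₁ (c γ k)]
  obtain ⟨r, a, b, c⟩ := bounding isLowerSet_univ q.2 (fun n => {c | ∃ hc : Mem univ c,
    ∃ S : Finset Θ, S.card = n ∧ ∀ β ∈ S, In β i ⟨c, hc⟩}) fun n d k₁ k₂ =>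
      let ⟨d', f₁, f₂⟩ := h₃ n ⟨d, k₁⟩ k₂
      ⟨d'.1, d'.2, f₁, d'.2, f₂⟩
  have h₄ : ∀ n, ∃ T : Finset Θ, ∀ d : P, Le d.1 r → ∃ d' ≤ d, ∃ S ⊆ T, S.card = n ∧
      ∀ β ∈ S, In β i d' := by
    intro n
    obtain ⟨𝒱, k₁, k₂, k₃⟩ := c n
    choose hc S k₄ k₅ using fun z : 𝒱 => k₁ z.2
    have := k₂.fintype
    refine ⟨Finset.univ.biUnion S, fun d k => ?_⟩
    obtain ⟨d', f₁, f₂, e, f₃, f₄⟩ := k₃ d.1 d.2 k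
    exact ⟨⟨d', f₁⟩, f₂, S ⟨e, f₃⟩, Finset.subset_biUnion_of_mem S (Finset.mem_univ _), k₄ _,
      fun β hβ => mono _ _ _ _ f₄ (k₅ ⟨e, f₃⟩ β hβ)⟩
  choose T hT using h₄
  let V : ℕ → Finset Θ := fun l => Nat.rec ∅ (fun _ V => V ∪ T (V.card + 1)) l
  refine ⟨⟨r, a⟩, Le.trans b h₁, i, V, monotone_nat_of_le_succ fun l => Finset.subset_union_left,
    fun l d hd => ?_⟩
  obtain ⟨d', f₁, S, f₂, f₃, f₄⟩ := hT ((V l).card + 1) d hd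
  obtain ⟨β, f₅, f₆⟩ := Finset.exists_mem_notMem_of_card_lt_card (s := V l) (t := S) (by omega)
  exact ⟨d', f₁, β, Finset.mem_union_right _ (f₂ f₅), f₆, f₄ β f₅⟩

theorem isTop {p : g.M} (hp : IsUltra g.E (g.v wN) p) : IsTop g.E (g.v wN) p := by
  obtain ⟨σ, hσ, rfl⟩ := exists_v p
  refine dens' ((UD.isUltra 0 1).imp (UD.isTop 0 1)) (l2 wN_mem hσ) (fun q _ => ⟨q, le_rfl, ?_⟩) hp
  obtain ⟨en, hen⟩ := exists_enum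
  obtain ⟨τ, hτ⟩ := exists_reader σ
  clear hp hσ
  filter_upwards [ev_mem σ, ev_mem (aN en τ σ)] with g hσ ha _ hp
  obtain ⟨W, hW⟩ := exists_power (g.v wN)
  have hf := isFun_aN hen ha hσ hp hW
  refine ⟨W, _, hW, hf, fun I h₁ h₂ y h₃ h₄ => ?_⟩
  obtain ⟨σI, hI, rfl⟩ := exists_v I
  obtain ⟨σy, hy, rfl⟩ := exists_v y
  have hD : UDef.{2} (fun _ E w => IsUltra E (w 0) (w 1) ∧ E (w 3) (w 1) ∧ ¬ IsFin E (w 0) (w 2) ∧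
      (∀ x, E x (w 2) → ∃ b, App E (w 4) x b) ∧
      ∀ n x b, E n (w 3) → E x (w 2) → App E (w 4) x b → E n b) := by
    repeat' first
      | exact UDef.mem _ _ | exact UD.isUltra _ _ | exact UD.isFin _ _ | exact UDef.app _ _ _
      | apply UDef.and | apply UDef.not | apply UDef.imp | apply UDef.all | apply UDef.ex
  obtain ⟨p₀, -, H⟩ := transfer' hD (lcons wN_mem (l4 hσ hI hy ha)) ⟨hp, h₄, h₂,
    fun x hx => (fun_ex hf (h₁ x hx)).imp fun _ h => h.2,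
    fun n x b a => ((h₃ n).1 a).2 x b⟩
  clear hp h₄ h₃ h₂ h₁ hf hW hσ ha hI hy
  obtain ⟨r, k₁, i, V, k₂, k₃⟩ := exists_blocks (p := p₀)
    (In := fun β i c => Lst en τ σ β i c ∧ FMem (nm (en β)) σI c)
    (fun _ _ _ _ a b => ⟨b.1.mono a, b.2.mono a⟩) (fun V d hd => by
      obtain ⟨g, e₁, e₂, e₃, e₄⟩ := ev_ex (H.and ((ev_mem σI).and (ev_mem (aN en τ σ)))) d
      obtain ⟨-, -, f₁, f₂, -⟩ := e₂ (g.up e₁ hd)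
      obtain ⟨x, f₃, f₄⟩ := Infinite.exists_notMem_finite (mt isFin_iff.2 f₁)
        (V.finite_toSet.image fun β => g.v (nm (en β)))
      obtain ⟨b, f₅⟩ := f₂ x f₃
      obtain ⟨β, i, c, a₁, a₂, a₃, -, rfl, -⟩ := (app_aN e₄).1 f₅
      obtain ⟨c', a₄, a₅⟩ := (v_mem_iff a₃ e₃).1 f₃
      obtain ⟨s, a₆, a₇, a₈⟩ := g.dir a₂ a₄
      obtain ⟨t, -, a₉, b₁⟩ := g.dir a₆ e₁
      exact ⟨t, b₁, β, fun k => f₄ ⟨β, k, rfl⟩, i, a₁.mono (a₉.trans a₇), a₅.mono (a₉.trans a₈)⟩)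
  obtain ⟨r', a₁, a₂, Z, a₃, a₄, a₅⟩ := tukey_ext τ r.2 V k₂ (!i)
  have up := Meas.mono (subset_univ (lo τ))
  obtain ⟨F, b₁, K, b₂, b₃⟩ := read σy
  have b₄ : ∀ m, Frc ⟨r', a₁⟩ {x | m ∈ F x → m ∈ Z x} := fun m => Frc.reg fun d hd => by
    obtain ⟨d₁, c₁, c₂, c₃ | ⟨l, c₃⟩⟩ := a₅ m d.1 d.2 hd
    · exact ⟨⟨d₁, c₁⟩, c₂, Force.mono_set c₃ fun _ a _ => a⟩
    have c₄ : LE.le (α := P) ⟨d₁, c₁⟩ r := Le.trans c₂ (Le.trans hd a₂)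
    obtain ⟨d₂, c₅, β, c₆, c₇, c₈, c₉⟩ := k₃ l _ c₄
    refine ⟨d₂, Le.trans c₅ c₂, Force.mono_set (force_compl (b₁ m) fun e f₁ f₂ f₃ => ?_)
      fun _ a b => absurd b a⟩
    obtain ⟨g, e₁, e₂, e₃, e₄, e₅, e₆, x, e₇, e₈, e₉⟩ := ev_ex (H.and ((ev_mem σI).and
      ((ev_mem (aN en τ σ)).and ((ev_mem σy).and ((ev_mem (nm (en β))).and (point
        (toFinite {{x | m ∈ F x}, cyl (.H τ β m) (!i).toNat}).countable b₂ (countable_singleton _)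
        (singleton_subset_iff.2 (rs_meas τ β i)))))))) ⟨e, f₁⟩
    have f₄ : d₂ ∈ g.G := g.up e₁ f₂
    have f₅ := e₇ _ (Or.inr rfl) _ f₄ ((c₃ β c₆ c₇).mono c₅)
    have f₆ := ((e₉ _ rfl).2 m).1 ((e₂ (g.up f₄ (c₅.trans (c₄.trans k₁)))).2.2.2.2 _ _ _
      ((b₃ g x e₅ e₈ m).2 (e₇ _ (Or.inl rfl) _ e₁ f₃)) ((v_mem_iff e₆ e₃).2 ⟨_, f₄, c₉⟩)
      ((app_aN e₄).2 ⟨β, i, _, c₈, f₄, e₆, (e₉ _ rfl).1, rfl, rfl⟩))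
    cases i <;> simp_all [rs, cyl]
  obtain ⟨d, c₁, c₂, 𝓛, c₃, c₄, n, c₅⟩ := a₄.link a₃ a₁ (.refl _)
  obtain ⟨g, e₁, e₂, e₃, e₄, x, e₅, e₆, e₇⟩ := ev_ex (H.and ((ev_mem σ).and ((ev_mem σy).and
    (point (countable_singleton _) (b₂.union (c₃.image (xi τ)).countable) c₃.countable
      (c₄.trans up))))) ⟨d, c₁⟩
  obtain ⟨f₁, f₂⟩ := e₅ _ rfl _ e₁ (c₅.inter ((force_all b₄).mono c₂))
  obtain ⟨f₃, f₄, -⟩ := e₂ (g.up e₁ (Le.trans c₂ (Le.trans a₂ k₁)))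
  obtain ⟨m, ⟨f₅, f₆⟩, f₇⟩ := (((big_ge f₃ n).inter f₃ ⟨_, f₄, fun _ => id⟩).inter f₃
    (big_biInter f₃ c₃ fun F hF => hτ F (c₄ hF) g x e₃ f₃ (e₆ _ (Or.inr ⟨F, hF, rfl⟩))
      (e₇ F hF))).nonempty f₃
  exact f₁ m f₅ (f₂ m ((b₃ g x e₄ (fun ξ h => e₆ ξ (Or.inl h)) m).1 f₆)) f₇

theorem main : ∃ (M : Type 2) (E : M → M → Prop), IsZFC E ∧ ∃ w : M, IsOmega E w ∧
    (∀ p, IsUltra E w p → IsTop E w p) ∧ ∃ p, IsUltra E w p ∧ IsNwd E w p := by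
  obtain ⟨G, h₀, h₁, h₂, h₃⟩ := exists_filter
  obtain ⟨g, -, h⟩ := ev_ex (ev_mem (UN G)) ⊤
  exact ⟨g.M, g.E, isZFC g, _, isOmega, fun _ => isTop, _, isUltra_UN h₁ h₂ h, isNwd_UN h₀ h₃ h⟩

end Pool.Agent.MP_9c82b4_lc
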